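import Pool.Agent.MP_5baa61_gt.JC.Spec

/-! Almost all steps are flagged. -/

namespace Pool.Agent.MP_5baa61_gt.JC

open Set Pool.Agent.MP_5baa61_gt.JA Pool.Agent.MP_5baa61_gt.JK Pool.Agent.MP_5baa61_gt.JB
open Pool.Agent.MP_b60a07_lc.H92 (Od U Rl t0 Good Ext Ub)
open scoped Classical

/-- The level and the first members of the history are fixed on a stationary class. -/
theorem fix_sf {b : Rl} [PO b] {p : U} {e : Od → Set U → ℕ → Od} (he : Lv b e)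
    {ν : Od → Set U → Nu} {K : Od → Set U → Sn} {Q : Od → Set U → Prop}
    (n1 : ∀ g, NB b (ν g)) (n2 : ∀ g, NB b (K g))
    (hs : SF b p fun g G => Q g G ∧ Null (ν g G) fun i => ¬ K g G i) : ∃ (l : ℕ) (z : ℕ → Od),
      SF b p fun g G => (Q g G ∧ NullAt (ν g G) l fun i => ¬ K g G i) ∧
        ∀ j < l + 1, e g G j = z j := by
  obtain ⟨l, h1⟩ := SF.fiber (R := fun g (l : ℕ) G => NullAt (ν g G) l fun i => ¬ K g G i) hs
    fun g l => by
      have := NB.ms (n1 g); have := NB.ms (n2 g)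
      exact NB.dec (nb_of (by fun_prop))
  exact ⟨l, SF.fodor_lt ((h1.and ((club_gt w0).mono fun g hg => Fc.of_all
    (S := fun G => ∀ j, e g G j < g) fun G j => (he.lt g G j).trans_eq (max_eq_left hg.le))))
      he.no (l + 1)⟩

theorem hs_fx {e : Od → Set U → ℕ → Od} {T : Od → Set U → ℕ → ℕ} {Z : Od → Set U → Zt} {g : Od}
    {G : Set U} {z : ℕ → Od} {l : ℕ} (h : ∀ j < l, e g G j = z j) :
    ∀ j < l, hs e T Z g G j = fx T Z z G j := fun j hj => by rw [hs, fx, h j hj]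

theorem flag_ok (c1 : S_coh) (c2 : S_tool) (c3 : S_coreL) : S_flag := by
  intro b _ p θ ν0 β β0 e T a X V Z Kp μ N0 hb hp h n0 n1 he nT hV h0 hR
  have m1 := NB.ms n1
  have mH := fun g => NB.ms (nb_hs he nT hR.nZ g)
  have nν : ∀ g, NB b fun G => nuL (lamG (β G).1 (β G).2.1 (hs e T Z g G)) (VL (V g G)) :=
    fun g => by
      have := mH g; have := NB.ms (hV.1 g)
      exact nb_of (by fun_prop)
  refine (club_or fun g => (h.nb_Comp (nν g)).dec).resolve_right fun s0 => ?_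
  choose K k1 k2 using fun g => h.comp_intro (nν g)
  obtain ⟨l, z, s1⟩ := fix_sf he nν k1 (Q := fun g G => θ.II (K g) G)
    ((s0.mp (club_of_all k2)).imp fun _ _ a => a.2)
  have m3 := NB.ms (nb_fx nT hR.nZ z)
  have h3 : Fc b p fun G => Gd (fx T Z z G) := .all fun j => hR.z1 (z j)
  rcases rank_sf h (ν := fun G => nuZ (β G).1 (β G).2.1 (fx T Z z G) (l + 1))
    (E := fun _ _ _ => True) n0 (nb_of (by fun_prop)) (nb_const _) k1
    ((s1.and (club_of_all fun _ => h0.and h3)).imp fun g G ⟨a1, a2, a3⟩ =>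
      ⟨a1, a2.reg, norm_nuZ a2.ok.1 a2.ok.2.2.1 a3.gh _, adm_of_le (nuZ_le _) a2.ok.2.2.2,
        a1.1.1⟩) with ⟨R, r1, s2⟩ | ⟨N, -, c, r1, s2⟩
  · obtain ⟨g, G, ⟨⟨a1, a2, a3⟩, a4⟩, a7, a9⟩ := ((s2.and ((club_gt w0).mono fun g hg =>
      hR.pre g hg.le)).and (club_of_all fun g => h0.and
        (h.comp_elim (ν := fun G => nuL (β G).1 (HH (β G).2.1 (hs e T Z g G)))
          (by have := mH g; exact nb_of (by fun_prop)) r1))).exists
    obtain ⟨c, hc⟩ := a3 0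
    refine a9 a4.cmp a2 ((c1 _ _ _ a7.ok.1 a7.ok.2.2.1 a4.gd a4.coh).null
      ⟨max c l, fun x hx => ?_⟩)
    exact (hc x (nuZ.mono hx a7.ok.1 a7.ok.2.2.1 a4.gd.gh (fun j hj =>
      ⟨j, by omega, hs_fx a1.2 j hj⟩) (le_max_left _ _))).imp
        fun i hi => ⟨hi.1, fun a => hi.2 ⟨trivial, a⟩⟩
  · have m4 := NB.ms r1
    obtain ⟨f, f1, f2⟩ := nb_choice (b := b) p
      (R := fun a m G => Lg (β G).1 (β G).2.1 (fx T Z z G) (l + 1) (N G) c a m)
      fun a m => nb_of (by fun_prop)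
    obtain ⟨g, G, ⟨⟨a1, a2, -, a3⟩, a4⟩, ⟨a5, a6⟩, a7⟩ := ((s2.and ((hV.2.2 f f1).mono
      fun g a => a.mono (hb.top hp))).and (club_of_all fun _ => (h0.and h3).and f2)).exists
    exact c3 _ _ _ _ _ _ _ _ _ _ a5.ok.1 a5.ok.2.2.1 a6
      (fun j hj => ⟨j, hj, (hs_fx a1.2 j hj).symm⟩) a4
      (fun i => a7 i ((c2 _ _ _ _ _ c a5.ok.1 a5.ok.2.2.1 a6).1 a2 i)) a3 a1.1.2

end Pool.Agent.MP_5baa61_gt.JC
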