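import Pool.Agent.MP_5baa61_gt.JC.Flag

/-! The first case is contradictory. -/

namespace Pool.Agent.MP_5baa61_gt.JC

open Set Pool.Agent.MP_5baa61_gt.JA Pool.Agent.MP_5baa61_gt.JK Pool.Agent.MP_5baa61_gt.JB
open Pool.Agent.MP_b60a07_lc.H92 (Od U Rl t0 Good Ext Ub)
open scoped Classical

theorem k1_ok (t1 : S_tool) (t2 : S_coreA) (t3 : S_coreB) : S_k1 := by
  intro b _ p θ ν0 β e T Z μ M D ⟨hb, hp, h, he, n0, n1, nT, nZ, nμ, nM, nD, h0, h1, h2, g0, g2⟩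
  have m1 := NB.ms n1
  have mH := fun g => NB.ms (nb_hs he nT nZ g)
  obtain ⟨K0, c1, c2⟩ : ∃ K0 : Set U → Sn, _ := h.conv (nD 0)
  have c3 := c2.mp (g0 0)
  have m0 := NB.ms c1
  have : ∀ g, ∃ K : Set U → Sn, _ := fun g => h.nhit_elim (nμ g) c1
  choose K k1 k2 using this
  obtain ⟨l, z, s1⟩ := fix_sf he (ν := fun g G => sec (μ g G) (K0 G))
    (fun g => by have := NB.ms (nμ g); exact nb_of (by fun_prop)) k1 (Q := fun g G => θ.II (K g) G)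
    (sf_of_club hp (h2.mono fun g a => ((a.and c3).and (k2 g)).imp fun G a =>
      a.2 a.1.1.1.1 a.1.2.1))
  have m3 := NB.ms (nb_fx nT nZ z)
  have h3 : Fc b p fun G => Gd (fx T Z z G) := .all fun j => h1 (z j)
  obtain ⟨E, eE⟩ : ∃ E : Set U → ℕ → Sn, E = fun G i => D (e w0 G i) G := ⟨_, rfl⟩
  have nE : NB b E := eE ▸ nb_pi fun i => (he.no w0 i).sel nD
  have m5 := NB.ms nE
  rcases rank_sf h (ν := fun G => nuZ (β G).1 (β G).2.1 (fx T Z z G) (l + 1)) n0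
    (nb_of (by fun_prop)) nE k1 ((s1.and (club_of_all fun _ => h0.and h3)).imp
      fun g G ⟨a1, a2, a3⟩ => ⟨a1, a2.1, norm_nuZ a2.2.1 a2.2.2.2.1 a3.gh _,
        adm_of_le (nuZ_le _) a2.2.2.2.2, a1.1.1⟩) with ⟨R, r1, s2⟩ | ⟨N, k, c, r1, s2⟩
  · have m4 := NB.ms r1
    obtain ⟨f, f1, f2⟩ := nb_choice (b := b) p (R := fun a m G =>
      NullAt (nuZ (β G).1 (β G).2.1 (fx T Z z G) (l + 1)) m fun i => E G a i ∧ ¬ R G i)
      fun a m => nb_of (by fun_prop)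
    obtain ⟨g, G, ⟨⟨⟨⟨a1, a2, a3⟩, -, a4, a5⟩, a6⟩, j, a7⟩, ⟨⟨a8, a9⟩, a10⟩, a11⟩ :=
      ((((s2.and h2).and (g2 f f1)).and ((club_gt w0).mono fun g hg =>
        fc_sur hb hp he (lt_max_of_lt_left hg))).and (club_of_all fun g =>
          ((h0.and (fc_at he g h1)).and f2).and
            (h.sep_elim (ν := fun G => nuD (β G).1 (β G).2.1 (hs e T Z g G))
              (by have := mH g; exact nb_of (by fun_prop)) (nM g) r1))).exists
    obtain ⟨m, hm⟩ := a11 a4 a2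
    refine t3 _ _ (hs e T Z g G) _ _ _ _ _ _ _ _ m j a8.2.1 a8.2.2.2.1 a9
      (fun j hj => ⟨j, hs_fx a1.2 j hj⟩) a6 a5 (fun i => ⟨_, le_rfl, ?_⟩) hm
    have := a10 i (a3 i)
    rw [eE] at this
    exact a7 ▸ this
  · have m4 := NB.ms r1
    obtain ⟨f, f1, f2⟩ := nb_choice (b := b) p (R := fun a m G =>
      (∃ n ≤ m, Lg (β G).1 (β G).2.1 (fx T Z z G) (l + 1) (N G) c a n) ∧
        ∃ i, a ≤ i ∧ i < m ∧ K0 G i) fun a m => nb_of (by fun_prop)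
    obtain ⟨g, G, ⟨⟨⟨a1, a2, a3, a4⟩, ⟨-, a5⟩, -⟩, a7⟩,
        ⟨⟨⟨⟨a8, a9⟩, a10⟩, a11⟩, j0, a12⟩, a13⟩ :=
      (((s2.and h2).and (g2 f f1)).and (club_of_all fun g =>
        ((((h0.and h3).and f2).and c3).and (fc_sur hb hp he (g := g) (x := 0)
          (lt_max_of_lt_right Ordinal.omega0_pos))).and (fc_at he w0
            (S := fun ξ G => ξ < w0 → ∃ j, e g G j = ξ) fun ξ => (em (ξ < w0)).elim
              (fun a => (fc_sur hb hp he (lt_max_of_lt_right a)).imp fun _ a _ => a)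
              fun a => .of_all fun _ a' => absurd a' a))).exists
    obtain ⟨j1, a14⟩ := a13 k ((he.lt w0 G k).trans_eq (max_self w0))
    refine t2 _ _ _ _ _ _ _ _ _ _ _ _ _ _ j0 j1 a8.2.1 a8.2.2.2.1 a9
      (fun j hj => ⟨j, hj, (hs_fx a1.2 j hj).symm⟩) a7 a5 (fun i => a10 i ?_) a4
      (fun i hi => a12 ▸ a11.2.2 i hi) (fun i hi => ?_) a1.1.2
    · obtain ⟨n, b1⟩ := (t1 _ _ _ _ _ c a8.2.1 a8.2.2.2.1 a9).1 a2 i
      obtain ⟨n', b2, b3⟩ := a11.2.1 i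
      exact ⟨max n (n' + 1), ⟨n, le_max_left _ _, b1⟩, n', b2, by omega, b3⟩
    · have := a3 i hi
      rw [eE] at this
      exact a14 ▸ this

end Pool.Agent.MP_5baa61_gt.JC
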