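import Pool.Agent.MP_5baa61_gt.JC.Spec

/-! The run along the ordinals. -/

namespace Pool.Agent.MP_5baa61_gt.JC

open Set Pool.Agent.MP_5baa61_gt.JA Pool.Agent.MP_5baa61_gt.JK Pool.Agent.MP_5baa61_gt.JB
open Pool.Agent.MP_b60a07_lc.H92 (Od U Rl t0 Good Ext Ub)
open scoped Classical

/-- The list of the first `n` members of a history. -/
def runL (UU : Lst) (H : Hs) (n : ℕ) : Lst := fun l p => UU l p ∧ ∀ j < n, (H j).2.req l p

@[fun_prop] theorem m_runL {Z : Type*} [MeasurableSpace Z] {UU : Z → Lst} {H : Z → Hs}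
    (h2 : Measurable UU) (h : Measurable H) (n : ℕ) : Measurable fun z => runL (UU z) (H z) n := by
  unfold runL; fun_prop

theorem run_bd {R : ℕ → ℕ → Prop} (m : ℕ) (h : ∀ i < m, ∃ j, R i j) :
    ∃ L, m ≤ L ∧ ∀ i < m, ∃ j < L, R i j := by
  choose! f hf using h
  exact ⟨max m ((Finset.range m).sup f + 1), le_max_left _ _, fun i hi => ⟨f i,
    lt_max_of_lt_right (Nat.lt_succ_of_le (Finset.le_sup (f := f) (Finset.mem_range.2 hi))),
    hf i hi⟩⟩

theorem run_null {lam : Lam} {UU W : Lst} {H : Hs} {n L : ℕ} (hl : CS lam) (hU : IsL UU)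
    (hg : ∀ j < n, Z1 (H j).2) (e : ∀ l p, L ≤ l → W l p → runL UU H n l p) {A : Sn}
    (h : Null (nuL lam (runL UU H n)) A) : Null (nuL lam W) A := by
  obtain ⟨c, hc⟩ := h
  have h1 : IsL (runL UU H n) :=
    ⟨fun l p q hp e => ⟨hU.req l p q hp.1 e, fun j hj => (hg j hj).1.req l p q (hp.2 j hj) e⟩,
      fun l p hp => ⟨hU.anti l p hp.1, fun j hj => (hg j hj).1.anti l p (hp.2 j hj)⟩⟩
  exact ⟨max c L, fun x ⟨s, a1, a2⟩ => hc x ⟨s, a1.both hl (by omega) (by omega),
    fun u hu => h1.le (e _ _ (by omega) (a2 u hu)) (by omega)⟩⟩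

theorem run_ok (hs0 : S_step) : S_run := by
  intro b _ p θ ν0 β β0 e T a X V hb hp ns n0 nβ nβ0 lv nT nX nV fm base
  obtain ⟨W, nW, w1, w2⟩ := rec_names (Y := Zt × Sn × Mu × (ℕ → Sn)) lv
    (topZ, fun _ => True, fun _ _ _ => True, fun _ _ => True)
    (fun g u y => (Fc b p fun G => Ctx θ ν0 β β0 G ∧
        Pre θ β (fun G j => (T (e g G j) G, (u G j).1)) G) →
      Fc b p (Post θ β (fun G j => (T (e g G j) G, (u G j).1)) (V g) (a g) (X g) (fun G => (y G).1)
        (fun G => (y G).2.1) (fun G => (y G).2.2.1) fun G => (y G).2.2.2)) fun g _ u hu => by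
    by_cases h : Fc b p fun G => Ctx θ ν0 β β0 G ∧
      Pre θ β (fun G j => (T (e g G j) G, (u G j).1)) G
    · obtain ⟨z, Kp, μ, N, a1, a2, a3, a4, a5⟩ := hs0 b p θ ν0 β β0 _ (V g) (a g) (X g) ns n0 nβ nβ0
        (nb_pi fun j => ((lv.no g j).sel nT).mk ((hu.ap j).comp measurable_fst)) (nV g) (nX g)
        (fm g) h
      exact ⟨fun G => (z G, Kp G, μ G, N G), a1.mk (a2.mk (a3.mk a4)), fun _ => a5⟩
    · exact ⟨fun _ => (topZ, fun _ => True, fun _ _ _ => True, fun _ _ => True), nb_const _,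
        fun h' => absurd h' h⟩
  let Z : Od → Set U → Zt := fun g G => (W g G).1
  have nZ : ∀ g, NB b (Z g) := fun g => (nW g).comp measurable_fst
  have tz : ∀ z < w0, ∀ G, Z z G = topZ := fun z hz G => by simp only [Z, w1 z hz]
  have sur : ∀ g, w0 ≤ g → ∀ x, Fc b p fun G => x < g → ∃ j, e g G j = x := fun g hg x => by
    by_cases h : x < g
    · exact ((lv.sur g x (lt_max_of_lt_left h)).mono (hb.top hp)).imp fun _ h _ => h
    · exact .of_all fun _ h' => absurd h' h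
  have lt : ∀ g, w0 ≤ g → ∀ G j, e g G j < g := fun g hg G j =>
    (lv.lt g G j).trans_eq (max_eq_left hg)
  have mβ := NB.ms nβ
  have key : ∀ g, w0 ≤ g → Fc b p (Pre θ β (hs e T Z g)) := fun g => by
    induction g using WellFoundedLT.induction with
    | ind g ih =>
    intro hg
    have po := fun z (hz : z < g) (h : w0 ≤ z) =>
      w2 z h (base.and (ih z hz h) |>.imp fun G h => ⟨h.1.1, h.2⟩)
    have z1 : ∀ z, Fc b p fun G => z < g → Z1 (Z z G) ∧ (w0 ≤ z → ZOk (hs e T Z z G) (Z z G) ∧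
        ∀ i, ∃ j, e g G j = e z G i) := fun z => by
      by_cases hz : z < g
      · rcases lt_or_ge z w0 with h | h
        · exact .of_all fun G _ => ⟨tz z h G ▸ z1_top, fun h' => absurd h h'.not_gt⟩
        · exact ((po z hz h).and (Fc.all fun i => fc_sel (lv.no z i) (sur g hg))).imp fun G a _ =>
            ⟨a.1.zok.1, fun _ => ⟨a.1.zok, fun i => a.2 i ((lt z h G i).trans hz)⟩⟩
      · exact .of_all fun _ h => absurd h hz
    have fin : ∀ (z : ℕ → Od) n, (∀ j < n, z j < g) →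
        Fc b p (θ.Comp fun G => nuL (β G).1 (runL (β G).2.1 (fx T Z z G) n)) := fun z n hz => by
      have m1 := NB.ms (nb_fx nT nZ z)
      have n1 : NB b fun G => nuL (β G).1 (runL (β G).2.1 (fx T Z z G) n) :=
        nb_of (by fun_prop)
      have h1 : Fc b p fun G => ∀ j < n, Z1 (Z (z j) G) :=
        (Fc.all fun j => z1 (z j)).imp fun G h j hj => (h j (hz j hj)).1
      by_cases h : ∀ j < n, z j < w0
      · exact ((comp_mono ns (nb_of (by fun_prop)) n1).and (base.and h1)).imp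
          fun G ⟨a1, a2, a3⟩ => a1 a2.2 fun A => run_null (L := 0) a2.1.ok.1 a2.1.ok.2.2.1 a3
            fun l q _ hq => ⟨hq, fun j hj => by
              change (Z (z j) G).req l q
              rw [tz _ (h j hj)]; trivial⟩
      push Not at h
      obtain ⟨j1, j2, j3⟩ := h
      obtain ⟨k, k1, k2⟩ := (Finset.range n).exists_max_image z ⟨j1, Finset.mem_range.2 j2⟩
      have k3 := j3.trans (k2 j1 (Finset.mem_range.2 j2))
      have m2 := NB.ms (nb_hs lv nT nZ (z k))
      have m3 := NB.ms (nZ (z k))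
      refine ((comp_mono ns (ν := fun G => nuL (β G).1 (HP (β G).2.1 (hs e T Z (z k) G) (Z (z k) G)))
        (nb_of (by fun_prop)) n1).and ((base.and h1).and ((po _ (hz k (Finset.mem_range.1 k1))
          k3).and (Fc.all fun j => sur _ k3 (z j))))).imp fun G ⟨a1, ⟨a2, a3⟩, a4, a5⟩ => ?_
      obtain ⟨L, -, hL⟩ := run_bd (R := fun j i => z j < z k → e (z k) G i = z j) n fun j _ =>
        (em (z j < z k)).elim (fun h => (a5 j h).imp fun _ h _ => h) fun h => ⟨0, fun h' => absurd h' h⟩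
      refine a1 a4.cmp fun A => run_null (L := L) a2.1.ok.1 a2.1.ok.2.2.1 a3
        fun l q hl hq => ⟨hq.1.1, fun j hj => ?_⟩
      change (Z (z j) G).req l q
      rcases (k2 j (Finset.mem_range.2 hj)).eq_or_lt with h | h
      · rw [h]; exact hq.2
      · obtain ⟨i, i1, i2⟩ := hL j hj
        rw [← i2 h]; exact hq.1.2 i (i1.trans_le hl)
    have m4 := NB.ms (nb_hs lv nT nZ g)
    obtain ⟨K, k1, k2⟩ := ns.comp_intro
      (ν := fun G => nuL (β G).1 (HH (β G).2.1 (hs e T Z g G))) (nb_of (by fun_prop))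
    have k3 : ∀ c, Fc b p fun G => θ.II K G → ∃ x, nuL (β G).1 (HH (β G).2.1 (hs e T Z g G)) c x ∧
        ∀ i ∈ x, ¬ K G i := fun c => .glue fun r hr => by
      obtain ⟨s, z, s1, s2⟩ := NO.vals (lv.no g) (c + 1) r (PO.l hr)
      have s3 : ∀ j < c + 1, z j < g :=
        (s2.imp fun G h j hj => h j hj ▸ lt g hg G j).const (PO.l s1)
      have m1 := NB.ms (nb_fx nT nZ z)
      refine ⟨s, s1, (s2.and (((fin z _ s3).and (ns.comp_elim
        (ν := fun G => nuL (β G).1 (runL (β G).2.1 (fx T Z z G) (c + 1))) (nb_of (by fun_prop))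
        k1)).mono (PO.tr s1 hr))).imp fun G ⟨a1, a2, a3⟩ a4 => ?_⟩
      obtain ⟨x, ⟨u, x1, x2⟩, x3⟩ := not_null.1 (a3 a2 a4) c
      refine ⟨x, ⟨u, x1, fun v hv => ⟨(x2 v hv).1, fun j hj => ?_⟩⟩, x3⟩
      change (Z (e g G j) G).req _ _
      rw [a1 j hj]; exact (x2 v hv).2 j hj
    refine ((Fc.all fun j => fc_sel (lv.no g j) z1).and (k2.and (Fc.all k3))).imp
      fun G ⟨a1, a2, a3⟩ => ⟨fun j => (a1 j (lt g hg G j)).1, fun j m => ?_,
        not_not.1 fun hn => not_null.2 (fun c => a3 c (a2 hn).1) (a2 hn).2⟩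
    rcases lt_or_ge (e g G j) w0 with h | h
    · refine ⟨0, fun q _ => ?_, fun k _ => ?_⟩
      · change (Z (e g G j) G).cum m q
        rw [tz _ h]; trivial
      · change (Z (e g G j) G).cumA m k
        rw [tz _ h]; trivial
    obtain ⟨b1, b2⟩ := (a1 j (lt g hg G j)).2 h
    obtain ⟨L, l1, l2⟩ := run_bd m fun i _ => b2 i
    refine ⟨L, fun q hq => (b1.2.1 m q).2 fun i hi => ?_, fun k hk => (b1.2.2 m k).2 fun i hi => ?_⟩
    · obtain ⟨i', i1, i2⟩ := l2 i hi
      change (Z (e (e g G j) G i) G).req m q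
      rw [← i2]; exact (a1 i' (lt g hg G i')).1.1.le (hq i' i1) l1
    · obtain ⟨i', i1, i2⟩ := l2 i hi
      change (Z (e (e g G j) G i) G).A k
      rw [← i2]; exact hk i' i1
  have po := fun g (h : w0 ≤ g) => w2 g h (base.and (key g h) |>.imp fun G h => ⟨h.1.1, h.2⟩)
  refine ⟨Z, fun g G => (W g G).2.1, fun g G => (W g G).2.2.1, fun g G => (W g G).2.2.2, nZ,
    fun g => (nW g).comp (φ := fun y => y.2.1) (by fun_prop),
    fun g => (nW g).comp (φ := fun y => y.2.2.1) (by fun_prop),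
    fun g => (nW g).comp (φ := fun y => y.2.2.2) (by fun_prop), fun g => ?_, key, po⟩
  rcases lt_or_ge g w0 with h | h
  · exact .of_all fun G => tz g h G ▸ z1_top
  · exact (po g h).imp fun G h => h.zok.1

end Pool.Agent.MP_5baa61_gt.JC
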