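import Pool.Agent.MP_5baa61_gt.JC.Ps

/-! The two halves of a step of the run, for names. -/

namespace Pool.Agent.MP_5baa61_gt.JC

open Set Pool.Agent.MP_5baa61_gt.JA Pool.Agent.MP_5baa61_gt.JK Pool.Agent.MP_5baa61_gt.JB
open Pool.Agent.MP_b60a07_lc.H92 (U Rl)
open scoped Classical

/-- The case distinction is the one of cell systems and lists. -/
structure IsPar (P : Par (Lam × Lst × (Cell → Prop)) Lst) : Prop where
  ok : ∀ ν β, P.ok ν β ↔ CS β.1 ∧ On β.1 β.2.2 ∧ IsL β.2.1 ∧ Adm ν (nuL β.1 β.2.1)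
  n1 : P.n1 = fun β => nuL β.1 β.2.1
  sub : ∀ β u, P.sub β u ↔ IsL u ∧ ∀ l p, u l p → β.2.1 l p
  n2 : P.n2 = fun β u => nuL β.1 u
  m2 : P.m2 = fun β u => muL β.1 u

theorem adm_tr {ν0 ν1 ν2 : Nu} (h : Adm ν0 ν1) (h' : Adm ν1 ν2) : Adm ν0 ν2 := fun c =>
  let ⟨c1, g1⟩ := h c; let ⟨c2, g2⟩ := h' c1
  ⟨c2, fun x hx => let ⟨y, y1, y2⟩ := g2 x hx; let ⟨w, w1, w2⟩ := g1 y y2; ⟨w, w1.trans y1, w2⟩⟩

theorem adm_lamG' {lam : Lam} {UU : Lst} {H : Hs} (hl : CS lam) (hU : IsL UU) (W : Lst) :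
    Adm (nuL lam UU) (nuL (lamG lam UU H) W) := fun c => ⟨c, fun x ⟨s, h1, _⟩ => by
  obtain ⟨_, _, J, _, h2⟩ := mod_offer h1
  obtain ⟨h3, τ, h4, h5⟩ := h1.2.2.1 J h2
  exact ⟨τ.2, h5, τ.1, h4.1.1.both hl h3 (by
    have := Nat.mul_le_mul_left (c + 1) (RR_pos J.1); omega),
    fun u hu => hU.le (h4.1.2.1 u hu) h3⟩⟩

theorem rl_true (lam : Lam) : rl lam (fun _ => True) = lam := by
  funext J x l; simp only [rl, and_true]

variable {P : Par (Lam × Lst × (Cell → Prop)) Lst} {b : Rl} [PO b] {p : U}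
  {θ : Tg (Lam × Lst × (Cell → Prop))}

theorem base_ex (h : NS P b p θ) (hP : IsPar P) :
    ∃ (ν0 : Set U → Nu) (β β0 : Set U → Lam × Lst × (Cell → Prop)), NB b ν0 ∧ NB b β ∧ NB b β0 ∧
      Fc b p fun G => θ.Reg ν0 G ∧ P.ok (ν0 G) (β G) ∧ (θ.One G → ∀ e, (β G).2.2 (e, e + 1)) ∧
        (¬ θ.One G → θ.Two β0 G ∧ β0 G = β G) ∧ θ.Comp (fun G => nuL (β G).1 (β G).2.1) G := by
  obtain ⟨ν0, β0, n1, n2, h1⟩ : ∃ (ν0 : Set U → Nu) (β0 : Set U → Lam × Lst × (Cell → Prop)), _ :=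
    h.start
  obtain ⟨o, eo⟩ : ∃ o : Set U → Prop, o = θ.One := ⟨_, rfl⟩
  have m0 : Measurable (α := Lc b) o := eo ▸ h.nb_One
  have m1 := NB.ms n1; have m2 := NB.ms n2
  have n3 : NB b fun G => if o G then (lamT, UUE (ν0 G), PiT) else β0 G :=
    nb_of (Measurable.ite (measurableSet_setOfPred.2 m0) (by fun_prop) m2)
  have m3 := NB.ms n3
  have n4 : NB b fun G => nuL (if o G then (lamT, UUE (ν0 G), PiT) else β0 G).1
    (if o G then (lamT, UUE (ν0 G), PiT) else β0 G).2.1 := nb_of (m_nuL m3.fst m3.snd.fst)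
  refine ⟨ν0, _, β0, n1, n3, n2, (((h1.and (base_one h n1)).and (comp_mono h (ν := fun G =>
    nuL lamT (UUE (ν0 G))) (nb_of (by fun_prop)) n4)).and (comp_mono h (ν := fun G =>
      nuL (β0 G).1 (β0 G).2.1) (nb_of (by fun_prop)) n4)).imp
        fun G ⟨⟨⟨⟨a1, a2, a3, a4⟩, a5⟩, a6⟩, a7⟩ => ?_⟩
  rw [← eo] at a4 ⊢
  rw [hP.n1] at a4
  by_cases ho : o G
  · simp only [if_pos ho] at a6 ⊢
    exact ⟨a1, (hP.ok _ _).2 ⟨cs_lamT, on_lamT, isL_UUE a2, adm_of_sub a2 fun _ _ => id⟩,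
      fun _ _ => rfl, fun h => absurd ho h, a6 (a5 a2 a3) fun _ => id⟩
  · simp only [if_neg ho] at a7 ⊢
    obtain ⟨a8, a9, a10⟩ := a4.resolve_left ho
    exact ⟨a1, a9, fun h => absurd h ho, fun _ => ⟨a8, trivial⟩, a7 a10 fun _ => id⟩

theorem half (h : NS P b p θ) (hP : IsPar P) {ν0 : Set U → Nu} {lam : Set U → Lam}
    {UU : Set U → Lst} {β0 : Set U → Lam × Lst × (Cell → Prop)} {H : Set U → Hs} {V : Set U → Vf}
    (n0 : NB b ν0) (n1 : NB b lam) (n2 : NB b UU) (n3 : NB b β0) (n4 : NB b H) (n5 : NB b V)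
    (hV : ∀ G, Fm (V G))
    (H0 : Fc b p fun G => θ.Reg ν0 G ∧ CS (lam G) ∧ IsL (UU G) ∧ Adm (ν0 G) (nuL (lam G) (UU G)) ∧
      GH (H G) ∧ (¬ θ.One G → θ.Two β0 G ∧ (β0 G).1 = lam G ∧ (β0 G).2.1 = UU G)) :
    ∃ (K Kp : Set U → Sn) (Pg : Set U → Cell → Prop) (UI : Set U → Lst),
      NB b K ∧ NB b Kp ∧ NB b Pg ∧ NB b UI ∧ Fc b p fun G =>
        θ.Comp (fun G => nuL (lamG (lam G) (UU G) (H G)) (VL (V G))) G →
          θ.Comp (fun G => nuL (lam G) (capLL (HH (UU G) (H G)) (Prom (H G) (V G) (K G)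
            fun l q => θ.One G → YI (Pg G) (UI G) l q))) G ∧
          (θ.One G → θ.NHit (fun G => muL (rl (lamG (lam G) (UU G) (H G)) (Pg G)) (UI G)) G) ∧
          (¬ θ.One G → θ.Plus K Kp G ∧ θ.II Kp G) := by
  obtain ⟨o, eo⟩ : ∃ o : Set U → Prop, o = θ.One := ⟨_, rfl⟩
  have m0 : Measurable (α := Lc b) o := eo ▸ h.nb_One
  have m1 := NB.ms n1; have m2 := NB.ms n2; have m3 := NB.ms n3; have m4 := NB.ms n4
  have m5 := NB.ms n5
  have nL : NB b fun G => lamG (lam G) (UU G) (H G) := nb_of (by fun_prop)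
  have nV : NB b fun G => VL (V G) := nb_of (by fun_prop)
  have nF : NB b fun G => nuL (lamG (lam G) (UU G) (H G)) (VL (V G)) := nb_of (by fun_prop)
  obtain ⟨Pg, p1, p2⟩ := wlog_pi h n0 nL nV (h.nb_Comp nF) (H0.imp fun G a hf =>
    ⟨a.1, cs_lamG a.2.1 a.2.2.1 a.2.2.2.2.1, isL_VL (hV G),
      adm_tr a.2.2.2.1 (adm_lamG' a.2.1 a.2.2.1 _), hf⟩)
  have m6 := NB.ms p1
  obtain ⟨UI, u1, u2⟩ : ∃ UI : Set U → Lst, _ := h.one (β := fun G =>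
    (rl (lamG (lam G) (UU G) (H G)) (Pg G), VL (V G), Pg G)) n0 (nb_of (by fun_prop))
  have m7 := NB.ms u1
  have mY : Measurable (α := Lc b) fun G l q => o G → YI (Pg G) (UI G) l q := by
    have : Measurable (α := Lc b) fun G => YI (Pg G) (UI G) := by fun_prop
    fun_prop
  have nW : NB b fun G => capLL (HH (UU G) (H G)) (Prom (H G) (V G) (fun _ => True)
    fun l q => o G → YI (Pg G) (UI G) l q) := nb_of (by fun_prop)
  have m8 := NB.ms nW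
  have nμ : NB b fun G => muL (β0 G).1 (capLL (HH (UU G) (H G)) (Prom (H G) (V G) (fun _ => True)
    fun l q => o G → YI (Pg G) (UI G) l q)) := nb_of (m_muL m3.fst m8)
  obtain ⟨K, k1, k2⟩ : ∃ K : Set U → Sn, _ := h.hit nμ
  have m9 := NB.ms k1
  have nK : NB b fun G e => o G ∨ K G e := nb_of (by fun_prop)
  have m10 := NB.ms nK
  obtain ⟨Kp, q1, q2⟩ : ∃ K : Set U → Sn, _ := h.plus nK
  have nR : NB b fun G => nuL (lam G) (capLL (HH (UU G) (H G)) (Prom (H G) (V G)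
    (fun e => o G ∨ K G e) fun l q => o G → YI (Pg G) (UI G) l q)) := nb_of (by fun_prop)
  have c1 := comp_mono h (ν := fun G => nuL (rl (lamG (lam G) (UU G) (H G)) (Pg G)) (UI G))
    (nb_of (by fun_prop)) nR
  have c2 := comp_mono h nF (nb_of (m_nuL m3.fst m8))
  have c3 := comp_mono h (nb_of (m_sec (NB.ms nμ) m9)) nR
  have c4 := h.two n3 nW
  rw [hP.n2, hP.m2] at u2 c4
  rw [hP.n1] at u2
  subst eo
  refine ⟨_, Kp, Pg, UI, nK, q1, p1, u1, ((((H0.and p2).and (u2.and k2)).and ((q2.and c1).and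
    (c2.and c3))).and (c4.and (h.cg_Conv k1 nK))).imp fun G ⟨⟨⟨⟨⟨a1, a2, a3, a4, a5, a6⟩, a7⟩, a8,
      a9⟩, ⟨a10, a11⟩, a12, a13⟩, a14, a15⟩ hf => ?_⟩
  by_cases ho : θ.One G
  · obtain ⟨d1, d2, d3⟩ := a8 ho a1 ((hP.ok _ _).2 ⟨cs_rl (cs_lamG a2 a3 a5) _, (a7 hf).1,
      isL_VL (hV G), adm_of_le nuL_rl (adm_tr a4 (adm_lamG' a2 a3 _))⟩) (a7 hf).2
    obtain ⟨d4, d5⟩ := (hP.sub _ _).1 d1
    refine ⟨a11 d2 fun A hA => prom_core a2 a3 a5 (hV G) d4 d5 ?_, fun _ => d3,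
      fun h => absurd ho h⟩
    simpa only [ho, true_or, forall_true_left] using hA
  · obtain ⟨d1, d2, d3⟩ := a6 ho
    have d4 := isL_HH a3 a5
    obtain ⟨d5, d6⟩ := a9 (a14 d1 ((hP.sub _ _).2 ⟨d4.capLL (isL_prom (hV G) _ _),
      fun l q hq => d3 ▸ hq.1.1⟩) (a12 hf fun A hA => by
        rw [← rl_true (lamG _ _ _)]
        exact prom_core a2 a3 a5 (hV G) (isL_VL (hV G)) (fun _ _ => id) (null_of_le (fun c x hx =>
          d2 ▸ hx.mono fun l q hq => ⟨hq.1, prom_mono (fun _ _ _ h => absurd h ho) hq.2⟩) hA)))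
    have e : K G = fun e => θ.One G ∨ K G e := by simp only [ho, false_or]
    exact ⟨a13 d6 fun A => null_of_le fun c x hx => e ▸ hit_core a2 a5 d4 c x (d2 ▸ hx),
      fun h => absurd h ho, fun _ => a10 (a15 e d5)⟩

/-- The second half: the side set. -/
theorem half2 (h : NS P b p θ) {ν0 : Set U → Nu} {lam : Set U → Lam} {Pi : Set U → Cell → Prop}
    {W : Set U → Lst} {X : Set U → Move → Prop} {Kp : Set U → Sn} {f : Set U → Prop} (a : ℕ)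
    (n0 : NB b ν0) (n1 : NB b lam) (n2 : NB b Pi) (n3 : NB b W) (n4 : NB b X) (n5 : NB b Kp)
    (n6 : NB b f) (H0 : Fc b p fun G => (θ.Reg ν0 G ∧ CS (lam G) ∧ On (lam G) (Pi G) ∧ IsL (W G) ∧
      Adm (ν0 G) (nuL (lam G) (W G)) ∧ θ.Comp (fun G => nuL (lam G) (W G)) G) ∧
        (f G → θ.II Kp G)) :
    ∃ (A : Set U → Sn) (tl : Set U → Prop), NB b A ∧ NB b tl ∧ Fc b p fun G =>
      θ.Comp (fun G => nuL (lam G) (capL (W G) fun q => (tl G → TLp a (X G) q) ∧ InP (A G) q)) G ∧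
        (¬ tl G → ∀ u, X G u → ¬ Legal (Pi G) a (A G) u) ∧ (f G → ∀ e, A G e → ¬ Kp G e) := by
  obtain ⟨A, tl, t1, t2, t3⟩ := step_tlk h n0 n1 n2 n3 (nb_const a) n4 (H0.imp fun _ h => h.1)
  have m1 := NB.ms n1; have m3 := NB.ms n3; have m4 := NB.ms n4; have m5 := NB.ms n5
  have m6 := NB.ms n6; have m7 := NB.ms t1; have m8 := NB.ms t2
  have nK : NB b fun G e => f G ∧ Kp G e := nb_of (by fun_prop)
  have nA : NB b fun G e => A G e ∧ ¬ (f G ∧ Kp G e) := nb_of (by fun_prop)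
  have mT : Measurable (α := Lc b) fun G => TLp a (X G) := by fun_prop
  have mI := m_InP (NB.ms nA)
  refine ⟨_, tl, nA, t2, (((H0.and t3).and ((h.union n5 n5 nK).and (h.fin nK))).and (comp_of h
    (ν := fun G => rsn (nuL (lam G) (capL (W G) fun q => tl G → TLp a (X G) q)) (A G))
    (ν' := fun G => nuL (lam G) (capL (W G) fun q => (tl G → TLp a (X G) q) ∧
      InP (fun e => A G e ∧ ¬ (f G ∧ Kp G e)) q)) (nb_of (by fun_prop)) (nb_of (by fun_prop))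
      nK)).imp fun G ⟨⟨⟨⟨_, a1⟩, a2, a3⟩, a4, a5⟩, a6⟩ => ⟨a6 a2 ?_ fun B ⟨c, hc⟩ => ⟨c, ?_⟩,
        fun ht u hu hl => a3 ht u hu (legal_mono (fun _ h => h.1) hl),
        fun hf e he hk => he.2 ⟨hf, hk⟩⟩⟩
  · by_cases hf : f G
    · exact a4 (a1 hf) (a1 hf) fun _ h => .inl h.2
    · exact a5 fun h => let ⟨_, _, h⟩ := h 0; hf h.1
  · rintro x ⟨⟨s, d1, d2⟩, d3⟩
    by_contra hn
    push Not at hn
    obtain ⟨i, d4, d5⟩ := hc x ⟨s, d1, fun u hu => ⟨(d2 u hu).1, (d2 u hu).2,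
      meets_inp (σ := (s, x)) d1.1 (fun i hi => ⟨d3 i hi, fun h => (hn i hi).2 h.1 h.2⟩) u hu⟩⟩
    exact d5 (hn i d4).1

/-- Separating sets for the diagonal norm. -/
theorem half3 (h : NS P b p θ) {ν0 : Set U → Nu} {lam : Set U → Lam} {UU : Set U → Lst}
    {H : Set U → Hs} (n0 : NB b ν0) (n1 : NB b lam) (n2 : NB b UU) (n4 : NB b H) :
    ∃ N : Set U → ℕ → Sn, NB b N ∧ Fc b p fun G => θ.Reg ν0 G → CS (lam G) → IsL (UU G) →
      Adm (ν0 G) (nuL (lam G) (UU G)) → Gd (H G) → Coh (H G) →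
      θ.Comp (fun G => nuL (lam G) (HH (UU G) (H G))) G →
        θ.Sep (fun G => nuD (lam G) (UU G) (H G)) N G ∧
          ∀ m, ¬ Null (nuD (lam G) (UU G) (H G)) (N G m) := by
  have m1 := NB.ms n1; have m2 := NB.ms n2; have m4 := NB.ms n4
  have nD : NB b fun G => nuD (lam G) (UU G) (H G) := nb_of (by fun_prop)
  obtain ⟨N, r1, r2⟩ := sep_ex h n0 nD
  exact ⟨N, r1, (r2.and (comp_mono h (ν := fun G => nuL (lam G) (HH (UU G) (H G)))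
    (nb_of (by fun_prop)) nD)).imp fun G ⟨a1, a2⟩ c1 c2 c3 c4 c5 c6 c7 =>
      a1 c1 (norm_nuD c2 c3 c5.gh) (adm_of_le nuD_le c4)
        (a2 c7 fun _ => (coh_ok _ _ _ c2 c3 c5 c6).null)⟩

theorem isPar : IsPar par := ⟨fun _ _ => Iff.rfl, rfl, fun _ _ => Iff.rfl, rfl, rfl⟩

theorem base_g : S_base := fun _ _ _ _ h =>
  let ⟨ν0, β, β0, n1, n2, n3, h1⟩ := base_ex h isPar
  ⟨ν0, β, β0, n1, n2, n3, h1.imp fun _ a => ⟨⟨a.1, a.2.1, a.2.2.1, a.2.2.2.1⟩, a.2.2.2.2⟩⟩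

theorem half_g : S_half := fun b _ p θ ν0 β β0 H V h n0 n1 n2 n3 n4 hV H0 => by
  have m1 := NB.ms n1; have m3 := NB.ms n3
  obtain ⟨K, Kp, Pg, UI, k1, k2, k3, k4, k5⟩ := half h isPar (lam := fun G => (β G).1)
    (UU := fun G => (β G).2.1) n0 (nb_of m1.fst) (nb_of m1.snd.fst) n2 n3 n4 hV
    (H0.imp fun G a => ⟨a.1.reg, a.1.ok.1, a.1.ok.2.2.1, a.1.ok.2.2.2, a.2.gd.gh, fun ho =>
      ⟨(a.1.two ho).1, by rw [(a.1.two ho).2], by rw [(a.1.two ho).2]⟩⟩)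
  have m5 := m_YI (NB.ms k3) (NB.ms k4)
  refine ⟨K, Kp, fun G l q => θ.One G → YI (Pg G) (UI G) l q, _, k1, k2,
    nb_pi fun l => nb_pi fun q => h.nb_One.imp (nb_of (m5.eval.eval)),
    nb_of (m_muL (m_rl (m_lamG m1.fst m1.snd.fst m3) (NB.ms k3)) (NB.ms k4)),
    k5.imp fun G a hf => ⟨(a hf).1, fun ho => ⟨(a hf).2.1 ho, ?_⟩, (a hf).2.2⟩⟩
  simpa only [ho, forall_true_left] using hm_ok _ _ _ _ _

theorem step_g : S_step := fun b _ p θ ν0 β β0 H V a X h n0 n1 n2 n3 n4 n5 hV H0 => by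
  obtain ⟨K, Kp, Y, μ, k1, k2, k3, k4, k5⟩ := half_g b p θ ν0 β β0 H V h n0 n1 n2 n3 n4 hV H0
  obtain ⟨o, eo⟩ : ∃ o : Set U → Prop, o = θ.One := ⟨_, rfl⟩
  obtain ⟨f, ef⟩ : ∃ f : Set U → Prop, f = Fg θ β H V := ⟨_, rfl⟩
  have m0 : Measurable (α := Lc b) o := eo ▸ h.nb_One
  have m1 := NB.ms n1; have m3 := NB.ms n3; have m4 := NB.ms n4; have m5 := NB.ms n5
  have m6 := NB.ms k1; have m7 := NB.ms k3
  have mf : Measurable (α := Lc b) f := ef ▸ h.nb_Comp (nb_of (by fun_prop))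
  have mP := m_Prom m3 m4 m6 m7
  have nW : NB b fun G => capLL (HH (β G).2.1 (H G)) fun l q =>
    f G → Prom (H G) (V G) (K G) (Y G) l q := nb_of (by fun_prop)
  have nν := nb_of (m_nuL m1.fst (NB.ms nW))
  obtain ⟨N, r1, r2⟩ := half3 h n0 (nb_of m1.fst) (nb_of m1.snd.fst) n3
  have m8 := NB.ms r1
  have c1 := comp_mono h (ν := fun G => nuL (β G).1 (PL (β G).2.1 (H G) (V G) (K G) (Y G)))
    (nb_of (by fun_prop)) nν
  have c2 := comp_mono h (ν := fun G => nuL (β G).1 (HH (β G).2.1 (H G))) (nb_of (by fun_prop)) nν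
  rw [← eo, ← ef] at k5
  obtain ⟨A, tl, t1, t2, t3⟩ := half2 h (f := fun G => ¬ o G ∧ f G) a n0 (nb_of m1.fst)
    (nb_of m1.snd.snd) nW n5 k2 (nb_of (by fun_prop)) (((H0.and k5).and (c1.and c2)).imp
      fun G ⟨⟨⟨a1, a2⟩, a3⟩, a4, a5⟩ => ⟨⟨a1.reg, a1.ok.1, a1.ok.2.1,
        (isL_HH a1.ok.2.2.1 a2.gd.gh).capLL ⟨fun l p q hp e hf =>
          (isL_prom (hV G) _ _).req l p q (hp hf) e, fun l p hp hf =>
            (isL_prom (hV G) _ _).anti l p (hp hf)⟩,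
        adm_of_le (fun _ _ hx => hx.mono fun _ _ h => h.1.1) a1.ok.2.2.2, (em (f G)).elim
          (fun hf => a4 (a3 hf).1 fun _ => null_of_le fun _ _ hx =>
            hx.mono fun _ _ h => ⟨h.1, fun _ => h.2⟩)
          fun hf => a5 a2.cmp fun _ => null_of_le fun _ _ hx =>
            hx.mono fun _ _ h => ⟨h, fun h => absurd h hf⟩⟩, fun hf => ((a3 hf.2).2.2 hf.1).2⟩)
  have mD := m_nuD m1.fst m1.snd.fst m3
  have nz : NB b fun G => mkZ (H G) (V G) a (X G) (f G) (tl G) (A G) (K G) (Y G) fun m l c =>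
      o G → nuD (β G).1 (β G).2.1 (H G) l c ∧ ∀ e ∈ c, N G m e :=
    nb_of (m_mkZ m3 m4 measurable_const m5 mf t2 t1 m6 m7 (by fun_prop))
  have mT : Measurable (α := Lc b) fun G => TLp a (X G) := by fun_prop
  have mI := m_InP (NB.ms t1)
  have m9 := NB.ms t2
  have c3 := comp_mono h (ν := fun G => nuL (β G).1 (capL (capLL (HH (β G).2.1 (H G)) fun l q =>
      f G → Prom (H G) (V G) (K G) (Y G) l q) fun q => (tl G → TLp a (X G) q) ∧ InP (A G) q))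
    (nb_of (m_nuL m1.fst (m_capL (NB.ms nW) (by fun_prop))))
    (nb_of (m_nuL m1.fst (m_HP m1.snd.fst m3 (NB.ms nz))))
  refine ⟨_, Kp, μ, N, nz, k2, k4, r1, (((H0.and k5).and (r2.and t3)).and c3).imp
    fun G ⟨⟨⟨⟨a1, a2⟩, a3⟩, a4, a5, a6, a7⟩, a8⟩ => ?_⟩
  obtain ⟨a9, a10⟩ := a4 a1.reg a1.ok.1 a1.ok.2.2.1 a1.ok.2.2.2 a2.gd a2.coh a2.cmp
  subst eo ef
  refine ⟨zok_mkZ a2.gd (hV G) _ _ _ _ _ _, a8 a5 fun _ => null_of_le fun _ _ hx =>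
    hx.mono fun _ _ h => ⟨h.1.1, h.1.2, h.2⟩, ?_, fun hf _ _ h => h.1 hf, ?_,
    fun ho hf => (a3 hf).2.1 ho, fun ho => ⟨a9, fun _ _ _ h => h ho⟩,
    fun ho hf => ⟨((a3 hf).2.2 ho).1, a7 ⟨ho, hf⟩⟩⟩
  · exact (em (tl G)).imp (fun ht _ _ h => h.2.1 ht) a6
  · by_cases ho : θ.One G
    · exact ps4_ok _ _ _ _ _ _ a1.ok.1 a1.ok.2.2.1 a2.gd (a1.one ho) a10 fun _ _ _ h1 h2 _ => ⟨h1, h2⟩
    · exact ps4_empty fun _ _ h => absurd h ho

end Pool.Agent.MP_5baa61_gt.JC
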