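import Pool.Agent.MP_5baa61_gt.JC.Base
import Pool.Agent.MP_5baa61_gt.JK.Club

/-! The rank lemma for names. -/

namespace Pool.Agent.MP_5baa61_gt.JC

open Set Pool.Agent.MP_5baa61_gt.JA Pool.Agent.MP_5baa61_gt.JK Pool.Agent.MP_b60a07_lc.H92
open scoped Classical

/-- No finite set of norm `c` lies inside `N`. -/
def NullAt (ν : Nu) (c : ℕ) (N : Sn) : Prop := ∀ x, ν c x → ∃ i ∈ x, ¬ N i

theorem NullAt.mono {ν : Nu} {c : ℕ} {A B : Sn} (h : NullAt ν c B) (e : ∀ i, A i → B i) :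
    NullAt ν c A := fun x hx => let ⟨i, h1, h2⟩ := h x hx; ⟨i, h1, fun h => h2 (e i h)⟩

theorem NullAt.le {ν : Nu} (hn : Norm ν) {c c' : ℕ} {A : Sn} (h : NullAt ν c A) (e : c ≤ c') :
    NullAt ν c' A := fun x hx => h x (hn.le hx e)

@[fun_prop] theorem m_NullAt {Z : Type*} [MeasurableSpace Z] {ν : Z → Nu} {A : Z → Sn}
    (h : Measurable ν) (h' : Measurable A) (c : ℕ) : Measurable fun z => NullAt (ν z) c (A z) := by
  unfold NullAt; fun_prop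

/-- Large subsets outside small sets are found below a bound. -/
theorem tool {ν : Nu} (hn : Norm ν) {N : Sn} (h : ¬ Null ν N) (c m : ℕ) : ∃ x : Finset ℕ,
    ∀ K : Sn, NullAt ν c (fun e => N e ∧ K e) → ∃ y, y ⊆ x ∧ ν m y ∧ ∀ e ∈ y, N e ∧ ¬ K e := by
  obtain ⟨x, h1, h2⟩ := not_null.1 h (max c m + 1)
  refine ⟨x, fun K hK => ?_⟩
  obtain ⟨y, h3, h4, h5 | h5⟩ := hn.split _ x h1 (x.filter K)
  · obtain ⟨i, h6, h7⟩ := hK y (hn.le h4 (le_max_left _ _))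
    exact absurd ⟨h2 i (h3 h6), (Finset.mem_filter.1 (h5 i h6)).2⟩ h7
  · exact ⟨y, h3, hn.le h4 (le_max_right _ _), fun e he =>
      ⟨h2 e (h3 he), fun hk => h5 e he (Finset.mem_filter.2 ⟨h3 he, hk⟩)⟩⟩

variable {B L : Type} [MeasurableSpace B] [MeasurableSpace L] {P : Par B L} {b : Rl} [PO b]
  {p : U} {θ : Tg B}

/-- A separating sequence is read on a stationary class. -/
theorem sep_sf (h : NS P b p θ) {ν K : Od → Set U → _} {N : Od → Set U → ℕ → Sn}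
    {Q : Od → Set U → Prop} (n1 : ∀ g, NB b (ν g : Set U → Nu)) (n2 : ∀ g, NB b (N g))
    (n3 : ∀ g, NB b (K g : Set U → Sn))
    (hs : SF b p fun g G => Q g G ∧ θ.Sep (ν g) (N g) G ∧ θ.II (K g) G) : ∃ m c : ℕ,
    SF b p fun g G => Q g G ∧ NullAt (ν g G) c fun e => N g G m e ∧ K g G e := by
  obtain ⟨i, hi⟩ := SF.fiber (P := Q)
    (R := fun g (i : ℕ × ℕ) G => NullAt (ν g G) i.2 fun e => N g G i.1 e ∧ K g G e)
    ((hs.and (club_of_all fun g => h.sep_elim (n1 g) (n2 g) (n3 g))).imp fun g G ⟨a1, a2⟩ =>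
      let ⟨m, c, a3⟩ := a2 a1.2.1 a1.2.2; ⟨a1.1, (m, c), a3⟩)
    fun g i => by
      have := NB.ms (n1 g); have := NB.ms (n2 g); have := NB.ms (n3 g)
      exact NB.dec (nb_of (by fun_prop))
  exact ⟨i.1, i.2, hi⟩

theorem rank_sf (h : NS P b p θ) {ν0 ν : Set U → Nu} {E : Set U → ℕ → Sn} {K : Od → Set U → Sn}
    {Q : Od → Set U → Prop} (n0 : NB b ν0) (n1 : NB b ν) (n2 : NB b E) (n3 : ∀ g, NB b (K g))
    (hs : SF b p fun g G => Q g G ∧ θ.Reg ν0 G ∧ Norm (ν G) ∧ Adm (ν0 G) (ν G) ∧ θ.II (K g) G) :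
    (∃ R : Set U → Sn, NB b R ∧ SF b p fun g G => Q g G ∧ θ.II R G ∧
      ∀ k, Null (ν G) fun e => E G k e ∧ ¬ R G e) ∨
    ∃ (N : Set U → Sn) (k c : ℕ), NB b N ∧ SF b p fun g G => Q g G ∧ ¬ Null (ν G) (N G) ∧
      (∀ e, N G e → E G k e) ∧ NullAt (ν G) c fun e => N G e ∧ K g G e := by
  obtain ⟨R, N, r1, r2, r3⟩ : ∃ (R : Set U → Sn) (N : Set U → ℕ → Sn), _ := h.rk n0 n1 n2
  have m1 := NB.ms n1; have m2 := NB.ms n2; have m3 := NB.ms r1; have m4 := NB.ms r2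
  rcases SF.or (P := fun g G => Q g G ∧ θ.II (K g) G)
    (Q := fun _ G => θ.II R G ∧ ∀ k, Null (ν G) fun e => E G k e ∧ ¬ R G e)
    ((hs.and (club_of_all fun _ => r3)).imp fun g G ⟨a1, a2⟩ =>
      ⟨⟨a1.1, a1.2.2.2.2⟩, a2 a1.2.1 a1.2.2.1 a1.2.2.2.1⟩)
    (fun _ => NB.dec ((h.nb_II r1).and (nb_of (by fun_prop)))) with h1 | h1
  · exact .inl ⟨R, r1, h1.imp fun _ _ a => ⟨a.1.1, a.2⟩⟩
  · obtain ⟨m, c, h2⟩ := sep_sf h (ν := fun _ => ν) (N := fun _ => N) (fun _ => n1) (fun _ => r2) n3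
      (Q := fun g G => Q g G ∧ ∀ m, ¬ Null (ν G) (N G m) ∧ ∃ k, ∀ e, N G m e → E G k e)
      (h1.imp fun _ _ a => ⟨⟨a.1.1, a.2.2⟩, a.2.1, a.1.2⟩)
    obtain ⟨k, h3⟩ := SF.fiber (P := fun g G => Q g G ∧ ¬ Null (ν G) (N G m) ∧
        NullAt (ν G) c fun e => N G m e ∧ K g G e) (R := fun _ (k : ℕ) G => ∀ e, N G m e → E G k e)
      (h2.imp fun _ _ a => ⟨⟨a.1.1, (a.1.2 m).1, a.2⟩, (a.1.2 m).2⟩)
      fun _ _ => NB.dec (nb_of (by fun_prop))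
    exact .inr ⟨fun G => N G m, k, c, nb_of (by fun_prop),
      h3.imp fun _ _ a => ⟨a.1.1, a.1.2.1, a.2, a.1.2.2⟩⟩

end Pool.Agent.MP_5baa61_gt.JC
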