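import Pool.Agent.MP_5baa61_gt.JC.Core
import Pool.Agent.MP_5baa61_gt.JC.Rank

/-! Long cells contain states that avoid a small set. -/

namespace Pool.Agent.MP_5baa61_gt.JC

open Set Pool.Agent.MP_5baa61_gt.JA Pool.Agent.MP_5baa61_gt.JK Pool.Agent.MP_5baa61_gt.JB
open scoped Classical

variable {lam : Lam} {UU : Lst} {H H' : Hs} {V : Vf} {N K : Sn} {l c a n : ℕ}

/-- A state inside `N` starts after `a` and ends well before `n`. -/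
def Far (lam : Lam) (UU : Lst) (H : Hs) (l : ℕ) (N : Sn) (c a n : ℕ) : Prop :=
  ∃ (σ : Sta) (b1 b2 : ℕ), StH lam UU H l (max a (c + 1)) (max (l * JA.RR a + 1) (c + 1) + 1) σ ∧
    (∀ e ∈ σ.2, N e) ∧ (∀ C ∈ σ.1.1, C.2 ≤ b1) ∧ a ≤ b1 ∧ Bd H l b1 b2 ∧ Bd H l b2 n

theorem Far.mono {n' : ℕ} (h : Far lam UU H l N c a n) (e : n ≤ n') : Far lam UU H l N c a n' :=
  let ⟨σ, b1, b2, h1, h2, h3, h4, h5, h6⟩ := h
  ⟨σ, b1, b2, h1, h2, h3, h4, h5, bd_le h6 le_rfl le_rfl e⟩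

theorem far_ex (hl : CS lam) (hU : IsL UU) (hH : GH H) (h : ¬ Null (nuZ lam UU H l) N) (c a : ℕ) :
    ∃ n, Far lam UU H l N c a n := by
  obtain ⟨x, ⟨s, h1⟩, h2⟩ := not_null.1 h (max (max a (c + 1)) (max (l * JA.RR a + 1) (c + 1)))
  obtain ⟨b2, h3⟩ := bd_ex H l (max a (s.1.sup Prod.snd))
  obtain ⟨n, h4⟩ := bd_ex H l b2
  exact ⟨n, (s, x), _, b2, h1.le hl hU hH le_rfl (by omega) (by omega), h2, fun C hC =>
    (Finset.le_sup (f := Prod.snd) hC).trans (le_max_right _ _), le_max_left _ _, h3, h4⟩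

theorem bd_hist {m : ℕ} (h : Bd H' l a m) (e : ∀ j < l, ∃ i < l, H j = H' i) : Bd H l a m :=
  ⟨h.1, fun j hj => let ⟨i, h1, h2⟩ := e j hj; h2 ▸ h.2 i h1⟩

theorem far_use (hl : CS lam) (hU : IsL UU) (hH : GH H') (e : ∀ j < l, ∃ i < l, H j = H' i)
    {J : Cell} (h : Far lam UU H' l N c J.1 n) (hn : n ≤ J.2)
    (hK : NullAt (nuZ lam UU H' l) c fun e => N e ∧ K e) :
    ∃ τ : Sta, (∀ e ∈ τ.2, N e ∧ ¬ K e ∧ J.1 ≤ e ∧ e < n) ∧ GJ lam UU H J l τ := by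
  obtain ⟨σ, b1, b2, h1, h2, h3, h4, h5, h6⟩ := h
  obtain ⟨τ, a1, a2, a3 | a3⟩ := h1.split hl hU hH (by omega) K
  · obtain ⟨i, a4, a5⟩ := hK τ.2 ⟨τ.1, a2.le hl hU hH le_rfl (le_max_right _ _) (le_max_right _ _)⟩
    exact absurd ⟨h2 i (a1.2 a4), a3 i a4⟩ a5
  · refine ⟨τ, fun i hi => ⟨h2 i (a1.2 hi), a3 i hi, ?_⟩,
      (a2.le hl hU hH le_rfl (le_max_left _ _) (le_max_left _ _)).sub_hist e, b1, b2, h4,
      fun C hC => h3 C (a1.1.1 hC), bd_hist h5 e, bd_le (bd_hist h6 e) le_rfl le_rfl hn⟩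
    obtain ⟨C, a4, a5⟩ := a2.1.2.2.2 i hi
    have := (a2.1.2.2.1 C a4).1
    have := h3 C (a1.1.1 a4)
    have := h5.1; have := h6.1; have := a5.1; have := a5.2
    omega

/-- States in the cells of a skeleton give a state of the derived system. -/
theorem mod_lamG {s : Sk} {τ : Cell → Sta} (h1 : SkWf s) (h2 : Un l l s) (h3 : ∀ J ∈ s.1, l ≤ J.1)
    (h4 : ∀ J ∈ s.1, GJ lam UU H J l (τ J)) :
    Mod (lamG lam UU H) l l (s, s.1.biUnion fun J => (τ J).2) :=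
  ⟨h1, h2, fun J hJ => ⟨h3 J hJ, τ J, h4 J hJ, Finset.subset_biUnion_of_mem (fun J => (τ J).2) hJ⟩,
    fun _ he => let ⟨J, a1, a2⟩ := Finset.mem_biUnion.1 he; ⟨J, a1, (h4 J a1).inC a2⟩⟩

theorem coreL (hl : CS lam) (hU : IsL UU) (hH : GH H') {h : ℕ → ℕ}
    (e : ∀ j < l + 1, ∃ i < l + 1, H j = H' i) (hV : Lng h V)
    (hF : ∀ a, Far lam UU H' (l + 1) N c a (h a))
    (hK : NullAt (nuZ lam UU H' (l + 1)) c fun e => N e ∧ K e) :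
    ¬ NullAt (nuL (lamG lam UU H) (VL V)) l fun e => ¬ K e := fun hn => by
  obtain ⟨s, ⟨h1, h2, h3, h4⟩, h5⟩ := hV (l + 1)
  choose! τ t1 t2 using fun J hJ => far_use hl hU hH e (hF J.1) (h5 J hJ).le hK
  obtain ⟨i, a1, a2⟩ := hn _ ⟨s, mod_lamG h1 h2 h3 t2, h4⟩
  obtain ⟨J, a3, a4⟩ := Finset.mem_biUnion.1 a1
  exact a2 (t1 J a3 i a4).2.1

theorem coreA (hl : CS lam) (hU : IsL UU) (hH : GH H') {h : ℕ → ℕ} {z : Zt} {K0 : Sn}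
    {D1 : ℕ → Sn} {D2 : ℕ → ℕ → Sn} {j0 j1 : ℕ} {Pg : Cell → Prop} {UI : Lst}
    (e : ∀ j < l + 1, ∃ i < l + 1, H j = H' i) (g : G2 D1 D2 z h)
    (hY : ∀ l p, z.Y l p → YI Pg UI l p)
    (hF : ∀ a, Far lam UU H' (l + 1) N c a (h a) ∧ ∃ e, a ≤ e ∧ e ≤ h a ∧ K0 e)
    (hK : NullAt (nuZ lam UU H' (l + 1)) c fun e => N e ∧ K e) (h0 : ∀ e, K0 e → D1 j0 e)
    (h1 : ∀ e, N e → D1 j1 e) :
    ¬ NullAt (sec (muL (rl (lamG lam UU H) Pg) UI) K0) l fun e => ¬ K e := fun hn => by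
  obtain ⟨L0, y, φ, ⟨-, -, g3, g4⟩, g5⟩ := g (max (l + 1) (max j0 j1 + 1))
  obtain ⟨s, s1, s2, s3, s4, s5⟩ := hY _ _ (g3 (l + 1) (le_max_left _ _))
  choose! τ t1 t2 using fun J (hJ : J ∈ s.1) => far_use hl hU hH e (hF J.1).1
    ((g5 J (s3 hJ)).le.trans (g4 J (s3 hJ)).2.2.1) hK
  choose k k1 k2 k3 using fun a => (hF a).2
  have a0 := mod_lamG s1 s2 (fun J hJ => (s4 J hJ).1) t2
  obtain ⟨i, a1, a2⟩ := hn (s.1.biUnion fun J => (τ J).2) ⟨s.1.image fun J => k J.1, fun i hi => by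
    obtain ⟨J, -, rfl⟩ := Finset.mem_image.1 hi
    exact k3 _, s, y, ⟨s1, s2, fun J hJ => ⟨(s4 J hJ).1, (a0.2.2.1 J hJ).2, (s4 J hJ).2⟩, a0.2.2.2⟩,
    fun i hi => by
      obtain ⟨J, a3, a4⟩ := Finset.mem_biUnion.1 hi
      obtain ⟨a5, -, a6, a7⟩ := t1 J a3 i a4
      exact (g4 J (s3 a3)).2.2.2.1 j1 (by omega) i ⟨a6, a7.trans (g5 J (s3 a3))⟩ (h1 i a5),
    s5, fun J hJ => ⟨k J.1, Finset.mem_image_of_mem _ hJ,
      (g4 J (s3 hJ)).2.2.2.1 j0 (by omega) _ ⟨k1 _, (k2 _).trans_lt (g5 J (s3 hJ))⟩ (h0 _ (k3 _)),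
      k1 _, ((k2 _).trans_lt (g5 J (s3 hJ))).trans_le (g4 J (s3 hJ)).2.2.1⟩⟩
  obtain ⟨J, a3, a4⟩ := Finset.mem_biUnion.1 a1
  exact a2 (t1 J a3 i a4).2.1

theorem coreB (hl : CS lam) (hU : IsL UU) (hH : GH H) {h : ℕ → ℕ} {z : Zt} {M : ℕ → Sn} {R : Sn}
    {D1 : ℕ → Sn} {D2 : ℕ → ℕ → Sn} {m j0 : ℕ} (e : ∀ j < l, ∃ i, H' j = H i) (g : G2 D1 D2 z h)
    (hL : ∀ m l c, z.Lu m l c → nuD lam UU H l c ∧ ∀ e ∈ c, M m e)
    (hc : ∀ a, NullAt (nuZ lam UU H' l) (h a) fun e => D2 j0 a e ∧ ¬ R e) :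
    ¬ Null (nuD lam UU H) fun e => M m e ∧ R e := fun ⟨c, hn⟩ => by
  choose! f hf using e
  obtain ⟨L0, y, φ, ⟨-, g2, -, g4⟩, g5⟩ :=
    g (max (max (c + 1) ((Finset.range l).sup f + 1)) (max m j0 + 1))
  obtain ⟨J, hJ⟩ := Finset.card_pos.1 (show 0 < L0.card by omega)
  obtain ⟨a1, a2, -, -, a3⟩ := g4 J hJ
  have a4 := g5 J hJ
  obtain ⟨x, a5, a6⟩ := (a3 j0 (by omega) J.1 ⟨le_rfl, a2⟩).2 m (by omega)
  obtain ⟨⟨s, a7⟩, a8⟩ := hL _ _ _ (a5 _ le_rfl)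
  obtain ⟨τ, b1, b2, b3 | b3⟩ := a7.split hl hU hH (by omega) R
  · obtain ⟨i, b4, b5⟩ := hn τ.2 ⟨τ.1, b2.le hl hU hH (by omega) (by omega) (by omega)⟩
    exact b5 ⟨a8 i (b1.2 b4), b3 i b4⟩
  · obtain ⟨i, b4, b5⟩ := hc J.1 τ.2 ⟨τ.1, (b2.le hl hU hH le_rfl (by omega) (by omega)).sub_hist
      fun j hj => ⟨f j, by
        have := Finset.le_sup (f := f) (Finset.mem_range.2 hj); omega, hf j hj⟩⟩
    exact b5 ⟨a6 i (b1.2 b4), b3 i b4⟩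

section
variable {Z : Type*} [MeasurableSpace Z] {lam : Z → Lam} {UU : Z → Lst} {H : Z → Hs} {K : Z → Sn}

theorem m_Far (h1 : Measurable lam) (h2 : Measurable UU) (h : Measurable H) (h3 : Measurable K)
    (l c a n : ℕ) : Measurable fun z => Far (lam z) (UU z) (H z) l (K z) c a n := by
  have : ∀ {a : Z → ℕ}, Measurable a → ∀ n, Measurable fun z => a z < n := fun h n =>
    (Measurable.of_discrete (f := fun m => m < n)).comp h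
  unfold Far StH Bd BB RQ Meets
  fun_prop

end

end Pool.Agent.MP_5baa61_gt.JC
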