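import Pool.Agent.MP_5baa61_gt.JC.Spec
import Pool.Agent.MP_5baa61_gt.JC.Far

/-! The plain cores of the two contradictions. -/

namespace Pool.Agent.MP_5baa61_gt.JC

open Set Pool.Agent.MP_5baa61_gt.JA Pool.Agent.MP_5baa61_gt.JK Pool.Agent.MP_5baa61_gt.JB
open scoped Classical

theorem Inc.symm' {H H' : Hs} {l l' : ℕ} (h : Inc H l H' l') : ∀ j < l, ∃ i < l', H j = H' i :=
  fun j hj => let ⟨i, h1, h2⟩ := h j hj; ⟨i, h1, h2.symm⟩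

theorem tool_ok : S_tool := fun _ _ _ _ _ c hl hU hg =>
  ⟨fun h a => far_ex hl hU hg.gh h c a, fun _ _ _ h hn hK =>
    far_use hl hU hg.gh (fun j hj => ⟨j, hj, rfl⟩) h hn hK⟩

theorem core_l : S_coreL := fun _ _ _ _ _ _ _ _ _ _ hl hU hg e hV hF hK =>
  coreL hl hU hg.gh e.symm' hV hF hK

theorem core_a : S_coreA := by
  intro lam UU H H' z μ N K0 K D1 D2 h l c j0 j1 hl hU hg e g hY hF hK h0 h1 hn
  obtain ⟨L0, y, φ, ⟨-, -, g3, g4⟩, g5⟩ := g (max (l + 1) (max j0 j1 + 1))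
  choose! τ t1 t2 using fun J (hJ : J ∈ L0) => far_use hl hU hg.gh e.symm' (n := h J.1)
    (let ⟨_, a1, a2⟩ := (hF J.1).1; Far.mono a2 a1) ((g5 J hJ).le.trans (g4 J hJ).2.2.1) hK
  choose k k1 k2 k3 using fun a => (hF a).2
  obtain ⟨x, x1, x2⟩ := hY l L0 y (L0.image fun J => k J.1) (L0.biUnion fun J => (τ J).2)
    (g3 (l + 1) (le_max_left _ _)) (fun i hi => by
      obtain ⟨J, a3, a4⟩ := Finset.mem_biUnion.1 hi
      obtain ⟨a5, -, a6, a7⟩ := t1 J a3 i a4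
      exact (g4 J a3).2.2.2.1 j1 (by omega) i ⟨a6, a7.trans (g5 J a3)⟩ (h1 i a5))
    fun J hJ => ⟨⟨k J.1, (g4 J hJ).2.2.2.1 j0 (by omega) _ ⟨k1 _, (k2 _).trans (g5 J hJ)⟩
      (h0 _ (k3 _)), ⟨k1 _, ((k2 _).trans (g5 J hJ)).trans_le (g4 J hJ).2.2.1⟩,
      Finset.mem_image_of_mem _ hJ⟩, τ J, Finset.subset_biUnion_of_mem (fun J => (τ J).2) hJ, t2 J hJ⟩
  obtain ⟨i, a1, a2⟩ := hn x ⟨_, fun i hi => by
    obtain ⟨J, -, rfl⟩ := Finset.mem_image.1 hi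
    exact k3 _, x2⟩
  obtain ⟨J, a3, a4⟩ := Finset.mem_biUnion.1 (x1 a1)
  exact a2 (t1 J a3 i a4).2.1

theorem core_b : S_coreB := fun _ _ _ _ _ _ _ _ _ _ _ _ _ hl hU hg e g hL hc =>
  coreB hl hU hg.gh (fun j hj => (e j hj).imp fun _ a => a.symm) g hL fun a x ⟨s, hx⟩ =>
    let ⟨_, a1, a2⟩ := hc a
    a2 x ⟨s, ⟨hx.1.both hl (by omega) (by omega), fun u hu => hU.le (hx.2.1 u hu) (by omega), by
      obtain ⟨-, -, m0, b1, b2, b3⟩ := hx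
      refine ⟨m0, bd_le b1 le_rfl (by omega) le_rfl, b2, fun u hu j hj => ⟨?_, (b3 u hu j hj).2⟩⟩
      obtain ⟨i, hi⟩ := e j hj
      exact hi ▸ (hg i).1.le (hi ▸ (b3 u hu j hj).1) (by omega)⟩⟩

end Pool.Agent.MP_5baa61_gt.JC
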