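import Pool.Agent.MP_5baa61_gt.JC.Main
import Pool.Agent.MP_5baa61_gt.JC.StepG
import Pool.Agent.MP_5baa61_gt.JC.Run
import Pool.Agent.MP_5baa61_gt.JC.Flag
import Pool.Agent.MP_5baa61_gt.JC.K1
import Pool.Agent.MP_5baa61_gt.JC.Tool
import Pool.Agent.MP_5baa61_gt.JB.All

/-! Part C without hypotheses. -/

namespace Pool.Agent.MP_5baa61_gt.JC

open Pool.Agent.MP_5baa61_gt.JB

theorem main_ok : S_mainR all_keep :=
  main_of all_pool all_gen base_g (run_ok step_g)
    (flag_ok coh_ok tool_ok core_l) (k1_ok tool_ok core_a core_b) ps1_ok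

end Pool.Agent.MP_5baa61_gt.JC
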