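import Pool.Agent.MP_5baa61_gt.JC.Tlk

/-! The base system of a norm, and restriction of a cell system to a disjoint family. -/

namespace Pool.Agent.MP_5baa61_gt.JC

open Set Pool.Agent.MP_5baa61_gt.JA Pool.Agent.MP_5baa61_gt.JK Pool.Agent.MP_b60a07_lc.H92
open scoped Classical

/-- The trivial cell system. -/
def lamT : Lam := fun J x _ => J.2 = J.1 + 1 ∧ J.1 ∈ x

def PiT : Cell → Prop := fun J => J.2 = J.1 + 1

/-- The pattern contains a set of norm `l` in singleton cells. -/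
def UUE (ν0 : Nu) : Lst := fun l p => ∃ y, ν0 l y ∧ ∀ e ∈ y, JF.sing e ∈ p.1 ∧ e ∈ p.2

/-- The restriction of a cell system to a family of cells. -/
def rl (lam : Lam) (Pi : Cell → Prop) : Lam := fun J x l => lam J x l ∧ Pi J

theorem cs_lamT : CS lamT := by
  refine ⟨fun _ _ _ h => h, fun J x x' l h e => ⟨h.1, e _ h.2 ⟨le_rfl, h.1 ▸ Nat.lt_succ_self _⟩⟩,
    fun J x h => ⟨_, h.2, le_rfl, h.1 ▸ Nat.lt_succ_self _⟩, fun J x l h => ?_⟩
  have : ∀ d x, lamT J x l → Spl lamT J l d x := fun d => by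
    induction d with
    | zero => exact fun _ h => h
    | succ d ih =>
      exact fun x h A => (em (J.1 ∈ A)).imp (fun e => ih _ ⟨h.1, Finset.mem_inter.2 ⟨h.2, e⟩⟩)
        fun e => ih _ ⟨h.1, Finset.mem_sdiff.2 ⟨h.2, e⟩⟩
  exact this _ x h

theorem on_lamT : On lamT PiT :=
  ⟨fun _ _ h => h.1, fun J J' e h h' h1 h2 => by
    unfold PiT inC at *
    exact Prod.ext (by omega) (by omega)⟩

theorem isL_UUE {ν0 : Nu} (h : Norm ν0) : IsL (UUE ν0) := by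
  refine ⟨fun l p q ⟨y, h1, h2⟩ e => ⟨y, h1, fun i hi => ⟨e.1 (h2 i hi).1, ?_⟩⟩,
    fun l p ⟨y, h1, h2⟩ => ⟨y, h.anti _ _ h1, h2⟩⟩
  obtain ⟨j, h3, h4⟩ := (e.2 _ (h2 i hi).1).1
  obtain rfl : j = i := by unfold inC JF.sing at h4; simp only at h4; omega
  exact h3

theorem adm_of_sub {ν0 : Nu} (h : Norm ν0) {lam : Lam} {UU : Lst}
    (e : ∀ l p, UU l p → UUE ν0 l p) : Adm ν0 (nuL lam UU) := fun c => ⟨c, fun x ⟨s, h1, h2⟩ => by
  obtain ⟨u, h3, -⟩ := mod_offer h1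
  obtain ⟨y, h4, h5⟩ := e _ _ (h2 u h3)
  exact ⟨y, fun i hi => (h5 i hi).2, h.anti _ _ h4⟩⟩

theorem null_base {ν0 : Nu} (h : Norm ν0) {A : Sn} (hA : Null (nuL lamT (UUE ν0)) A) :
    Null ν0 A := by
  obtain ⟨c, hc⟩ := hA
  obtain ⟨M, hM⟩ := JF.all_nu (c + 1) (c + 1) (c + 1) (by omega)
  refine ⟨max M (c + 1), fun x hx => hc x ?_⟩
  obtain ⟨ν, eν⟩ : ∃ ν : Nu, ν = fun c x => ∃ y, y ⊆ x ∧ ν0 c y := ⟨_, rfl⟩
  have hn : JF.Nrm ν := eν ▸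
    ⟨fun c x ⟨y, h1, h2⟩ => ⟨y, h1, h.anti _ _ h2⟩, fun c x x' ⟨y, h1, h2⟩ e => ⟨y, h1.trans e, h2⟩,
      fun x ⟨y, h1, h2⟩ => (h.ne _ _ h2).1.mono h1, fun c x A ⟨y, h1, h2⟩ =>
        let ⟨y', h3, h4, h5⟩ := h.split c y h2 A
        h5.imp (fun e => ⟨y', fun i hi => Finset.mem_inter.2 ⟨h1 (h3 hi), e i hi⟩, h4⟩)
          fun e => ⟨y', fun i hi => Finset.mem_sdiff.2 ⟨h1 (h3 hi), e i hi⟩, h4⟩⟩
  have h1 : ∀ e ∈ x, c + 1 ≤ e := fun e he => (le_max_right _ _).trans ((h.ne _ _ hx).2 e he)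
  obtain ⟨h2, h3⟩ := hM ν x hn h1 (eν ▸ ⟨x, subset_rfl, h.le hx (le_max_left _ _)⟩)
  refine ⟨_, ⟨h2, h3, fun J hJ => ?_, fun e he => ⟨JF.sing e, Finset.mem_image_of_mem _ he,
    le_rfl, Nat.lt_succ_self e⟩⟩, fun u hu => ?_⟩
  · obtain ⟨e, he, rfl⟩ := Finset.mem_image.1 hJ
    exact ⟨h1 e he, rfl, he⟩
  · obtain ⟨y, h4, rfl⟩ := Finset.mem_image.1 hu
    obtain ⟨h5, h6⟩ := Finset.mem_filter.1 h4
    subst eν
    obtain ⟨y', h6, h7⟩ := h6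
    exact ⟨y', h7, fun e he => ⟨Finset.mem_image_of_mem _ (h6 he),
      Finset.mem_powerset.1 h5 (h6 he)⟩⟩

theorem cs_rl {lam : Lam} (h : CS lam) (Pi : Cell → Prop) : CS (rl lam Pi) := by
  refine ⟨fun J x l h1 => ⟨h.anti _ _ _ h1.1, h1.2⟩, fun J x x' l h1 e => ⟨h.mono _ _ _ _ h1.1 e, h1.2⟩,
    fun J x h1 => h.ne _ _ h1.1, fun J x l h1 => ?_⟩
  have : ∀ d x, Spl lam J l d x → Spl (rl lam Pi) J l d x := fun d => by
    induction d with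
    | zero => exact fun _ h => ⟨h, h1.2⟩
    | succ d ih => exact fun x h A => (h A).imp (ih _) (ih _)
  exact this _ x (h.big _ _ _ h1.1)

theorem nuL_rl {lam : Lam} {Pi : Cell → Prop} {UU : Lst} (c : ℕ) (x : Finset ℕ)
    (h : nuL (rl lam Pi) UU c x) : nuL lam UU c x :=
  let ⟨s, h1, h2⟩ := h
  ⟨s, ⟨h1.1, h1.2.1, fun J hJ => ⟨(h1.2.2.1 J hJ).1, (h1.2.2.1 J hJ).2.1⟩, h1.2.2.2⟩, h2⟩

/-- The family is disjoint and the sets `N m` stay positive. -/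
def Dsj (lam : Lam) (UU : Lst) (N : ℕ → Sn) (Pi : Cell → Prop) : Prop :=
  (∀ J J' e, Pi J → Pi J' → inC J e → inC J' e → J = J') ∧ ∀ m, ¬ Null (nuL (rl lam Pi) UU) (N m)

theorem dsj_ex {lam : Lam} {UU : Lst} {N : ℕ → Sn} (hl : CS lam) (hU : IsL UU)
    (h : ∀ m, ¬ Null (nuL lam UU) (N m)) : ∃ Pi, Dsj lam UU N Pi := by
  obtain ⟨g, g0, g1, g2⟩ := grid_ex (B := fun t => t = ∅) (fun t t' e e' _ _ => e.trans e'.symm)
    (fun _ k J => ∃ σ : Sta, Mod lam J.1 (k + 1) σ ∧ Ins σ.1.1 J ∧ Meets (UU (k + 1)) σ ∧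
      ∀ i ∈ σ.2, N k.unpair.1 i) fun t k _ a _ =>
    let ⟨e, a1, σ, a2, a3, a4, a5⟩ := place hl hU (h k.unpair.1) a (k + 1)
    ⟨e, a1, σ, a2, a3, fun u hu => hU.le (a4 u hu) (le_max_right _ _), a5⟩
  have hx : ∀ k, g.ix ∅ (k + 1) := fun k => ⟨g0 ▸ rfl, by omega, by simp⟩
  choose σ s1 s2 s3 s4 using fun k => g2 ∅ (k + 1) (hx k)
  refine ⟨fun C => ∃ k, C ∈ (σ k).1.1, ?_, fun m => not_null.2 fun c => ?_⟩
  · rintro C C' e ⟨k, hk⟩ ⟨k', hk'⟩ h1 h2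
    have a1 := s2 k C hk
    have a2 := s2 k' C' hk'
    unfold inC at h1 h2
    rcases lt_trichotomy k k' with h3 | rfl | h3
    · have := g1.lt (hx k) (hx k') (by omega); omega
    · exact (s1 k).1.1.eq hk hk' h1 h2
    · have := g1.lt (hx k') (hx k) (by omega); omega
  · obtain ⟨k, hk⟩ : ∃ k, Nat.pair m (c + 1) = k + 1 :=
      Nat.exists_eq_succ_of_ne_zero (by have := Nat.right_le_pair m (c + 1); omega)
    have a1 : c ≤ k := by have := Nat.right_le_pair m (c + 1); omega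
    have a2 := (s1 k).both hl (a' := c + 1) (m' := c + 1)
      (by have := g1.le_left (hx k); omega) (by omega)
    refine ⟨(σ k).2, ⟨(σ k).1, ⟨a2.1, a2.2.1, fun J hJ => ⟨(a2.2.2.1 J hJ).1, (a2.2.2.1 J hJ).2, k, hJ⟩,
      a2.2.2.2⟩, fun u hu => hU.le (s3 k u hu) (by omega)⟩, fun i hi => ?_⟩
    simpa only [← hk, Nat.unpair_pair] using s4 k i hi

section
variable {Z : Type*} [MeasurableSpace Z]

@[fun_prop] theorem m_UUE {ν : Z → Nu} (h : Measurable ν) : Measurable fun z => UUE (ν z) := by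
  unfold UUE; fun_prop

@[fun_prop] theorem m_rl {lam : Z → Lam} {Pi : Z → Cell → Prop} (h : Measurable lam)
    (h' : Measurable Pi) : Measurable fun z => rl (lam z) (Pi z) := by
  unfold rl; fun_prop

@[fun_prop] theorem m_Spl {lam : Z → Lam} (h : Measurable lam) (J : Cell) (l d : ℕ)
    (x : Finset ℕ) : Measurable fun z => Spl (lam z) J l d x := by
  induction d generalizing x with
  | zero => unfold Spl; fun_prop
  | succ d ih => exact Measurable.forall fun A => (ih _).or (ih _)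

@[fun_prop] theorem m_CS {lam : Z → Lam} (h : Measurable lam) : Measurable fun z => CS (lam z) := by
  have : ∀ z, CS (lam z) ↔ (∀ J x l, lam z J x (l + 1) → lam z J x l) ∧
      (∀ J x x' l, lam z J x l → (∀ e ∈ x, inC J e → e ∈ x') → lam z J x' l) ∧
      (∀ J x, lam z J x 1 → ∃ e ∈ x, inC J e) ∧
      ∀ J x l, lam z J x (l + 1) → Spl (lam z) J l (JA.RR J.1) x := fun z =>
    ⟨fun h => ⟨h.1, h.2, h.3, h.4⟩, fun h => ⟨h.1, h.2.1, h.2.2.1, h.2.2.2⟩⟩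
  simp only [this]; fun_prop

@[fun_prop] theorem m_On {lam : Z → Lam} {Pi : Z → Cell → Prop} (h : Measurable lam)
    (h' : Measurable Pi) : Measurable fun z => On (lam z) (Pi z) := by
  unfold On; fun_prop

@[fun_prop] theorem m_IsL {UU : Z → Lst} (h : Measurable UU) : Measurable fun z => IsL (UU z) := by
  have : ∀ z, IsL (UU z) ↔ (∀ l p q, UU z l p → Ref q p → UU z l q) ∧
      ∀ l p, UU z (l + 1) p → UU z l p := fun z => ⟨fun h => ⟨h.1, h.2⟩, fun h => ⟨h.1, h.2⟩⟩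
  simp only [this]; fun_prop

@[fun_prop] theorem m_Adm {ν ν' : Z → Nu} (h : Measurable ν) (h' : Measurable ν') :
    Measurable fun z => Adm (ν z) (ν' z) := by
  unfold Adm; fun_prop

@[fun_prop] theorem m_sec {μ : Z → Mu} {K : Z → Sn} (h : Measurable μ) (h' : Measurable K) :
    Measurable fun z => sec (μ z) (K z) := by
  unfold sec; fun_prop

end

variable {B L : Type} [MeasurableSpace B] [MeasurableSpace L] {P : Par B L} {b : Rl} [PO b]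
  {p : U} {θ : Tg B}

theorem base_one (h : NS P b p θ) {ν0 : Set U → Nu} (n0 : NB b ν0) : Fc b p fun G =>
    Norm (ν0 G) → θ.Comp ν0 G → θ.Comp (fun G => nuL lamT (UUE (ν0 G))) G := by
  have := NB.ms n0
  exact (comp_mono h n0 (nb_of (by fun_prop))).imp fun G a c1 c2 => a c2 fun A => null_base c1

/-- Separating sets for a compatible norm. -/
theorem sep_ex (h : NS P b p θ) {ν0 ν : Set U → Nu} (n0 : NB b ν0) (n1 : NB b ν) :
    ∃ N : Set U → ℕ → Sn, NB b N ∧ Fc b p fun G => θ.Reg ν0 G → Norm (ν G) → Adm (ν0 G) (ν G) →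
      θ.Comp ν G → θ.Sep ν N G ∧ ∀ m, ¬ Null (ν G) (N G m) := by
  obtain ⟨R, N, r1, r2, r3⟩ := h.rk (E := fun _ _ _ => True) n0 n1 (nb_const _)
  refine ⟨N, r2, (r3.and (h.comp_elim n1 r1)).imp fun G ⟨a1, a2⟩ c1 c2 c3 c4 => ?_⟩
  rcases a1 c1 c2 c3 with a3 | a3
  · exact absurd ((a3.2 0).mono fun e he => ⟨trivial, he⟩) (a2 c4 a3.1)
  · exact ⟨a3.1, fun m => (a3.2 m).1⟩

theorem wlog_pi (h : NS P b p θ) {ν0 : Set U → Nu} {lam : Set U → Lam} {UU : Set U → Lst}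
    {fl : Set U → Prop} (n0 : NB b ν0) (n1 : NB b lam) (n2 : NB b UU) (n3 : NB b fl)
    (H : Fc b p fun G => fl G → θ.Reg ν0 G ∧ CS (lam G) ∧ IsL (UU G) ∧
      Adm (ν0 G) (nuL (lam G) (UU G)) ∧ θ.Comp (fun G => nuL (lam G) (UU G)) G) :
    ∃ Pi : Set U → Cell → Prop, NB b Pi ∧ Fc b p fun G => fl G → On (rl (lam G) (Pi G)) (Pi G) ∧
      θ.Comp (fun G => nuL (rl (lam G) (Pi G)) (UU G)) G := by
  have m1 := NB.ms n1; have m2 := NB.ms n2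
  have nν : NB b fun G => nuL (lam G) (UU G) := nb_of (by fun_prop)
  obtain ⟨N, r1, r2⟩ := sep_ex h n0 nν
  have H2 := (H.and r2).imp (T := fun G => fl G → θ.Sep (fun G => nuL (lam G) (UU G)) N G ∧
      ∃ Pi, Dsj (lam G) (UU G) (N G) Pi) fun G ⟨a1, a2⟩ hf => by
    obtain ⟨c1, c2, c3, c4, c5⟩ := a1 hf
    obtain ⟨c6, c7⟩ := a2 c1 (norm_nuL c2 c3) c4 c5
    exact ⟨c6, dsj_ex c2 c3 c7⟩
  obtain ⟨Pi, y1, y2⟩ := nb_unif (X := Prop × Lam × Lst × (ℕ → Sn)) (Y := Cell → Prop)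
    (C := fun x y => x.1 → Dsj x.2.1 x.2.2.1 x.2.2.2 y) (by unfold Dsj; fun_prop)
    (n3.mk (n1.mk (n2.mk r1))) (H2.imp fun G hG => by
      by_cases ht : fl G
      · exact (hG ht).2.imp fun _ h _ => h
      · exact ⟨default, fun h => absurd h ht⟩)
  have m3 := NB.ms y1
  obtain ⟨K, k1, k2⟩ := h.comp_intro (ν := fun G => nuL (rl (lam G) (Pi G)) (UU G))
    (nb_of (by fun_prop))
  refine ⟨Pi, y1, (((H.and H2).and (y2.and k2)).and (h.sep_elim nν r1 k1)).imp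
    fun G ⟨⟨⟨a1, a2⟩, a3, a4⟩, a5⟩ hf => ⟨⟨fun _ _ h => h.2, (a3 hf).1⟩, not_not.1 fun hn => ?_⟩⟩
  obtain ⟨m, hm⟩ := a5 (a2 hf).1 (a4 hn).1
  exact (a3 hf).2 m ((norm_nuL (cs_rl (a1 hf).2.1 _) (a1 hf).2.2.1).union (null_of_le nuL_rl hm)
    (a4 hn).2 fun e he => (em _).imp_left fun h => ⟨he, h⟩)

end Pool.Agent.MP_5baa61_gt.JC
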