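import Pool.Agent.MP_5baa61_gt.JC.Base
import Pool.Agent.MP_5baa61_gt.JB.Pl

/-! States over a history, the derived cell system, compatibility of the promise. -/

namespace Pool.Agent.MP_5baa61_gt.JC

open Set Pool.Agent.MP_5baa61_gt.JA Pool.Agent.MP_5baa61_gt.JK Pool.Agent.MP_5baa61_gt.JB
open scoped Classical

/-- The lists of the history are lists of requirements. -/
def GH (H : Hs) : Prop := ∀ j, IsL (H j).2.req ∧ ∀ m, Req ((H j).2.cum m)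

/-- States that respect the first `l` entries of the history. -/
def StH (lam : Lam) (UU : Lst) (H : Hs) (l a m : ℕ) (τ : Sta) : Prop :=
  Mod lam a m τ ∧ Meets (UU a) τ ∧ ∃ m0, Bd H l a m0 ∧ (∀ k ∈ τ.2, BB H l m0 k) ∧
    Meets (RQ H l a m0) τ

def nuZ (lam : Lam) (UU : Lst) (H : Hs) (l : ℕ) : Nu := fun c x =>
  ∃ s : Sk, StH lam UU H l (c + 1) (c + 1) (s, x)

def nuD (lam : Lam) (UU : Lst) (H : Hs) : Nu := fun c x => nuZ lam UU H (c + 1) c x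

/-- The clause of the derived cell system. -/
def GJ (lam : Lam) (UU : Lst) (H : Hs) (J : Cell) (m : ℕ) (τ : Sta) : Prop :=
  StH lam UU H m J.1 (m * JA.RR J.1 + 1) τ ∧ ∃ b1 b2, J.1 ≤ b1 ∧ (∀ C ∈ τ.1.1, C.2 ≤ b1) ∧
    Bd H m b1 b2 ∧ Bd H m b2 J.2

def lamG (lam : Lam) (UU : Lst) (H : Hs) : Lam := fun J x m =>
  ∃ τ : Sta, GJ lam UU H J m τ ∧ τ.2 ⊆ x

/-- The history list. -/
def HH (UU : Lst) (H : Hs) : Lst := fun l p => UU l p ∧ ∀ j < l, (H j).2.req l p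

/-- The list of a family. -/
def VL (V : Vf) : Lst := fun l p => 2 ≤ p.1.card ∧ V l p.1

/-- The pattern contains a skeleton of level `l` on `Pi` that meets the list. -/
def YI (Pi : Cell → Prop) (UI : Lst) : Lst := fun l p => ∃ s : Sk, SkWf s ∧ Un l l s ∧
  s.1 ⊆ p.1 ∧ (∀ J ∈ s.1, l ≤ J.1 ∧ Pi J) ∧ Meets (UI l) (s, p.2)

/-- Hitting states. -/
def muL (lam : Lam) (UU : Lst) : Mu := fun l k x => ∃ (s : Sk) (y : Finset ℕ),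
  Mod lam (l + 1) (l + 1) (s, x) ∧ x ⊆ y ∧ Meets (UU (l + 1)) (s, y) ∧
    ∀ J ∈ s.1, ∃ e ∈ k, e ∈ y ∧ inC J e

def capLL (UU UU' : Lst) : Lst := fun l p => UU l p ∧ UU' l p

variable {lam : Lam} {UU : Lst} {H H' : Hs} {V : Vf} {l l' a a' m m' : ℕ} {τ : Sta}

theorem IsL.capLL {UU' : Lst} (h : IsL UU) (h' : IsL UU') : IsL (capLL UU UU') :=
  ⟨fun l p q hp e => ⟨h.req l p q hp.1 e, h'.req l p q hp.2 e⟩,
    fun l p hp => ⟨h.anti l p hp.1, h'.anti l p hp.2⟩⟩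

theorem bd_le (h : Bd H l a m) (e1 : l' ≤ l) (e2 : a' ≤ a) (e3 : m ≤ m') : Bd H l' a' m' :=
  ⟨by have := h.1; omega, fun j hj b hb => (h.2 j (by omega) b (by omega)).trans_le e3⟩

theorem bd_ex (H : Hs) (l a : ℕ) : ∃ m, Bd H l a m :=
  ⟨max a ((Finset.range l ×ˢ Finset.range (a + 1)).sup fun z => (H z.1).1 z.2) + 1,
    by omega, fun j hj b hb => Nat.lt_succ_of_le ((Finset.le_sup (f := fun z : ℕ × ℕ => (H z.1).1 z.2)
      (b := (j, b)) (by simp; omega)).trans (le_max_right _ _))⟩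

theorem req_RQ (hH : GH H) : Req (RQ H l a m) := fun p q h e j hj =>
  ⟨(hH j).1.req _ p q (h j hj).1 e, (hH j).2 _ p q (h j hj).2 e⟩

theorem isL_HH (hU : IsL UU) (hH : GH H) : IsL (HH UU H) :=
  ⟨fun l p q h e => ⟨hU.req l p q h.1 e, fun j hj => (hH j).1.req _ p q (h.2 j hj) e⟩,
    fun l p h => ⟨hU.anti l p h.1, fun j hj => (hH j).1.anti _ _ (h.2 j (by omega))⟩⟩

theorem cov_of_subset {c c' : Finset Cell} (h : c' ⊆ c) : Cov c c' :=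
  fun J hJ => ⟨J, h hJ, le_rfl, le_rfl⟩

theorem isL_VL (hV : Fm V) : IsL (VL V) :=
  ⟨fun l _ _ h e => ⟨h.1.trans (Finset.card_le_card e.1), hV.2 l _ _ (cov_of_subset e.1) h.2⟩,
    fun l _ h => ⟨h.1, hV.1 _ l _ (by omega) h.2⟩⟩

/-- A state over a history is a state over every history with fewer entries. -/
theorem StH.sub_hist (h : StH lam UU H l a m τ) (e : ∀ j < l', ∃ i < l, H' j = H i) :
    StH lam UU H' l' a m τ := by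
  obtain ⟨h1, h2, m0, h3, h4, h5⟩ := h
  refine ⟨h1, h2, m0, ⟨h3.1, fun j hj => ?_⟩, fun k hk j hj => ?_, fun c hc j hj => ?_⟩ <;>
    obtain ⟨i, hi, e'⟩ := e j hj <;> rw [e']
  exacts [h3.2 i hi, h4 k hk i hi, h5 c hc i hi]

theorem StH.le (hl : CS lam) (hU : IsL UU) (hH : GH H) (h : StH lam UU H l a m τ) (e1 : l' ≤ l)
    (e2 : a' ≤ a) (e3 : m' ≤ m) : StH lam UU H l' a' m' τ := by
  obtain ⟨h1, h2, m0, h3, h4, h5⟩ := h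
  exact ⟨h1.both hl e2 e3, fun c hc => hU.le (h2 c hc) e2, m0, bd_le h3 e1 e2 le_rfl,
    fun k hk j hj => h4 k hk j (by omega), fun c hc j hj =>
      ⟨(hH j).1.le (h5 c hc j (by omega)).1 e2, (h5 c hc j (by omega)).2⟩⟩

theorem StH.split (hl : CS lam) (hU : IsL UU) (hH : GH H) (h : StH lam UU H l a (m + 1) τ)
    (hm : 1 ≤ m) (A : Sn) : ∃ τ', Sub τ' τ ∧ StH lam UU H l a m τ' ∧
      ((∀ e ∈ τ'.2, A e) ∨ ∀ e ∈ τ'.2, ¬ A e) := by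
  obtain ⟨h1, h2, m0, h3, h4, h5⟩ := h
  obtain ⟨τ', a1, a2, a3⟩ := JF.all_split lam _ _ _ {e | A e} hl h1
  exact ⟨τ', a1, ⟨a2, h2.sub hl (hU.req _) a1 a2 hm, m0, h3, fun k hk => h4 k (a1.2 hk),
    h5.sub hl (req_RQ hH) a1 a2 hm⟩, a3⟩

theorem norm_of_st (hl : CS lam) (hU : IsL UU) (hH : GH H) {f : ℕ → ℕ} (hf : ∀ c, f c ≤ f (c + 1)) :
    Norm fun c x => nuZ lam UU H (f c) c x := by
  refine ⟨fun c x ⟨s, h⟩ => ⟨s, h.le hl hU hH (hf c) (by omega) (by omega)⟩,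
    fun c x ⟨s, h⟩ => (norm_nuL hl hU).ne c x ⟨s, h.1, h.2.1⟩, fun c x ⟨s, h⟩ A => ?_⟩
  obtain ⟨τ, h1, h2, h3⟩ := h.split hl hU hH (by omega) (· ∈ A)
  exact ⟨τ.2, h1.2, ⟨τ.1, h2.le hl hU hH (hf c) (by omega) le_rfl⟩, h3⟩

theorem norm_nuZ (hl : CS lam) (hU : IsL UU) (hH : GH H) (l : ℕ) : Norm (nuZ lam UU H l) :=
  norm_of_st hl hU hH (f := fun _ => l) fun _ => le_rfl

theorem norm_nuD (hl : CS lam) (hU : IsL UU) (hH : GH H) : Norm (nuD lam UU H) :=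
  norm_of_st hl hU hH (f := fun c => c + 1) fun _ => by omega

theorem nuZ_le (l c : ℕ) (x : Finset ℕ) (h : nuZ lam UU H l c x) : nuL lam UU c x :=
  let ⟨s, h⟩ := h; ⟨s, h.1, h.2.1⟩

theorem nuD_le (c : ℕ) (x : Finset ℕ) (h : nuD lam UU H c x) : nuL lam UU c x := nuZ_le _ c x h

theorem GJ.ins {J : Cell} (h : GJ lam UU H J m τ) : Ins τ.1.1 J := fun C hC =>
  let ⟨_, _, _, h2, h3, h4⟩ := h.2
  ⟨(h.1.1.2.2.1 C hC).1, by have := h2 C hC; have := h3.1; have := h4.1; omega⟩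

theorem GJ.inC {J : Cell} (h : GJ lam UU H J m τ) {e : ℕ} (he : e ∈ τ.2) : inC J e :=
  let ⟨C, h1, h2⟩ := h.1.1.2.2.2 e he
  ⟨(h.ins C h1).1.trans h2.1, h2.2.trans_le (h.ins C h1).2⟩

theorem GJ.le (hl : CS lam) (hU : IsL UU) (hH : GH H) {J : Cell} (h : GJ lam UU H J m τ)
    (e : m' ≤ m) : GJ lam UU H J m' τ :=
  let ⟨h1, b1, b2, h2, h3, h4, h5⟩ := h
  ⟨h1.le hl hU hH e le_rfl (Nat.succ_le_succ (Nat.mul_le_mul_right _ e)), b1, b2, h2, h3,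
    bd_le h4 e le_rfl le_rfl, bd_le h5 e le_rfl le_rfl⟩

theorem cs_lamG (hl : CS lam) (hU : IsL UU) (hH : GH H) : CS (lamG lam UU H) := by
  refine ⟨fun J x l ⟨τ, h1, h2⟩ => ⟨τ, h1.le hl hU hH (by omega), h2⟩,
    fun J x x' l ⟨τ, h1, h2⟩ e => ⟨τ, h1, fun i hi => e i (h2 hi) (h1.inC hi)⟩,
    fun J x ⟨τ, h1, h2⟩ => ?_, fun J x l ⟨τ, ⟨h1, b1, b2, h2, h3, h4, h5⟩, h6⟩ => ?_⟩
  · obtain ⟨_, _, C, _, h3⟩ := mod_offer h1.1.1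
    obtain ⟨e, h4, _⟩ := mod_meet hl h1.1.1 (by omega) h3
    exact ⟨e, h2 h4, h1.inC h4⟩
  have : ∀ d x (τ : Sta), StH lam UU H l J.1 (l * JA.RR J.1 + 1 + d) τ → (∀ C ∈ τ.1.1, C.2 ≤ b1) →
      τ.2 ⊆ x → Spl (lamG lam UU H) J l d x := fun d => by
    induction d with
    | zero => exact fun x τ a1 a2 a3 => ⟨τ, ⟨a1, b1, b2, h2, a2, bd_le h4 (by omega) le_rfl le_rfl,
        bd_le h5 (by omega) le_rfl le_rfl⟩, a3⟩
    | succ d ih =>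
      intro x τ a1 a2 a3 A
      obtain ⟨τ', a4, a5, a6⟩ := StH.split (m := l * JA.RR J.1 + 1 + d) hl hU hH a1 (by omega) (· ∈ A)
      exact a6.imp (fun e => ih _ τ' a5 (fun C hC => a2 C (a4.1.1 hC)) fun i hi =>
        Finset.mem_inter.2 ⟨a3 (a4.2 hi), e i hi⟩) fun e => ih _ τ' a5
          (fun C hC => a2 C (a4.1.1 hC)) fun i hi => Finset.mem_sdiff.2 ⟨a3 (a4.2 hi), e i hi⟩
  exact this _ x τ (h1.le hl hU hH (by omega) le_rfl (by rw [Nat.succ_mul]; omega)) h3 h6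

/-- The norm of the derived system is admissible when the base list lies inside the list of the
norm. -/
theorem adm_lamG {ν0 : Nu} (h : Norm ν0) (e : ∀ l p, UU l p → UUE ν0 l p) (W : Lst) :
    Adm ν0 (nuL (lamG lam UU H) W) := fun c => ⟨c, fun x ⟨s, h1, _⟩ => by
  obtain ⟨_, _, J, _, h2⟩ := mod_offer h1
  obtain ⟨h3, τ, h4, h5⟩ := h1.2.2.1 J h2
  obtain ⟨u, h6, -⟩ := mod_offer h4.1.1
  obtain ⟨y, h7, h8⟩ := e _ _ (h4.1.2.1 u h6)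
  exact ⟨y, fun i hi => h5 (h8 i hi).2, h.le h7 (by omega)⟩⟩

theorem isL_YI {Pi : Cell → Prop} {UI : Lst} (hU : IsL UI) (l l' : ℕ) (p : Pat) (h : YI Pi UI l p)
    (e : l' ≤ l) : YI Pi UI l' p :=
  let ⟨s, h1, h2, h3, h4, h5⟩ := h
  ⟨s, h1, h2.both e e, h3, fun J hJ => ⟨e.trans (h4 J hJ).1, (h4 J hJ).2⟩,
    fun c hc => hU.le (h5 c hc) e⟩

theorem isL_prom (hV : Fm V) (K : Sn) (Y : Lst) : IsL (Prom H V K Y) := by
  refine ⟨fun l p q ⟨s, y, h1, h2, h3⟩ e => ⟨s, y, h1, h2, fun J hJ => ?_⟩,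
    fun l p ⟨s, y, h1, h2, h3⟩ => ⟨s, y, ⟨h1.1, h1.2.1.both (by omega) (by omega),
      fun J hJ => by have := h1.2.2.1 J hJ; omega,
      fun c hc => ⟨(h1.2.2.2 c hc).1, hV.1 _ _ _ (by omega) (h1.2.2.2 c hc).2⟩⟩,
      fun c hc l' hl => h2 c hc l' (by omega), fun J hJ => ?_⟩⟩
  · obtain ⟨m0, b1, b2, w, a1, a2, a3, a4, a5, a6, a7⟩ := h3 J hJ
    exact ⟨m0, b1, b2, w, a1, a2, a3, a4, a5.trans e.1, a6, fun C hC => ⟨(a7 C hC).1, (a7 C hC).2.1,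
      fun k hk hi => (a7 C hC).2.2.1 k ((e.2 C (a5 hC)).2 k hk hi) hi, (a7 C hC).2.2.2⟩⟩
  · obtain ⟨m0, b1, b2, w, a1, a2, a3, a4, a5, a6, a7⟩ := h3 J hJ
    exact ⟨m0, b1, b2, w, bd_le a1 (by omega) le_rfl le_rfl, a2, bd_le a3 (by omega) le_rfl le_rfl,
      bd_le a4 (by omega) le_rfl le_rfl, a5, fun j hj => a6 j (by omega), fun C hC =>
        ⟨(a7 C hC).1, (a7 C hC).2.1, (a7 C hC).2.2.1,
          fun k hk hi j hj => (a7 C hC).2.2.2.1 k hk hi j (by omega), (a7 C hC).2.2.2.2⟩⟩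

theorem prom_mono {K : Sn} {Y Y' : Lst} (e : ∀ l p, Y l p → Y' l p) {p : Pat}
    (h : Prom H V K Y l p) : Prom H V K Y' l p :=
  let ⟨s, y, h1, h2, h3⟩ := h; ⟨s, y, h1, fun c hc l' hl => e _ _ (h2 c hc l' hl), h3⟩

/-- The promise is compatible with the history list. -/
theorem prom_core (hl : CS lam) (hU : IsL UU) (hH : GH H) (hV : Fm V) {Pi : Cell → Prop} {UI : Lst}
    (hI : IsL UI) (hs : ∀ l p, UI l p → VL V l p) {N : Sn}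
    (h : Null (nuL lam (capLL (HH UU H) (Prom H V (fun _ => True) (YI Pi UI)))) N) :
    Null (nuL (rl (lamG lam UU H) Pi) UI) N := by
  obtain ⟨c, hc⟩ := h
  refine ⟨3 * c + 2, fun y ⟨s, h1, h2⟩ => ?_⟩
  have hL : 3 * c + 2 + 1 = (c + 1) + ((c + 1) + (c + 1)) := by omega
  choose! τ t1 t2 using fun J hJ => (h1.2.2.1 J hJ).2.1
  have g1 : ∀ J ∈ s.1, 3 * c + 3 ≤ J.1 := fun J hJ => (h1.2.2.1 J hJ).1
  obtain ⟨w1, w2⟩ := JF.all_u6 (c + 1) (c + 1) (c + 1 + (c + 1)) s h1.1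
    (hL ▸ h1.2.1.down (by omega))
  have g2 : ∀ J ∈ s.1, Mod lam J.1 (c + 1) (τ J) := fun J hJ => (t1 J hJ).1.1.both hl le_rfl (by
    have := Nat.mul_le_mul_left (3 * c + 2 + 1) (RR_pos J.1); omega)
  obtain ⟨k1, k2, k3⟩ := JF.all_cmp lam (c + 1) (c + 1) _ τ hl w1 w2 fun J hJ =>
    ⟨by have := g1 J hJ; omega, g2 J hJ, (t1 J hJ).ins⟩
  refine (hc _ ⟨_, k1, fun u hu => ?_⟩).imp fun i hi => ⟨?_, hi.2⟩
  swap
  · obtain ⟨J, a3, a4⟩ := Finset.mem_biUnion.1 hi.1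
    exact t2 J a3 a4
  obtain ⟨d, d1, d2, -⟩ := k2 u hu
  have d3 : d ⊆ s.1 := (w1.2 d d1).1
  have key : ∀ J ∈ d, ∃ c' ∈ (τ J).1.2, c' ⊆ u ∧ ∀ C ∈ c', C ∈ (τ J).1.1 ∧ ∀ k, inC C k →
      (k ∈ (cmpS (thk (c + 1) (c + 1 + (c + 1)) s) τ).2 ↔ k ∈ (τ J).2) := fun J hJ => by
    obtain ⟨c', a1, a2⟩ := d2 J hJ
    refine ⟨c', a1, a2, fun C hC => ?_⟩
    have a3 := ((g2 J (d3 hJ)).1.2 c' a1).1 hC
    have a4 := (t1 J (d3 hJ)).ins C a3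
    exact ⟨a3, fun k hk => k3 J (d3 hJ) k ⟨a4.1.trans hk.1, hk.2.trans_le a4.2⟩⟩
  refine ⟨?_, ?_⟩
  · obtain ⟨J, hJ⟩ := (w1.2 d d1).2
    obtain ⟨c', a1, a2, a3⟩ := key J hJ
    have a4 : Ref (u, (cmpS (thk (c + 1) (c + 1 + (c + 1)) s) τ).2) (c', (τ J).2) :=
      ⟨a2, fun C hC => ⟨(mod_meet hl (g2 J (d3 hJ)) (by omega) (a3 C hC).1).imp fun e he =>
        ⟨((a3 C hC).2 e he.2).2 he.1, he.2⟩, fun e he hi => ((a3 C hC).2 e hi).1 he⟩⟩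
    obtain ⟨⟨-, a5, m0, -, -, a6⟩, -⟩ := t1 J (d3 hJ)
    have a7 : c + 1 ≤ J.1 := by have := g1 J (d3 hJ); omega
    exact (isL_HH hU hH).req _ _ _ ⟨hU.le (a5 c' a1) a7,
      fun j hj => (hH j).1.le (a6 c' a1 j (by omega)).1 a7⟩ a4
  · obtain ⟨-, s1, a1, a2, a3⟩ := Finset.mem_filter.1 d1
    obtain ⟨v1, v2⟩ := JF.all_u6 (c + 1) (c + 1) (c + 1) s1 (h1.1.of_le a1) a3
    have a4 : ∀ c2 ∈ (thk (c + 1) (c + 1) s1).2, YI Pi UI (c + 1) (c2, y) := fun c2 h3 => by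
      obtain ⟨-, s3, b1, b2, b3⟩ := Finset.mem_filter.1 h3
      have b4 := b1.trans a1
      exact ⟨s3, h1.1.of_le b4, b3, b2, fun J hJ => ⟨by have := g1 J (b4.1 hJ); omega,
        (h1.2.2.1 J (b4.1 hJ)).2.2⟩, fun c3 h4 => hI.le (h2 c3 (b4.2.1 h4)) (by omega)⟩
    refine ⟨thk (c + 1) (c + 1) s1, y, ⟨v1, v2, fun J hJ => by have := g1 J (a1.1 hJ); omega,
      fun c2 h3 => ?_⟩, fun c2 h3 l' hl' => isL_YI hI _ _ _ (a4 c2 h3) hl', fun J hJ => ?_⟩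
    · obtain ⟨s3, b1, b2, b3, -, b4⟩ := a4 c2 h3
      obtain ⟨c3, b5⟩ := b2.nonempty
      have b6 := ((b1.2 c3 b5).1.trans b3)
      exact ⟨(hs _ _ (b4 c3 b5)).1.trans (Finset.card_le_card b6),
        hV.2 _ _ _ (cov_of_subset b6) (hs _ _ (b4 c3 b5)).2⟩
    · obtain ⟨c', b1, b2, b3⟩ := key J (a2 hJ)
      have hJ' : J ∈ s.1 := a1.1 hJ
      obtain ⟨⟨b4, -, m0, b5, b6, b7⟩, e1, e2, b8, b9, b10, b11⟩ := t1 J hJ'
      refine ⟨m0, e1, e2, (c', (τ J).2), bd_le b5 (by omega) le_rfl le_rfl, b8,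
        bd_le b10 (by omega) le_rfl le_rfl, bd_le b11 (by omega) le_rfl le_rfl, b2,
        fun j hj => b7 c' b1 j (by omega), fun C hC => ⟨(b4.2.2.1 C (b3 C hC).1).1,
          b9 C (b3 C hC).1, fun k hk hi => ?_, fun k hk _ j hj => b6 k hk j (by omega), ?_⟩⟩
      · exact ⟨((b3 C hC).2 k hi).1 hk, t2 J hJ' (((b3 C hC).2 k hi).1 hk)⟩
      · exact (mod_meet hl (g2 J hJ') (by omega) (b3 C hC).1).imp fun e he => ⟨he.1, he.2, trivial⟩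

/-- A hitting state keeps the promise for the set that it hits. -/
theorem hit_core (hl : CS lam) (hH : GH H) {W Y : Lst} (hW : IsL W) {K : Sn} (c : ℕ) (x : Finset ℕ)
    (h : sec (muL lam (capLL W (Prom H V (fun _ => True) Y))) K c x) :
    nuL lam (capLL W (Prom H V K Y)) c x := by
  obtain ⟨k, h1, s, y, h2, h3, h4, h5⟩ := h
  refine ⟨s, h2, fun u hu => ?_⟩
  have a1 : u ⊆ s.1 := (h2.1.2 u hu).1
  obtain ⟨a2, s', y', a3, a4, a5⟩ := h4 u hu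
  refine ⟨hW.req _ _ _ a2 ⟨subset_rfl, fun J hJ => ⟨mod_meet hl h2 (by omega) (a1 hJ),
    fun e he _ => h3 he⟩⟩, s', y', a3, a4, fun J hJ => ?_⟩
  obtain ⟨m0, b1, b2, w, c1, c2, c3, c4, c5, c6, c7⟩ := a5 J hJ
  refine ⟨m0, b1, b2, (w.1, y), c1, c2, c3, c4, c5, req_RQ hH _ _ c6 ⟨subset_rfl, fun C hC =>
    ⟨(h5 C (a1 (c5 hC))).imp fun e he => he.2, fun e he hi => ((c7 C hC).2.2.1 e he hi).1⟩⟩,
    fun C hC => ⟨(c7 C hC).1, (c7 C hC).2.1,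
      fun e he hi => ⟨h3 he, ((c7 C hC).2.2.1 e (h3 he) hi).2⟩,
      fun e he hi => (c7 C hC).2.2.2.1 e ((c7 C hC).2.2.1 e he hi).1 hi,
      (h5 C (a1 (c5 hC))).imp fun e he => ⟨he.2.1, he.2.2, h1 e he.1⟩⟩⟩

end Pool.Agent.MP_5baa61_gt.JC
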