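import Pool.Agent.MP_5baa61_gt.JC.Spec

/-! Part C: the base of the run and the first half of a step. -/

namespace Pool.Agent.MP_5baa61_gt.JC

open Set Pool.Agent.MP_5baa61_gt.JA Pool.Agent.MP_5baa61_gt.JK Pool.Agent.MP_5baa61_gt.JB
open Pool.Agent.MP_b60a07_lc.H92 (Od U Rl t0 Good Ext Ub)
open scoped Classical

theorem half_ite {b : Rl} [PO b] {X : Type*} [MeasurableSpace X] {o : Set U → Prop}
    {f g : Set U → X} (ho : NB b o) (hf : NB b f) (hg : NB b g) :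
    NB b fun G => if o G then f G else g G :=
  nb_of (Measurable.ite (measurableSet_setOfPred.2 (NB.ms ho)) (NB.ms hf) (NB.ms hg))

theorem base_ok : S_base := by
  intro b _ p θ h
  obtain ⟨ν0, β0, n0, n1, H⟩ := h.start
  have m0 := NB.ms n0
  have m1 := NB.ms n1
  obtain ⟨β, eβ⟩ : ∃ β : Set U → Bs,
      β = fun G => if θ.One G then (lamT, UUE (ν0 G), PiT) else β0 G := ⟨_, rfl⟩
  have n2 : NB b β := eβ ▸ half_ite h.nb_One (nb_of (by fun_prop)) n1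
  have m2 := NB.ms n2
  have e1 : ∀ G, θ.One G → β G = (lamT, UUE (ν0 G), PiT) := fun G o => by rw [eβ]; exact if_pos o
  have e2 : ∀ G, ¬ θ.One G → β G = β0 G := fun G o => by rw [eβ]; exact if_neg o
  have nν : NB b fun G => nuL (β G).1 (β G).2.1 := nb_of (by fun_prop)
  refine ⟨ν0, β, β0, n0, n2, n1, ((H.and (base_one h n0)).and
    ((h.cg_Comp (ν := fun G => nuL lamT (UUE (ν0 G))) (nb_of (by fun_prop)) nν).and
      (h.cg_Comp (ν := fun G => nuL (β0 G).1 (β0 G).2.1) (nb_of (by fun_prop)) nν))).imp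
    fun G ⟨⟨⟨a1, a2, a3, a4⟩, a5⟩, a6, a7⟩ => ?_⟩
  by_cases o : θ.One G
  · refine ⟨⟨a1, ?_, fun _ e => ?_, fun h => absurd o h⟩, a6 ?_ (a5 a2 a3)⟩ <;> rw [e1 G o]
    · exact ⟨cs_lamT, on_lamT, isL_UUE a2, adm_of_sub a2 fun _ _ h => h⟩
    · exact rfl
  · obtain ⟨a8, a9, a10⟩ := a4.resolve_left o
    refine ⟨⟨a1, ?_, fun h => absurd h o, fun _ => ⟨a8, (e2 G o).symm⟩⟩, a7 ?_ a10⟩ <;> rw [e2 G o]
    exact a9

theorem half_ok : S_half := by
  intro b _ p θ ν0 β β0 H V h n0 nβ nβ0 nH nV fm hc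
  have mβ := NB.ms nβ
  have mβ0 := NB.ms nβ0
  have mH := NB.ms nH
  have mV := NB.ms nV
  obtain ⟨Pi, nP, p1⟩ := wlog_pi h (lam := fun G => lamG (β G).1 (β G).2.1 (H G))
    (UU := fun G => VL (V G)) (fl := Fg θ β H V) n0 (nb_of (by fun_prop)) (nb_of (by fun_prop))
    (h.nb_Comp (nb_of (by fun_prop))) (hc.imp fun G ⟨c, d⟩ f =>
      ⟨c.reg, cs_lamG c.ok.1 c.ok.2.2.1 d.gd.gh, isL_VL (fm G),
        adm_trans c.ok.2.2.2 (adm_G c.ok.1 c.ok.2.2.1 _ fun _ _ _ h => h), f⟩)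
  have mP := NB.ms nP
  obtain ⟨lg, elg⟩ : ∃ lg : Set U → Lam,
      lg = fun G => rl (lamG (β G).1 (β G).2.1 (H G)) (Pi G) := ⟨_, rfl⟩
  have ml : Measurable (α := Lc b) lg := by rw [elg]; fun_prop
  have el : ∀ G, lg G = rl (lamG (β G).1 (β G).2.1 (H G)) (Pi G) := fun G => by rw [elg]
  simp only [← el] at p1
  obtain ⟨u, nu, p2⟩ := h.one (β := fun G => (lg G, VL (V G), Pi G)) n0 (nb_of (by fun_prop))
  have mu := NB.ms nu
  obtain ⟨UI, eU⟩ : ∃ UI : Set U → Lst, UI = fun G => if θ.One G then u G else VL (V G) := ⟨_, rfl⟩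
  have mU : Measurable (α := Lc b) UI := eU ▸ NB.ms (half_ite h.nb_One nu (nb_of (by fun_prop)))
  have u1 : ∀ G, θ.One G → UI G = u G := fun G o => by rw [eU]; exact if_pos o
  have u2 : ∀ G, ¬ θ.One G → UI G = VL (V G) := fun G o => by rw [eU]; exact if_neg o
  obtain ⟨W, eW⟩ : ∃ W : Set U → Lst,
      W = fun G => PL (β G).2.1 (H G) (V G) (fun _ => True) (YI (Pi G) (UI G)) := ⟨_, rfl⟩
  have mW : Measurable (α := Lc b) W := by rw [eW]; fun_prop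
  have ew : ∀ G, W G = PL (β G).2.1 (H G) (V G) (fun _ => True) (YI (Pi G) (UI G)) :=
    fun G => by rw [eW]
  have nI : NB b fun G => nuL (lg G) (UI G) := nb_of (by fun_prop)
  have nW : NB b fun G => nuL (β G).1 (W G) := nb_of (by fun_prop)
  have p3 := ((hc.and (p1.and p2)).and (((h.cg_Comp (ν := fun G => nuL (lg G) (u G))
      (nb_of (by fun_prop)) nI).and (h.cg_Comp (ν := fun G => nuL (lg G) (VL (V G)))
        (nb_of (by fun_prop)) nI)).and (comp_mono h nI nW))).imp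
      (T := fun G => Fg θ β H V G → θ.Comp (fun G => nuL (β G).1 (W G)) G ∧
        (θ.One G → θ.NHit (fun G => muL (lg G) (u G)) G))
      fun G ⟨⟨⟨c, d⟩, a1, a2⟩, ⟨a3, a4⟩, a5⟩ f => by
    by_cases o : θ.One G
    · obtain ⟨b1, b2, b3⟩ := a2 o c.reg ⟨el G ▸ cs_rl (cs_lamG c.ok.1 c.ok.2.2.1 d.gd.gh) _,
        (a1 f).1, isL_VL (fm G), adm_trans c.ok.2.2.2
          (adm_G c.ok.1 c.ok.2.2.1 _ fun _ _ _ h => (el G ▸ h).1)⟩ (a1 f).2
      refine ⟨a5 (a3 (by rw [u1 G o]) b2) fun A hA => ?_, fun _ => b3⟩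
      rw [ew, u1 G o] at hA
      rw [el, u1 G o]
      exact prom_core c.ok.1 c.ok.2.2.1 d.gd.gh (fm G) b1.1 b1.2 hA
    · refine ⟨a5 (a4 (by rw [u2 G o]) (a1 f).2) fun A hA => ?_, fun h => absurd h o⟩
      rw [ew, u2 G o] at hA
      rw [el, u2 G o]
      exact prom_core c.ok.1 c.ok.2.2.1 d.gd.gh (fm G) (isL_VL (fm G)) (fun _ _ h => h) hA
  obtain ⟨Kh, nh, p4⟩ := h.hit (μ := fun G => muL (β0 G).1 (W G)) (nb_of (by fun_prop))
  have mh := NB.ms nh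
  obtain ⟨K, eK⟩ : ∃ K : Set U → Sn, K = fun G => if θ.One G then fun _ => True else Kh G :=
    ⟨_, rfl⟩
  have nK : NB b K := eK ▸ half_ite h.nb_One (nb_const _) nh
  have mK := NB.ms nK
  have k1 : ∀ G, θ.One G → K G = fun _ => True := fun G o => by rw [eK]; exact if_pos o
  have k2 : ∀ G, ¬ θ.One G → K G = Kh G := fun G o => by rw [eK]; exact if_neg o
  obtain ⟨Kp, np, p5⟩ := h.plus nK
  have nF : NB b fun G => nuL (β G).1 (PL (β G).2.1 (H G) (V G) (K G) (YI (Pi G) (UI G))) :=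
    nb_of (by fun_prop)
  refine ⟨K, Kp, fun G => YI (Pi G) (UI G), fun G => muL (lg G) (u G), nK, np,
    nb_of (by fun_prop), nb_of (by fun_prop), (((hc.and p3).and (p4.and p5)).and
      (((h.two nβ0 (nb_of mW)).and (h.cg_Conv nh nK)).and
        ((h.cg_Comp nW (ν' := fun G => nuL (β0 G).1 (W G)) (nb_of (by fun_prop))).and
          ((h.cg_Comp nW nF).and (comp_mono h (ν := fun G => sec (muL (β0 G).1 (W G)) (Kh G))
            (nb_of (by fun_prop)) nF))))).imp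
    fun G ⟨⟨⟨⟨c, d⟩, a1⟩, a2, a3⟩, ⟨a4, a5⟩, a6, a7, a8⟩ f => ?_⟩
  by_cases o : θ.One G
  · refine ⟨a7 (by rw [ew, k1 G o]) (a1 f).1, fun _ => ⟨(a1 f).2 o, ?_⟩, fun h => absurd o h⟩
    beta_reduce
    rw [el, u1 G o]
    exact hm_ok _ _ _ _ _
  · obtain ⟨t1, t2⟩ := c.two o
    obtain ⟨b1, b2⟩ := a2 (a4 t1 ⟨ew G ▸ isL_PL c.ok.2.2.1 d.gd.gh (fm G),
      fun l q hq => t2 ▸ (ew G ▸ hq).1.1⟩ (a6 (by rw [t2]) (a1 f).1))
    refine ⟨a8 b2 fun A hA => null_of_le (fun c' x hx => ?_) hA, fun h => absurd h o,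
      fun _ => a3 (a5 (k2 G o).symm b1)⟩
    rw [t2, ew] at hx
    rw [k2 G o]
    exact hit_core c.ok.1 d.gd.gh (isL_HH c.ok.2.2.1 d.gd.gh) c' x hx

end Pool.Agent.MP_5baa61_gt.JC
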