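import Pool.Agent.MP_5baa61_gt.JC.Rank
import Pool.Agent.MP_5baa61_gt.JB.At

/-! The second case is contradictory. -/

namespace Pool.Agent.MP_5baa61_gt.JC

open Set Pool.Agent.MP_5baa61_gt.JA Pool.Agent.MP_5baa61_gt.JK Pool.Agent.MP_5baa61_gt.JB
open Pool.Agent.MP_b60a07_lc.H92 (Od U Rl t0 Good Ext Ub)
open scoped Classical

/-- The value `m` bounds the next index and the next elements. -/
def Nx (u : ℕ → Sn) (f : ℕ → ℕ) (a m : ℕ) : Prop :=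
  (∃ j, a ≤ j ∧ Inf (u j) ∧ f j ≤ m) ∧ ∀ j < a, Inf (u j) → ∃ e, a ≤ e ∧ e ≤ m ∧ u j e

theorem Nx.mono {u : ℕ → Sn} {f : ℕ → ℕ} {a m m' : ℕ} (h : Nx u f a m) (e : m ≤ m') :
    Nx u f a m' :=
  ⟨h.1.imp fun _ h => ⟨h.1, h.2.1, h.2.2.trans e⟩,
    fun j h1 h2 => (h.2 j h1 h2).imp fun _ h => ⟨h.1, h.2.1.trans e, h.2.2⟩⟩

theorem nx_ex {u : ℕ → Sn} (f : ℕ → ℕ) (h : Inf fun j => Inf (u j)) (a : ℕ) : ∃ m, Nx u f a m := by
  obtain ⟨j, h1, h2⟩ := h a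
  have : ∀ j, ∃ e, Inf (u j) → a ≤ e ∧ u j e := fun j =>
    (em (Inf (u j))).elim (fun h => (h a).imp fun _ h _ => h) fun h => ⟨0, fun e => absurd e h⟩
  choose g hg using this
  exact ⟨max (f j) ((Finset.range a).sup g), ⟨j, h1, h2, le_max_left _ _⟩, fun i h3 h4 =>
    ⟨g i, (hg i h4).1, (Finset.le_sup (f := g) (Finset.mem_range.2 h3)).trans (le_max_right _ _),
      (hg i h4).2⟩⟩

theorem often_of {D1 : ℕ → ℕ → Prop} {D2 : ℕ → ℕ → ℕ → Prop} {z : Zt} {h f : ℕ → ℕ} {u : ℕ → Sn}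
    {j0 : ℕ} (g : G2 D1 D2 z h) (h1 : ∀ j e, u j e → D2 j0 (f j) e) (h2 : ∀ j, j ≤ f j)
    (h3 : ∀ a, Nx u f a (h a)) : Often z.K u := fun m => by
  obtain ⟨L0, y, φ, ⟨g1, g2, -, g4⟩, g5⟩ := g (max m (j0 + 1))
  obtain ⟨J, J', a1, a2, a3⟩ : ∃ J J', J ∈ L0 ∧ J' ∈ L0 ∧ J.2 ≤ J'.1 := by
    obtain ⟨J, a1, J', a2, a3⟩ := Finset.one_lt_card.1 g2
    exact (g1.2 J a1 J' a2 a3).elim (fun h => ⟨J, J', a1, a2, h⟩) fun h => ⟨J', J, a2, a1, h⟩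
  obtain ⟨j, b1, b2, b3⟩ := (h3 J.1).1
  obtain ⟨c1, c2, c3, -, c5⟩ := g4 J a1
  have d1 := g5 J a1
  have d2 := h2 j
  obtain ⟨e, e1, e2, e3⟩ := (h3 J'.1).2 j (by omega) b2
  have d3 := g5 J' a2
  exact ⟨j, by omega, e, by omega, (c5 j0 (by omega) (f j) ⟨by simp only; omega, by
    simp only; omega⟩).1 J' a2 a3 e ⟨e1, by simp only; omega⟩ (h1 j e e3), e3⟩

variable {c : Rl} [PO c] {p : U} {e : Od → Set U → ℕ → Od}

/-- A statement that is forced at every ordinal is forced at the listed ordinals. -/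
theorem fc_at (he : Lv c e) (δ : Od) {S : Od → Set U → Prop} (h : ∀ ξ, Fc c p (S ξ)) :
    Fc c p fun G => ∀ i, S (e δ G i) G := .all fun i => .glue fun r hr =>
  let ⟨s, z, s1, s2⟩ := (he.no δ i).val r (PO.l hr)
  ⟨s, s1, (s2.and ((h z).mono (PO.tr s1 hr))).imp fun _ h => h.1 ▸ h.2⟩

theorem fc_sur (hc : Good c) (hp : c p p) (he : Lv c e) {g x : Od} (h : x < max g w0) :
    Fc c p fun G => ∃ j, e g G j = x := (he.sur g x h).mono (hc.top hp)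

/-- If unboundedly many statements can be forced, infinitely many listed ones are forced. -/
theorem ub_idx (hc : Good c) (he : Lv c e) {S : Od → Set U → Prop}
    (h : Ub fun ξ => ∃ r, c r p ∧ Fc c r (S ξ)) :
    ∃ q δ, c q p ∧ Fc c q fun G => Inf fun i => S (e δ G i) G := by
  obtain ⟨q, δ, q1, q2⟩ := ub_inf (P := fun ξ G => ∃ s ∈ G, Fc c s (S ξ)) hc fun δ =>
    let ⟨ξ, h1, r, h2, h3⟩ := h δ; ⟨ξ, h1, r, h2, Fc.self.imp fun _ hG => ⟨r, hG, h3⟩⟩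
  refine ⟨q, δ, q1, .all fun m => .glue fun r hr => ?_⟩
  obtain ⟨s, z, s1, s2⟩ := NO.vals (he.no δ) m r (PO.l hr)
  obtain ⟨G, g1, g2, g3⟩ := (q2.mono (PO.tr s1 hr)).exists (PO.l s1)
  obtain ⟨ξ, ⟨x1, t, t1, t2⟩, x2⟩ := g3.exists_notMem_finset ((Finset.range m).image z)
  obtain ⟨v, -, v1, v2⟩ := g1.dir s g2 t t1
  refine ⟨v, PO.tr v1 s1, (((s2.mono v1).and (t2.mono v2)).and
    (fc_sur hc (PO.l v1) he (lt_max_of_lt_left x1))).imp fun G ⟨⟨a1, a2⟩, j, a3⟩ =>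
      ⟨j, not_lt.1 fun hj => x2 ?_, show S (e δ G j) G from a3 ▸ a2⟩⟩
  exact Finset.mem_image.2 ⟨j, Finset.mem_range.2 hj, (a1 j hj).symm.trans a3⟩

variable {B L : Type} [MeasurableSpace B] [MeasurableSpace L] {P : Par B L} {θ : Tg B}

theorem kill2 (h : NS P c p θ) (hc : Good c) (hp : c p p) (he : Lv c e) {D Kp : Od → Set U → Sn}
    {Z : Od → Set U → Zt} (nD : ∀ ξ, NB c (D ξ)) (nZ : ∀ g, NB c (Z g)) (nK : ∀ g, NB c (Kp g))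
    (g0 : ∀ ξ, Fc c p fun G => ∀ m, ∃ k, m ≤ k ∧ D ξ G k)
    (g1 : ∀ ξ g, Fc c p fun G => ∃ m, ∀ k, m ≤ k → D ξ G k → (Z g G).A k)
    (g2 : ∀ f : Set U → ℕ → ℕ, NB c f → Club fun g => Fc c p fun G =>
      G2 (fun j => D (e g G j) G) (fun j i => D (e (e g G j) G i) G) (Z g G) (f G))
    (hK : Club fun g => Fc c p fun G => θ.Plus (fun G => (Z g G).K) (Kp g) G ∧
      ∀ k, (Z g G).A k → ¬ Kp g G k) : False := by
  have := fun ξ => h.conv (nD ξ)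
  choose C c1 c2 using this
  have c3 : ∀ ξ, Fc c p fun G => θ.Conv (C ξ) G ∧ ∀ i, C ξ G i → D ξ G i := fun ξ =>
    ((c2 ξ).and (g0 ξ)).imp fun G a => ⟨(a.1 a.2).1, (a.1 a.2).2.2⟩
  have ny : ∀ δ i, NB c fun G => C (e δ G i) G := fun δ i => (he.no δ i).sel c1
  have nx : NB c fun G i => C (e w0 G i) G := nb_pi (ny w0)
  obtain ⟨S, s1, s2⟩ := h.ctr nx
  have s3 := s2.mp (.all fun i => (fc_at he w0 (S := fun ξ G => C ξ G = C (e w0 G i) G →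
    θ.Conv (fun G => C (e w0 G i) G) G) fun ξ => ((h.cg_Conv (c1 ξ) (ny w0 i)).and (c3 ξ)).imp
      fun G a e => a.1 e a.2.1).imp fun G a => a i rfl)
  obtain ⟨n, hn⟩ := Ub.fiber (I := fun _ => True) (fun δ => ⟨δ + 1, lt_add_one δ, trivial⟩)
    (fun ξ (n : ℕ) => ∃ r, c r p ∧ Fc c r (θ.Cl n (fun G i => C (e w0 G i) G) S (C ξ))) fun ξ _ =>
      let ⟨r, r1, n, r2⟩ := (((h.cl nx s1 (c1 ξ)).mp s3).mp ((c3 ξ).imp fun _ a => a.1)).ex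
        (fun n => (h.nb_Cl nx s1 (c1 ξ)).dec) p hp
      ⟨n, r, r1, r2⟩
  obtain ⟨q, δ, q1, q2⟩ := ub_idx hc he fun δ => (hn δ).imp fun _ a => ⟨a.1, a.2.2⟩
  have q3 : Fc c q fun G => ∀ m, ∃ i, m ≤ i ∧
      θ.Cl n (fun G i => C (e w0 G i) G) S (fun G => C (e δ G i) G) G :=
    (q2.and ((Fc.all fun i => fc_at he δ (S := fun ξ G => C ξ G = C (e δ G i) G →
      θ.Cl n _ S (C ξ) G → θ.Cl n _ S (fun G => C (e δ G i) G) G)
        fun ξ => h.cg_Cl nx s1 (c1 ξ) (ny δ i)).mono q1)).imp fun G a m =>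
          (a.1 m).imp fun i b => ⟨b.1, a.2 i i rfl b.2⟩
  obtain ⟨f, f1, f2⟩ := fun_ok c q _ (fun m i => (nb_const (m ≤ i)).and (h.nb_Cl nx s1 (ny δ i))) q3
  have m1 := NB.ms f1
  have m2 := NB.ms (nb_pi (ny δ))
  have nz : ∀ j, NB c fun G => C (e δ G (f G j)) G := fun j => by
    have : (fun G => C (e δ G (f G j)) G) = fun G k => ∃ i, f G j = i ∧ C (e δ G i) G k := by
      ext G k; simp
    rw [this]
    exact nb_pi fun k => NB.ex fun i => NB.and (nb_of (by fun_prop)) ((ny δ i).ap k)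
  obtain ⟨u, u', u1, u2, u3⟩ : ∃ u u' : Set U → ℕ → Sn, _ := h.trap n nx s1 (nb_pi nz)
  have u4 := (u3.mono q1).mp ((f2.and ((Fc.all fun j => Fc.all fun i =>
    h.cg_Cl (n := n) nx s1 (ny δ i) (nz j)).mono q1)).imp fun G a j => a.2 j _ rfl (a.1 j).2)
  have m3 := NB.ms u1; have m4 := NB.ms u2
  obtain ⟨t, t1, t2⟩ := fun_ok c q (fun a m G => Nx (u G) id a m ∧ Nx (u' G) (f G) a m)
    (fun a m => nb_of (by unfold Nx; fun_prop)) (u4.imp fun G a i =>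
      let ⟨m, hm⟩ := nx_ex id a.2.2.2.1 i; let ⟨m', hm'⟩ := nx_ex (f G) a.2.2.2.2 i
      ⟨max m m', hm.mono (le_max_left _ _), hm'.mono (le_max_right _ _)⟩)
  obtain ⟨g, ⟨⟨k1, k2⟩, k3⟩, k4⟩ := ((((g2 t t1).and hK).and (club_gt δ)).and (club_gt w0)).exists
  have m5 := NB.ms (nZ g)
  refine Fc.not_false (PO.l q1) ((((u4.and t2).and f2).and ((((k1.and k2).and
    (h.trap_elim u1 u2 (nb_of (f := fun G => (Z g G).K) (by fun_prop)) (nK g))).and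
    ((fc_sur hc hp he (lt_max_of_lt_left k3)).and (fc_sur hc hp he (lt_max_of_lt_left k4)))).and
    (((fc_at he w0 fun ξ => (c3 ξ).imp fun _ a => a.2).and
      (fc_at he δ fun ξ => (c3 ξ).imp fun _ a => a.2)).and (fc_at he δ fun ξ => g1 ξ g)) |>.mono q1)).imp
    fun G ⟨⟨⟨a1, a2⟩, a3⟩, ⟨⟨⟨a4, a5⟩, a6⟩, ⟨j1, a7⟩, j2, a8⟩, ⟨a9, a10⟩, a11⟩ => ?_)
  obtain ⟨j, b1, b2⟩ := a6 a1.1 a5.1
    (often_of a4 (j0 := j2) (f := id) (fun j k hk => a8 ▸ a9 j k (a1.2.1 j k hk)) (fun _ => le_rfl)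
      fun a => (a2 a).1)
    (often_of a4 (j0 := j1) (f := f G) (fun j k hk => a7 ▸ a10 _ k (a1.2.2.1 j k hk))
      (fun j => (a3 j).1) fun a => (a2 a).2)
  obtain ⟨m, hm⟩ := a11 (f G j)
  refine b2 fun k => ?_
  obtain ⟨i, b3, b4⟩ := b1 (max m k)
  exact ⟨i, (le_max_right _ _).trans b3, b4,
    a5.2 i (hm i ((le_max_left _ _).trans b3) (a10 _ i (a1.2.2.1 j i b4)))⟩

end Pool.Agent.MP_5baa61_gt.JC
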