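import Pool.Agent.MP_5baa61_gt.JC.Spec

/-! Assembly of part C: every stage with a system of names has a killing extension. -/

namespace Pool.Agent.MP_5baa61_gt.JC

open Set Pool.Agent.MP_5baa61_gt.JA Pool.Agent.MP_5baa61_gt.JK Pool.Agent.MP_5baa61_gt.JB
open Pool.Agent.MP_b60a07_lc.H92 (Od U Rl t0 Good Ext Ub)
open scoped Classical

/-- Every stage with a system of names has an extension above which no such system persists. -/
def S_mainR (hk : S_keep) : Prop := ∀ b0 g0 e, Lv b0 e → ∀ (s : St (kindP hk b0 g0)) (p : U)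
  (θ : Tg Bs), s.b p p → NS par s.b p θ → (∀ ν, NB s.b ν → NB s.b (θ.Reg ν)) →
    ∃ (s' : St (kindP hk b0 g0)) (q : U), s.le s' ∧ s'.b q p ∧
      ∀ (s'' : St (kindP hk b0 g0)) (θ' : Tg Bs), s'.le s'' → NS par s''.b q θ' →
        Per s.b s''.b q θ θ' → False

theorem main_of {hk : S_keep} (hp : S_pool hk) (hg : S_gen hk) (h0 : S_base) (h1 : S_run)
    (h2 : S_flag) (h3 : S_k1) (h4 : S_ps1) : S_mainR hk := by
  intro b0 g0 e lv0 s p θ m ns nR
  obtain ⟨lv, ⟨T, a, X, tk⟩, f, hf, kp⟩ := hp b0 g0 e lv0 s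
  obtain ⟨ν0, β, β0, n0, nβ, nβ0, hb⟩ := h0 s.b p θ ns
  obtain ⟨k1, k2, -⟩ := @kp inferInstance
  obtain ⟨Z, Kp, μ, N, rc⟩ := h1 s.b p θ ν0 β β0 e T a X (VV e f) s.g m ns n0 nβ nβ0 lv tk.nT tk.nX
    k1 k2 hb
  have fl := (h2 s.b p θ ν0 β β0 e T a X (VV e f) Z Kp μ N s.g m ns n0 nβ lv tk.nT kp
    (hb.imp fun _ h => h.1) rc).and (club_gt w0)
  have mβ := NB.ms nβ
  have nH := nb_hs lv tk.nT rc.nZ
  have run : Run s.b p e (fun G => (β G).2.2) T a X (VV e f) Z := by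
    refine ⟨s.g, m, lv, tk, nb_of (by fun_prop), k1, rc.nZ, k2, fun g h => ?_,
      fun g h => (rc.post g h).imp fun _ h => h.ps2,
      fl.mono fun g h => (h.1.and (rc.post g h.2.le)).imp fun _ h => h.2.ps3 h.1,
      fun g h => (rc.post g h).imp fun _ h => h.ps4,
      fun g h => (rc.post g h).imp fun _ h m i hi =>
        ⟨fun p hp => (h.zok.2.1 m p).1 hp i hi, fun k hk => (h.zok.2.2 m k).1 hk i hi⟩⟩
    have mH := NB.ms (nH g)
    have nF : NB s.b fun (_ : Set U) (_ : ℕ) => False := nb_const _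
    refine (((hb.and (rc.pre g h)).and (ns.fin nF)).and (ns.comp_elim
      (ν := fun G => nuL (β G).1 (HH (β G).2.1 (hs e T Z g G))) (nb_of (by fun_prop)) nF)).imp
      fun G ⟨⟨⟨a1, a2⟩, a3⟩, a4⟩ => h4 _ _ _ _ a1.1.ok.1 a1.1.ok.2.1 a1.1.ok.2.2.1 a2.gd
        fun a5 => a4 a2.cmp (a3 fun h => let ⟨_, _, h⟩ := h 0; h) (a5.mono fun _ _ => trivial)
  obtain ⟨s', D, le1, nD, hD⟩ := hg b0 g0 s p e _ T a X f Z hf run
  obtain ⟨q, q1, q2⟩ := ns.nb_One.dec p m
  refine ⟨s', q, le1, le1.1.le q1, fun s'' θ' le2 ns' per => ?_⟩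
  obtain ⟨G0, G1, G2⟩ := hD s'' le2
  have ex : Ext s.b s''.b := (le1.trans le2).1
  have mq := s.g.l q1
  have qp := ex.le q1
  have lv' : Lv s''.b e := (hp b0 g0 e lv0 s'').1
  have nD' : ∀ ξ, NB s''.b (D ξ) := fun ξ => (nD ξ).ext le2.1
  have G2' : ∀ h : Set U → ℕ → ℕ, NB s''.b h → Club fun g => Fc s''.b q fun G =>
      JB.G2 (fun j => D (e g G j) G) (fun j i => D (e (e g G j) G i) G) (Z g G) (h G) :=
    fun h hh => (G2 h hh).mono fun _ h => h.mono qp
  rcases q2 with q2 | q2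
  · refine h3 s''.b q θ' ν0 β e T Z μ N D ⟨s''.g, ex.le mq, ns', lv', n0.ext ex, nβ.ext ex,
      fun z => (tk.nT z).ext ex, fun z => (rc.nZ z).ext ex, fun z => (rc.nμ z).ext ex,
      fun z => (rc.nN z).ext ex, nD', ?_, fun g => ?_, fl.mono fun g h => ?_,
      fun ξ => (G0 ξ).mono qp, G2'⟩
    · have m0 := NB.ms n0
      refine Fc.and ((per.Reg n0).mp ?_)
        (((hb.mono q1).imp fun _ h => h.1.ok).up (nb_of (by fun_prop)) ex mq)
      exact ((hb.mono q1).imp fun _ h => h.1.reg).up (nR _ n0) ex mq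
    · have := NB.ms (rc.nZ g)
      exact ((rc.z1 g).mono q1).up (nb_of (by fun_prop)) ex mq
    · have mH := NB.ms (nH g)
      have mZ := NB.ms (rc.nZ g)
      have mμ := NB.ms (rc.nμ g)
      have mN := NB.ms (rc.nN g)
      have nν : NB s.b fun G => nuD (β G).1 (β G).2.1 (hs e T Z g G) := nb_of (by fun_prop)
      have a1 := (((h.1.and (rc.post g h.2.le)).mono q1).and q2)
      have a2 := a1.imp fun _ h => h.1.2.nhit h.2 h.1.1
      have a3 := a1.imp fun _ h => h.1.2.sep h.2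
      exact (((per.NHit (rc.nμ g)).mp ((a2.imp fun _ h => h.1).up (ns.nb_NHit (rc.nμ g)) ex mq)).and
        ((a2.imp fun _ h => h.2).up (nb_of (by fun_prop)) ex mq)).and
        (((per.Sep nν (rc.nN g)).mp ((a3.imp fun _ h => h.1).up (ns.nb_Sep nν (rc.nN g)) ex mq)).and
        ((a3.imp fun _ h => h.2).up (nb_of (by fun_prop)) ex mq))
  · refine kill2 ns' s''.g (ex.le mq) lv' nD' (fun z => (rc.nZ z).ext ex)
      (fun z => (rc.nK z).ext ex) (fun ξ => (G0 ξ).mono qp) (fun ξ g => (G1 ξ g).mono qp) G2'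
      (fl.mono fun g h => ?_)
    have mZ := NB.ms (rc.nZ g)
    have mK := NB.ms (rc.nK g)
    have nK : NB s.b fun G => (Z g G).K := nb_of (by fun_prop)
    have a2 := (((h.1.and (rc.post g h.2.le)).mono q1).and q2).imp
      fun _ h => h.1.2.plus h.2 h.1.1
    exact ((per.Plus nK (rc.nK g)).mp ((a2.imp fun _ h => h.1).up
      (ns.nb_Plus nK (rc.nK g)) ex mq)).and ((a2.imp fun _ h => h.2).up (nb_of (by fun_prop)) ex mq)

end Pool.Agent.MP_5baa61_gt.JC
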