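import Mathlib.Data.Finsupp.Encodable
import Pool.Agent.MP_5baa61_gt.JK.MDef
import Pool.Agent.MP_5baa61_gt.JF.All

/-! The norm of a cell system with a list of requirements. -/

namespace Pool.Agent.MP_5baa61_gt.JC

open Set Pool.Agent.MP_5baa61_gt.JA Pool.Agent.MP_5baa61_gt.JK
open scoped Classical

abbrev Lst : Type := ℕ → Pat → Prop

/-- A decreasing sequence of requirements. -/
structure IsL (UU : Lst) : Prop where
  req : ∀ l, Req (UU l)
  anti : ∀ l p, UU (l + 1) p → UU l p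

/-- The finite set `x` carries a state of level `c + 1`. -/
def nuL (lam : Lam) (UU : Lst) : Nu := fun c x =>
  ∃ s : Sk, Mod lam (c + 1) (c + 1) (s, x) ∧ Meets (UU (c + 1)) (s, x)

/-- A list cut down by one more requirement. -/
def capL (UU : Lst) (T : Pat → Prop) : Lst := fun l p => UU l p ∧ T p

theorem IsL.le {UU : Lst} (h : IsL UU) {l l' : ℕ} {p : Pat} (h1 : UU l p) (e : l' ≤ l) :
    UU l' p := by
  induction e with
  | refl => exact h1
  | step _ ih => exact ih (h.anti _ _ h1)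

theorem IsL.cap {UU : Lst} (h : IsL UU) {T : Pat → Prop} (hT : Req T) : IsL (capL UU T) :=
  ⟨fun l p q hp e => ⟨h.req l p q hp.1 e, hT p q hp.2 e⟩, fun l p hp => ⟨h.anti l p hp.1, hp.2⟩⟩

theorem mod_ge {lam : Lam} {a m : ℕ} {σ : Sta} (h : Mod lam a m σ) {e : ℕ} (he : e ∈ σ.2) :
    a ≤ e :=
  let ⟨J, h1, h2⟩ := h.2.2.2 e he; (h.2.2.1 J h1).1.trans h2.1

theorem mod_offer {lam : Lam} {a m : ℕ} {σ : Sta} (h : Mod lam a m σ) :
    ∃ c ∈ σ.1.2, ∃ J ∈ c, J ∈ σ.1.1 :=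
  let ⟨c, h1⟩ := h.2.1.nonempty; let ⟨J, h2⟩ := (h.1.2 c h1).2; ⟨c, h1, J, h2, (h.1.2 c h1).1 h2⟩

theorem mod_meet {lam : Lam} (hl : CS lam) {a m : ℕ} {σ : Sta} (h : Mod lam a m σ) (h1 : 1 ≤ m)
    {J : Cell} (hJ : J ∈ σ.1.1) : ∃ e ∈ σ.2, inC J e := hl.ne _ _ (hl.le (h.2.2.1 J hJ).2 h1)

theorem norm_nuL {lam : Lam} {UU : Lst} (hl : CS lam) (hU : IsL UU) : Norm (nuL lam UU) := by
  refine ⟨fun c x ⟨s, h1, h2⟩ => ⟨s, h1.both hl (by omega) (by omega),
    fun u hu => hU.anti _ _ (h2 u hu)⟩, fun c x ⟨s, h1, _⟩ => ⟨?_, fun i hi => ?_⟩,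
    fun c x ⟨s, h1, h2⟩ A => ?_⟩
  · obtain ⟨_, _, J, _, h3⟩ := mod_offer h1
    exact let ⟨e, h4, _⟩ := mod_meet hl h1 (by omega) h3; ⟨e, h4⟩
  · have := mod_ge h1 hi; omega
  · obtain ⟨σ', h3, h4, h5⟩ := JF.all_split lam _ _ _ (A : Set ℕ) hl h1
    exact ⟨σ'.2, h3.2, ⟨σ'.1, h4.both hl (by omega) le_rfl, fun u hu => hU.anti _ _
      (h2.sub hl (hU.req _) h3 h4 (by omega) u hu)⟩, h5⟩

theorem nuL.mono {lam : Lam} {UU UU' : Lst} (e : ∀ l p, UU l p → UU' l p) {c : ℕ} {x : Finset ℕ}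
    (h : nuL lam UU c x) : nuL lam UU' c x :=
  let ⟨s, h1, h2⟩ := h; ⟨s, h1, fun u hu => e _ _ (h2 u hu)⟩

theorem null_of_le {ν ν' : Nu} (e : ∀ c x, ν c x → ν' c x) {A : Sn} (h : Null ν' A) : Null ν A :=
  let ⟨c, hc⟩ := h; ⟨c, fun x hx => hc x (e c x hx)⟩

theorem adm_of_le {ν0 ν ν' : Nu} (e : ∀ c x, ν c x → ν' c x) (h : Adm ν0 ν') : Adm ν0 ν :=
  fun c => let ⟨c', hc⟩ := h c; ⟨c', fun x hx => hc x (e _ x hx)⟩

theorem not_null {ν : Nu} {A : Sn} : ¬ Null ν A ↔ ∀ c, ∃ x, ν c x ∧ ∀ i ∈ x, A i := by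
  simp only [Null, not_exists, not_forall, not_and, not_not, exists_prop]

/-- A state inside `A` meets the requirement to have a cell inside `A`. -/
theorem meets_inp {σ : Sta} (h : SkWf σ.1) {A : Sn} (e : ∀ i ∈ σ.2, A i) : Meets (InP A) σ :=
  fun c hc => let ⟨J, hJ⟩ := (h.2 c hc).2; ⟨J, hJ, fun i hi _ => e i hi⟩

theorem rsn_le_cap {lam : Lam} {UU : Lst} {A : Sn} (c : ℕ) (x : Finset ℕ)
    (h : rsn (nuL lam UU) A c x) : nuL lam (capL UU (InP A)) c x :=
  let ⟨⟨s, h1, h2⟩, h3⟩ := h; ⟨s, h1, fun u hu => ⟨h2 u hu, meets_inp h1.1 h3 u hu⟩⟩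

section
variable {Z : Type*} [MeasurableSpace Z]

@[fun_prop] theorem m_lt {a : Z → ℕ} (h : Measurable a) (n : ℕ) : Measurable fun z => n < a z :=
  (Measurable.of_discrete (f := fun m => n < m)).comp h

@[fun_prop] theorem m_Mod {lam : Z → Lam} (h : Measurable lam) (a m : ℕ) (σ : Sta) :
    Measurable fun z => Mod (lam z) a m σ := by
  unfold JA.Mod; fun_prop

@[fun_prop] theorem m_Meets {U : Z → Pat → Prop} (h : Measurable U) (σ : Sta) :
    Measurable fun z => Meets (U z) σ := by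
  unfold Meets; fun_prop

@[fun_prop] theorem m_nuL {lam : Z → Lam} {UU : Z → Lst} (h : Measurable lam)
    (h' : Measurable UU) : Measurable fun z => nuL (lam z) (UU z) := by
  unfold nuL; fun_prop

@[fun_prop] theorem m_capL {UU : Z → Lst} {T : Z → Pat → Prop} (h : Measurable UU)
    (h' : Measurable T) : Measurable fun z => capL (UU z) (T z) := by
  unfold capL; fun_prop

@[fun_prop] theorem m_rsn {ν : Z → Nu} {A : Z → Sn} (h : Measurable ν) (h' : Measurable A) :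
    Measurable fun z => rsn (ν z) (A z) := by
  unfold rsn; fun_prop

@[fun_prop] theorem m_Null {ν : Z → Nu} {A : Z → Sn} (h : Measurable ν) (h' : Measurable A) :
    Measurable fun z => Null (ν z) (A z) := by
  unfold Null; fun_prop

@[fun_prop] theorem m_Inf {A : Z → Sn} (h' : Measurable A) : Measurable fun z => Inf (A z) := by
  unfold JK.Inf; fun_prop

@[fun_prop] theorem m_InP {A : Z → Sn} (h' : Measurable A) : Measurable fun z => InP (A z) := by
  unfold InP; fun_prop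

@[fun_prop] theorem m_TLp {a : Z → ℕ} {X : Z → Move → Prop} (h : Measurable a)
    (h' : Measurable X) : Measurable fun z => TLp (a z) (X z) := by
  unfold TLp; fun_prop

@[fun_prop] theorem m_Legal {Pi : Z → Cell → Prop} {a : Z → ℕ} {A : Z → Sn} (h0 : Measurable Pi)
    (h : Measurable a) (h' : Measurable A) (t : Move) :
    Measurable fun z => Legal (Pi z) (a z) (A z) t := by
  unfold Legal; fun_prop

end

end Pool.Agent.MP_5baa61_gt.JC
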