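import Pool.Agent.MP_5baa61_gt.JC.Spec

/-! Positivity over a history and the sequents. -/

namespace Pool.Agent.MP_5baa61_gt.JC

open Set Pool.Agent.MP_5baa61_gt.JA Pool.Agent.MP_5baa61_gt.JK Pool.Agent.MP_5baa61_gt.JB
open scoped Classical

/-- The requirements of the history ask for a cell inside the side set. -/
def InA (H : Hs) : Prop := ∀ j l p, (H j).2.req l p → p.1.Nonempty → InP (H j).2.A p

variable {lam : Lam} {UU : Lst} {H : Hs} {N : Sn}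

theorem null_ex {ν : Nu} (hn : Norm ν) {A : ℕ → Sn} (n : ℕ) (h : ∀ j < n, Null ν (A j)) :
    Null ν fun e => ∃ j < n, A j e := by
  induction n with
  | zero => exact hn.empty fun _ ⟨_, h, _⟩ => absurd h (Nat.not_lt_zero _)
  | succ n ih =>
    exact hn.union (ih fun j hj => h j (by omega)) (h n (by omega)) fun e ⟨j, h1, h2⟩ =>
      (Nat.lt_succ_iff_lt_or_eq.1 h1).imp (fun h3 => ⟨j, h3, h2⟩) fun h3 : j = n => h3 ▸ h2

theorem null_compl (hl : CS lam) (hA : InA H) (j : ℕ) :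
    Null (nuL lam (HH UU H)) fun e => ¬ (H j).2.A e := ⟨j, fun x ⟨s, h1, h2⟩ => by
  obtain ⟨u, a1, J, a2, -⟩ := mod_offer h1
  obtain ⟨C, a3, a4⟩ := hA j _ _ ((h2 u a1).2 j (by omega)) ⟨J, a2⟩
  obtain ⟨e, a5, a6⟩ := mod_meet hl h1 (by omega) ((h1.1.2 u a1).1 a3)
  exact ⟨e, a5, not_not.2 (a4 e a5 a6)⟩⟩

theorem pos_in (hl : CS lam) (hU : IsL UU) (hH : GH H) (hA : InA H)
    (h : ¬ Null (nuL lam (HH UU H)) N) (n c : ℕ) :
    ∃ x, nuL lam (HH UU H) c x ∧ ∀ e ∈ x, N e ∧ ∀ j < n, (H j).2.A e := by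
  have hn := norm_nuL hl (isL_HH hU hH)
  refine not_null.1 (fun h1 => h (hn.union h1 (null_ex hn n fun j _ => null_compl hl hA j)
    fun e he => ?_)) c
  refine or_iff_not_imp_right.2 fun hc => ⟨he, fun j hj => not_not.1 fun h2 => hc ⟨j, hj, h2⟩⟩

theorem null_nuD_of_nuZ (hl : CS lam) (hU : IsL UU) (hH : GH H) {l : ℕ}
    (h : Null (nuZ lam UU H l) N) : Null (nuD lam UU H) N :=
  let ⟨c, hc⟩ := h
  ⟨max c l, fun x ⟨s, hx⟩ => hc x ⟨s, hx.le hl hU hH (by omega) (by omega) (by omega)⟩⟩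

theorem ps1_of {Pi : Cell → Prop} (hl : CS lam) (ho : On lam Pi) (hU : IsL UU) (hH : GH H)
    (hA : InA H) (h : ¬ Null (nuL lam (HH UU H)) N) : Ps1 Pi H := fun l => by
  obtain ⟨x, ⟨s, a1, a2⟩, a3⟩ := pos_in hl hU hH hA h l l
  obtain ⟨u, a4, J, a5, -⟩ := mod_offer a1
  refine ⟨(u, x), ⟨J, a5⟩, fun C hC => ?_,
    fun j hj => (hH j).1.anti _ _ ((a2 u a4).2 j (by omega))⟩
  have a6 := (a1.1.2 u a4).1 hC
  exact ⟨ho.1 C x (hl.le (a1.2.2.1 C a6).2 (by omega)), by have := (a1.2.2.1 C a6).1; omega,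
    mod_meet hl a1 (by omega) a6, fun k hk _ => (a3 k hk).2⟩

theorem ps4_empty {Pi : Cell → Prop} {z : Zt} (h : ∀ m l, z.Lu m l ∅) : Ps4 Pi H z :=
  fun m _ _ => ⟨∅, fun l _ => h m l, ⟨0, by simp, by simp⟩, by simp⟩

theorem sel_piT {l : ℕ} {c : Finset ℕ} (h : ∀ k ∈ c, l ≤ k) : Sel PiT l c := by
  obtain ⟨σ, e⟩ : ∃ σ : ℕ →₀ Cell, ∀ k ∈ c, σ k = JF.sing k :=
    ⟨Finsupp.onFinset c (fun k => if k ∈ c then JF.sing k else 0)
      fun k hk => not_not.1 fun hn => hk (if_neg hn), fun k hk => if_pos hk⟩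
  refine ⟨σ, fun k hk => ?_, fun k hk k' hk' h1 => ?_⟩
  · rw [e k hk]; exact ⟨rfl, ⟨le_rfl, Nat.lt_succ_self k⟩, h k hk⟩
  · rw [e k hk, e k' hk'] at h1; exact congrArg Prod.fst h1

theorem ps4_sep (hl : CS lam) (hU : IsL UU) (hH : GH H) {z : Zt} {N : ℕ → Sn}
    (h : ∀ m, ¬ Null (nuD lam UU H) (N m))
    (e : ∀ m l c, nuD lam UU H l c → (∀ k ∈ c, N m k) → z.Lu m l c) : Ps4 PiT H z :=
  fun m l0 l => by
  obtain ⟨c, a1, a2⟩ := not_null.1 (h m) (max l0 l)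
  have hn := norm_nuD hl hU hH
  refine ⟨c, fun l' hl' => e m l' c (hn.le a1 (by omega)) a2,
    sel_piT fun k hk => (le_max_right _ _).trans ((hn.ne _ _ a1).2 k hk), fun k hk j hj => ?_⟩
  obtain ⟨s, -, -, m0, -, a3, -⟩ := a1
  exact (a3 k hk j (by omega)).1

theorem legal_mono {Pi : Cell → Prop} {a : ℕ} {A A' : Sn} (e : ∀ i, A i → A' i) {t : Move}
    (h : Legal Pi a A t) : Legal Pi a A' t :=
  let ⟨g, h1, h2⟩ := h
  ⟨g, fun q hq => ⟨(h1 q hq).1, (h1 q hq).2.1, (h1 q hq).2.2.1, e _ (h1 q hq).2.2.2⟩, h2⟩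

@[fun_prop] theorem m_capLL {Z : Type*} [MeasurableSpace Z] {UU UU' : Z → Lst}
    (h1 : Measurable UU) (h2 : Measurable UU') : Measurable fun z => capLL (UU z) (UU' z) := by
  unfold capLL; fun_prop

theorem Gd.inA (h : Gd H) : InA H := fun j => (h j).2.2

theorem coh_ok : S_coh := fun lam UU H hl hU hg hC c => by
  have hH := hg.gh
  obtain ⟨m0, h0⟩ := bd_ex H (c + 1) (c + 1)
  choose n n1 n2 using fun j => hC j m0
  obtain ⟨L, hL⟩ : ∃ L, c + 1 ≤ L ∧ ∀ j < c + 1, n j ≤ L :=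
    ⟨c + 1 + (Finset.range (c + 1)).sup n, by omega, fun j hj =>
      (Finset.le_sup (Finset.mem_range.2 hj)).trans (Nat.le_add_left _ _)⟩
  have hn := norm_nuL hl (isL_HH hU hH)
  obtain ⟨c', hc'⟩ := null_ex hn L fun j _ => null_compl hl hg.inA j
  refine ⟨max L c' + 1, fun x hx => ?_⟩
  obtain ⟨y, y1, y2, y3 | y3⟩ := hn.split _ x hx (x.filter fun e => ∃ j < L, ¬ (H j).2.A e)
  · obtain ⟨i, a1, a2⟩ := hc' y (hn.le y2 (le_max_right _ _))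
    exact absurd (Finset.mem_filter.1 (y3 i a1)).2 a2
  have a3 : ∀ k ∈ y, ∀ j < L, (H j).2.A k := fun k hk j hj => not_not.1 fun h =>
    y3 k hk (Finset.mem_filter.2 ⟨y1 hk, j, hj, h⟩)
  obtain ⟨s, a1, a2⟩ := hn.le y2 (le_max_left _ _)
  refine ⟨y, y1, s, a1.both hl (by omega) (by omega), fun u hu => hU.le (a2 u hu).1 (by omega), m0,
    h0, fun k hk j hj => ⟨a3 k hk j (by omega), n2 j k fun i hi => a3 k hk i ?_⟩,
    fun u hu j hj => ⟨(hH j).1.le ((a2 u hu).2 j (by omega)) (by omega), n1 j _ fun i hi =>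
      (hH i).1.le ((a2 u hu).2 i ?_) ?_⟩⟩ <;>
  · have := hL.2 j hj; omega

theorem ps1_ok : S_ps1 := fun _ _ _ _ hl ho hU hg h => ps1_of hl ho hU hg.gh hg.inA h

theorem ps4_ok : S_ps4 := fun _ _ _ _ _ _ hl hU hg hP h e m l0 l =>
  let ⟨c, h1, ⟨σ, h2, h3⟩, h4⟩ := ps4_sep hl hU hg.gh h e m l0 l
  ⟨c, h1, ⟨σ, fun k hk => ⟨by
    have := hP (σ k).1
    rwa [← (h2 k hk).1] at this, (h2 k hk).2⟩, h3⟩, h4⟩

end Pool.Agent.MP_5baa61_gt.JC
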