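import Pool.Agent.MP_5baa61_gt.JC.Core
import Pool.Agent.MP_5baa61_gt.JC.Kill2
import Pool.Agent.MP_5baa61_gt.JB.Rec

/-! Part C: definitions, measurability, basic facts, statements. -/

namespace Pool.Agent.MP_5baa61_gt.JC

open Set Pool.Agent.MP_5baa61_gt.JA Pool.Agent.MP_5baa61_gt.JK Pool.Agent.MP_5baa61_gt.JB
open Pool.Agent.MP_b60a07_lc.H92 (Od U Rl t0 Good Ext Ub)
open scoped Classical

/-- A base: cell system, list, family of cells. -/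
abbrev Bs : Type := Lam × Lst × (Cell → Prop)

def okB (ν0 : Nu) (β : Bs) : Prop :=
  CS β.1 ∧ On β.1 β.2.2 ∧ IsL β.2.1 ∧ Adm ν0 (nuL β.1 β.2.1)

def subB (β : Bs) (u : Lst) : Prop := IsL u ∧ ∀ l p, u l p → β.2.1 l p

/-- The list after the step with record `z`. -/
def HP (UU : Lst) (H : Hs) (z : Zt) : Lst := fun l p => HH UU H l p ∧ z.req l p

abbrev PL (UU : Lst) (H : Hs) (V : Vf) (K : Sn) (Y : Lst) : Lst :=
  capLL (HH UU H) (Prom H V K Y)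

def Z1 (z : Zt) : Prop := IsL z.req ∧ (∀ m, Req (z.cum m)) ∧
  ∀ l p, z.req l p → p.1.Nonempty → InP z.A p

def Gd (H : Hs) : Prop := ∀ j, Z1 (H j).2

/-- The cumulative parts of the members of the history are bounded by the history itself. -/
def Coh (H : Hs) : Prop := ∀ j m, ∃ L, (∀ p, (∀ i < L, (H i).2.req L p) → (H j).2.cum m p) ∧
  ∀ k, (∀ i < L, (H i).2.A k) → (H j).2.cumA m k

def ZOk (H : Hs) (z : Zt) : Prop := Z1 z ∧ (∀ m p, z.cum m p ↔ ∀ i < m, (H i).2.req m p) ∧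
  ∀ m k, z.cumA m k ↔ ∀ i < m, (H i).2.A k

/-- The first `l'` members of `H'` occur among the first `l` members of `H`. -/
def Inc (H' : Hs) (l' : ℕ) (H : Hs) (l : ℕ) : Prop := ∀ j' < l', ∃ j < l, H j = H' j'

/-- A state inside `N` starts after `a` and ends well before `n`. -/
def Lg (lam : Lam) (UU : Lst) (H : Hs) (l : ℕ) (N : Sn) (c a n : ℕ) : Prop :=
  ∃ (σ : Sta) (b1 b2 : ℕ), StH lam UU H l (max a (c + 1)) (max (l * JA.RR a + 1) (c + 1) + 1) σ ∧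
    (∀ e ∈ σ.2, N e) ∧ (∀ C ∈ σ.1.1, C.2 ≤ b1) ∧ a ≤ b1 ∧ Bd H l b1 b2 ∧ Bd H l b2 n

/-- The family `Y` produces pairs of `μ`. -/
def Hm (lam : Lam) (UU : Lst) (H : Hs) (Y : Lst) (μ : Mu) : Prop :=
  ∀ (l : ℕ) (L0 : Finset Cell) (y k x1 : Finset ℕ), Y (l + 1) (L0, y) → x1 ⊆ y →
    (∀ J ∈ L0, (∃ e ∈ y, inC J e ∧ e ∈ k) ∧ ∃ τ : Sta, τ.2 ⊆ x1 ∧ GJ lam UU H J (l + 1) τ) →
    ∃ x, x ⊆ x1 ∧ μ l k x

/-- The record of a step. -/
def mkZ (H : Hs) (V : Vf) (a : ℕ) (X : Move → Prop) (fl tl : Prop) (A K : Sn) (Y : Lst)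
    (Lu : ℕ → ℕ → Finset ℕ → Prop) : Zt :=
  (A, fun l p => (fl → Prom H V K Y l p) ∧ (tl → TLp a X p) ∧ InP A p,
    fun m p => ∀ i < m, (H i).2.req m p, fun m k => ∀ i < m, (H i).2.A k, K, Y, Lu)

/-- The record without requirements. -/
def topZ : Zt := (fun _ => True, fun _ _ => True, fun _ _ => True, fun _ _ => True, fun _ => True,
  fun _ _ => True, fun _ _ _ => True)

/-! Basic facts -/

section
variable {lam : Lam} {UU Y : Lst} {H H' : Hs} {V : Vf} {K : Sn} {l l' a a' m m' : ℕ} {σ : Sta}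

theorem Gd.gh (h : Gd H) : GH H := fun j => ⟨(h j).1, (h j).2.1⟩

theorem inc_le (H : Hs) (h : l' ≤ l) : Inc H l' H l := fun j hj => ⟨j, hj.trans_le h, rfl⟩

theorem bd_mono (h : Bd H l a m) (e : Inc H' l' H l) (ea : a' ≤ a) (em : m ≤ m') :
    Bd H' l' a' m' := ⟨by have := h.1; omega, fun j hj b hb =>
  let ⟨i, h1, h2⟩ := e j hj; h2 ▸ (h.2 i h1 b (hb.trans ea)).trans_le em⟩

theorem StH.mono (h : StH lam UU H l a m σ) (hl : CS lam) (hU : IsL UU) (hg : GH H)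
    (e : Inc H' l' H l) (ea : a' ≤ a) (em : m' ≤ m) : StH lam UU H' l' a' m' σ :=
  (h.le hl hU hg le_rfl ea em).sub_hist fun j hj => let ⟨i, h1, h2⟩ := e j hj; ⟨i, h1, h2.symm⟩

theorem nuZ.mono {c c' : ℕ} {x : Finset ℕ} (h : nuZ lam UU H l c x) (hl : CS lam) (hU : IsL UU)
    (hg : GH H) (e : Inc H' l' H l) (ec : c' ≤ c) : nuZ lam UU H' l' c' x :=
  let ⟨s, h1⟩ := h; ⟨s, h1.mono hl hU hg e (by omega) (by omega)⟩

theorem GJ.mono {J : Cell} {τ : Sta} (h : GJ lam UU H J l τ) (hl : CS lam) (hU : IsL UU)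
    (hg : GH H) (e : Inc H' l' H l) (el : l' ≤ l) : GJ lam UU H' J l' τ :=
  let ⟨h1, b1, b2, h2, h3, h4, h5⟩ := h
  ⟨h1.mono hl hU hg e le_rfl (Nat.succ_le_succ (Nat.mul_le_mul_right _ el)), b1, b2, h2, h3,
    bd_mono h4 e le_rfl le_rfl, bd_mono h5 e le_rfl le_rfl⟩

theorem isL_PL (hU : IsL UU) (hg : GH H) (hV : Fm V) : IsL (PL UU H V K Y) :=
  (isL_HH hU hg).capLL (isL_prom hV K Y)

theorem adm_trans {ν0 ν1 ν2 : Nu} (h : Adm ν0 ν1) (h' : Adm ν1 ν2) : Adm ν0 ν2 := fun c =>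
  let ⟨c1, g1⟩ := h c; let ⟨c2, g2⟩ := h' c1
  ⟨c2, fun x hx => let ⟨y, y1, y2⟩ := g2 x hx; let ⟨w, w1, w2⟩ := g1 y y2; ⟨w, w1.trans y1, w2⟩⟩

theorem adm_G (hl : CS lam) (hU : IsL UU) {lam1 : Lam} (UI : Lst)
    (e : ∀ J x l, lam1 J x l → lamG lam UU H J x l) : Adm (nuL lam UU) (nuL lam1 UI) :=
  fun c => ⟨c, fun x ⟨s, h1, _⟩ => by
    obtain ⟨_, _, J, _, h2⟩ := mod_offer h1
    obtain ⟨h3, h4⟩ := h1.2.2.1 J h2
    obtain ⟨τ, h5, h6⟩ := e _ _ _ h4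
    have := Nat.mul_le_mul_left (c + 1) (RR_pos J.1)
    exact ⟨τ.2, h6, τ.1, h5.1.1.both hl h3 (by omega), fun u hu => hU.le (h5.1.2.1 u hu) h3⟩⟩

theorem z1_top : Z1 topZ := ⟨⟨fun _ _ _ _ _ => trivial, fun _ _ _ => trivial⟩,
  fun _ _ _ _ _ => trivial, fun _ _ _ ⟨J, hJ⟩ => ⟨J, hJ, fun _ _ _ => trivial⟩⟩

theorem zok_mkZ (hg : Gd H) (hV : Fm V) (a : ℕ) (X : Move → Prop) (fl tl : Prop) (A : Sn)
    (Lu : ℕ → ℕ → Finset ℕ → Prop) : ZOk H (mkZ H V a X fl tl A K Y Lu) :=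
  ⟨⟨⟨fun l p q hp e => ⟨fun f => (isL_prom hV K Y).req l p q (hp.1 f) e,
      fun f => req_tlp a X p q (hp.2.1 f) e, req_inp A p q hp.2.2 e⟩,
    fun l p hp => ⟨fun f => (isL_prom hV K Y).anti l p (hp.1 f), hp.2⟩⟩,
    fun m p q hp e i hi => (hg i).1.req m p q (hp i hi) e, fun _ _ hp _ => hp.2.2⟩,
    fun _ _ => Iff.rfl, fun _ _ => Iff.rfl⟩

theorem hm_ok (lam : Lam) (UU UI : Lst) (H : Hs) (Pg : Cell → Prop) :
    Hm lam UU H (YI Pg UI) (muL (rl (lamG lam UU H) Pg) UI) :=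
  fun _ _ y _ x1 ⟨s, h1, h2, h3, h4, h5⟩ h6 h7 =>
  ⟨x1.filter fun e => ∃ J ∈ s.1, inC J e, Finset.filter_subset _ _, s, y,
    ⟨h1, h2, fun J hJ => ⟨(h4 J hJ).1, (let ⟨τ, a1, a2⟩ := (h7 J (h3 hJ)).2
      ⟨τ, a2, fun _ he => Finset.mem_filter.2 ⟨a1 he, J, hJ, a2.inC he⟩⟩), (h4 J hJ).2⟩,
      fun _ he => (Finset.mem_filter.1 he).2⟩, (Finset.filter_subset _ _).trans h6, h5,
    fun J hJ => let ⟨e, a1, a2, a3⟩ := (h7 J (h3 hJ)).1; ⟨e, a3, a1, a2⟩⟩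

end

/-! Plain statements -/

def S_coh : Prop := ∀ (lam : Lam) (UU : Lst) (H : Hs), CS lam → IsL UU → Gd H → Coh H →
  Adm (nuD lam UU H) (nuL lam (HH UU H))

def S_ps1 : Prop := ∀ (lam : Lam) (UU : Lst) (Pi : Cell → Prop) (H : Hs), CS lam → On lam Pi →
  IsL UU → Gd H → ¬ Null (nuL lam (HH UU H)) (fun _ => True) → Ps1 Pi H

def S_ps4 : Prop := ∀ (lam : Lam) (UU : Lst) (Pi : Cell → Prop) (H : Hs) (N : ℕ → Sn) (z : Zt),
  CS lam → IsL UU → Gd H → (∀ e, Pi (e, e + 1)) → (∀ m, ¬ Null (nuD lam UU H) (N m)) →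
  (∀ m l c, nuD lam UU H l c → (∀ e ∈ c, N m e) → z.Lu m l c) → Ps4 Pi H z

def S_tool : Prop := ∀ (lam : Lam) (UU : Lst) (H : Hs) (l : ℕ) (N : Sn) (c : ℕ), CS lam → IsL UU →
  Gd H → (¬ Null (nuZ lam UU H l) N → ∀ a, ∃ n, Lg lam UU H l N c a n) ∧
    ∀ (K : Sn) (J : Cell) (n : ℕ), Lg lam UU H l N c J.1 n → n ≤ J.2 →
      NullAt (nuZ lam UU H l) c (fun e => N e ∧ K e) →
        ∃ τ : Sta, (∀ e ∈ τ.2, N e ∧ ¬ K e ∧ inC (J.1, n) e) ∧ GJ lam UU H J l τ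

def S_coreL : Prop := ∀ (lam : Lam) (UU : Lst) (H H' : Hs) (V : Vf) (N K : Sn) (h : ℕ → ℕ)
  (l c : ℕ), CS lam → IsL UU → Gd H' → Inc H (l + 1) H' (l + 1) → Lng h V →
  (∀ a, Lg lam UU H' (l + 1) N c a (h a)) →
  NullAt (nuZ lam UU H' (l + 1)) c (fun e => N e ∧ K e) →
    ¬ NullAt (nuL (lamG lam UU H) (VL V)) l fun e => ¬ K e

def S_coreA : Prop := ∀ (lam : Lam) (UU : Lst) (H H' : Hs) (z : Zt) (μ : Mu) (N K0 K' : Sn)
  (D1 : ℕ → Sn) (D2 : ℕ → ℕ → Sn) (h : ℕ → ℕ) (l c j0 j1 : ℕ), CS lam → IsL UU → Gd H' →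
  Inc H (l + 1) H' (l + 1) → G2 D1 D2 z h → Hm lam UU H z.Y μ →
  (∀ a, (∃ n ≤ h a, Lg lam UU H' (l + 1) N c a n) ∧ ∃ e, a ≤ e ∧ e < h a ∧ K0 e) →
  NullAt (nuZ lam UU H' (l + 1)) c (fun e => N e ∧ K' e) →
  (∀ e, K0 e → D1 j0 e) → (∀ e, N e → D1 j1 e) → ¬ NullAt (sec μ K0) l fun e => ¬ K' e

def S_coreB : Prop := ∀ (lam : Lam) (UU : Lst) (H H' : Hs) (z : Zt) (N : ℕ → Sn) (R : Sn)
  (D1 : ℕ → Sn) (D2 : ℕ → ℕ → Sn) (h : ℕ → ℕ) (l m j0 : ℕ), CS lam → IsL UU → Gd H →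
  (∀ j' < l, ∃ j, H j = H' j') → G2 D1 D2 z h →
  (∀ m l c, z.Lu m l c → nuD lam UU H l c ∧ ∀ e ∈ c, N m e) →
  (∀ a, ∃ c ≤ h a, NullAt (nuZ lam UU H' l) c fun e => D2 j0 a e ∧ ¬ R e) →
    ¬ Null (nuD lam UU H) fun e => N m e ∧ R e

/-! Measurability -/

section
variable {Z : Type*} [MeasurableSpace Z]

@[fun_prop] theorem m_lt' {a : Z → ℕ} (h : Measurable a) (n : ℕ) : Measurable fun z => a z < n :=
  (Measurable.of_discrete (f := fun m => m < n)).comp h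

@[fun_prop] theorem m_muL {lam : Z → Lam} {UU : Z → Lst} (h : Measurable lam)
    (h' : Measurable UU) : Measurable fun z => muL (lam z) (UU z) := by
  unfold muL; fun_prop

variable {lam : Z → Lam} {UU Y : Z → Lst} {H : Z → Hs} {V : Z → Vf} {K : Z → Sn}

@[fun_prop] theorem m_Bd (h : Measurable H) (l a m : ℕ) : Measurable fun z => Bd (H z) l a m := by
  unfold Bd; fun_prop

@[fun_prop] theorem m_BB (h : Measurable H) (l m k : ℕ) : Measurable fun z => BB (H z) l m k := by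
  unfold BB; fun_prop

@[fun_prop] theorem m_RQ (h : Measurable H) (l a m : ℕ) : Measurable fun z => RQ (H z) l a m := by
  unfold RQ; fun_prop

@[fun_prop] theorem m_StH (h1 : Measurable lam) (h2 : Measurable UU) (h : Measurable H)
    (l a m : ℕ) (σ : Sta) : Measurable fun z => StH (lam z) (UU z) (H z) l a m σ := by
  unfold StH; fun_prop

@[fun_prop] theorem m_nuZ (h1 : Measurable lam) (h2 : Measurable UU) (h : Measurable H) (l : ℕ) :
    Measurable fun z => nuZ (lam z) (UU z) (H z) l := by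
  unfold nuZ; fun_prop

@[fun_prop] theorem m_nuD (h1 : Measurable lam) (h2 : Measurable UU) (h : Measurable H) :
    Measurable fun z => nuD (lam z) (UU z) (H z) := by
  unfold nuD nuZ; fun_prop

@[fun_prop] theorem m_GJ (h1 : Measurable lam) (h2 : Measurable UU) (h : Measurable H) (l : ℕ)
    (J : Cell) (τ : Sta) : Measurable fun z => GJ (lam z) (UU z) (H z) J l τ := by
  unfold GJ; fun_prop

@[fun_prop] theorem m_lamG (h1 : Measurable lam) (h2 : Measurable UU) (h : Measurable H) :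
    Measurable fun z => lamG (lam z) (UU z) (H z) := by
  unfold lamG; fun_prop

@[fun_prop] theorem m_VL (h : Measurable V) : Measurable fun z => VL (V z) := by
  unfold VL; fun_prop

@[fun_prop] theorem m_YI {Pg : Z → Cell → Prop} (h : Measurable Pg) (h' : Measurable UU) :
    Measurable fun z => YI (Pg z) (UU z) := by
  unfold YI; fun_prop

@[fun_prop] theorem m_HH (h2 : Measurable UU) (h : Measurable H) :
    Measurable fun z => HH (UU z) (H z) := by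
  unfold HH; fun_prop

@[fun_prop] theorem m_HP {z0 : Z → Zt} (h2 : Measurable UU) (h : Measurable H)
    (h3 : Measurable z0) : Measurable fun z => HP (UU z) (H z) (z0 z) := by
  unfold HP HH; fun_prop

@[fun_prop] theorem m_RQ' (h : Measurable H) (l a m : ℕ) (p : Pat) :
    Measurable fun z => RQ (H z) l a m p := by
  unfold RQ; fun_prop

@[fun_prop] theorem m_Prom (h : Measurable H) (h1 : Measurable V) (h2 : Measurable K)
    (h3 : Measurable Y) : Measurable fun z => Prom (H z) (V z) (K z) (Y z) := by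
  unfold Prom SkV PrJ; fun_prop

@[fun_prop] theorem m_PL (h0 : Measurable UU) (h : Measurable H) (h1 : Measurable V)
    (h2 : Measurable K) (h3 : Measurable Y) :
    Measurable fun z => PL (UU z) (H z) (V z) (K z) (Y z) := by
  have := m_Prom h h1 h2 h3
  unfold PL capLL HH; fun_prop

@[fun_prop] theorem m_Lg (h1 : Measurable lam) (h2 : Measurable UU) (h : Measurable H)
    (h3 : Measurable K) (l c a n : ℕ) :
    Measurable fun z => Lg (lam z) (UU z) (H z) l (K z) c a n := by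
  unfold Lg; fun_prop

@[fun_prop] theorem m_mkZ {a : Z → ℕ} {X : Z → Move → Prop} {fl tl : Z → Prop} {A : Z → Sn}
    {Lu : Z → ℕ → ℕ → Finset ℕ → Prop} (h : Measurable H) (h1 : Measurable V) (h2 : Measurable a)
    (h3 : Measurable X) (h4 : Measurable fl) (h5 : Measurable tl) (h6 : Measurable A)
    (h7 : Measurable K) (h8 : Measurable Y) (h9 : Measurable Lu) : Measurable fun z =>
      mkZ (H z) (V z) (a z) (X z) (fl z) (tl z) (A z) (K z) (Y z) (Lu z) := by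
  have := m_Prom h h1 h7 h8
  have := m_TLp h2 h3
  have := m_InP h6
  unfold mkZ; fun_prop

end

/-- The case distinction. -/
def par : Par Bs Lst where
  ok := okB
  n1 β := nuL β.1 β.2.1
  sub := subB
  n2 β u := nuL β.1 u
  m2 β u := muL β.1 u
  m_ok := by unfold okB; fun_prop
  m_n1 := by fun_prop
  m_sub := by unfold subB; fun_prop
  m_n2 := by fun_prop
  m_m2 := by fun_prop

/-! Names -/

section
variable {Z : Type*} [MeasurableSpace Z]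

@[fun_prop] theorem m_Hm {lam : Z → Lam} {UU Y : Z → Lst} {H : Z → Hs} {μ : Z → Mu}
    (h1 : Measurable lam) (h2 : Measurable UU) (h : Measurable H) (h3 : Measurable Y)
    (h4 : Measurable μ) : Measurable fun z => Hm (lam z) (UU z) (H z) (Y z) (μ z) := by
  unfold Hm; fun_prop

@[fun_prop] theorem m_okB {ν : Z → Nu} {β : Z → Bs} (h1 : Measurable ν) (h2 : Measurable β) :
    Measurable fun z => okB (ν z) (β z) := by
  unfold okB; fun_prop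

@[fun_prop] theorem m_Z1 {z0 : Z → Zt} (h : Measurable z0) : Measurable fun z => Z1 (z0 z) := by
  unfold Z1 Req InP; fun_prop

end

theorem nb_choice {b : Rl} [PO b] (q : U) {R : ℕ → ℕ → Set U → Prop} (h : ∀ n m, NB b (R n m)) :
    ∃ f : Set U → ℕ → ℕ, NB b f ∧ Fc b q fun G => ∀ n, (∃ m, R n m G) → R n (f G n) G :=
  fun_ok b q (fun n m G => (∃ m', R n m' G) → R n m G) (fun n m => (NB.ex (h n)).imp (h n m))
    (.of_all fun G n => (em (∃ m, R n m G)).elim (fun ⟨m, hm⟩ => ⟨m, fun _ => hm⟩)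
      fun hn => ⟨0, fun e => absurd e hn⟩)

theorem nb_hs {b : Rl} [PO b] {e : Od → Set U → ℕ → Od} {T : Od → Set U → ℕ → ℕ}
    {Z : Od → Set U → Zt} (he : Lv b e) (hT : ∀ z, NB b (T z)) (hZ : ∀ z, NB b (Z z)) (g : Od) :
    NB b (hs e T Z g) := nb_pi fun j => ((he.no g j).sel hT).mk ((he.no g j).sel hZ)

/-- The history that lists fixed steps. -/
def fx (T : Od → Set U → ℕ → ℕ) (Z : Od → Set U → Zt) (z : ℕ → Od) (G : Set U) : Hs :=
  fun j => (T (z j) G, Z (z j) G)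

theorem nb_fx {b : Rl} [PO b] {T : Od → Set U → ℕ → ℕ} {Z : Od → Set U → Zt}
    (hT : ∀ z, NB b (T z)) (hZ : ∀ z, NB b (Z z)) (z : ℕ → Od) : NB b (fx T Z z) :=
  nb_pi fun _ => (hT _).mk (hZ _)

/-- The base of the run. -/
structure Ctx (θ : Tg Bs) (ν0 : Set U → Nu) (β β0 : Set U → Bs) (G : Set U) : Prop where
  reg : θ.Reg ν0 G
  ok : okB (ν0 G) (β G)
  one : θ.One G → ∀ e, (β G).2.2 (e, e + 1)
  two : ¬ θ.One G → θ.Two β0 G ∧ β0 G = β G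

/-- The flag of a step. -/
def Fg (θ : Tg Bs) (β : Set U → Bs) (H : Set U → Hs) (V : Set U → Vf) : Set U → Prop :=
  θ.Comp fun G => nuL (lamG (β G).1 (β G).2.1 (H G)) (VL (V G))

/-- What holds before a step. -/
structure Pre (θ : Tg Bs) (β : Set U → Bs) (H : Set U → Hs) (G : Set U) : Prop where
  gd : Gd (H G)
  coh : Coh (H G)
  cmp : θ.Comp (fun G => nuL (β G).1 (HH (β G).2.1 (H G))) G

/-- What holds after a step. -/
structure Post (θ : Tg Bs) (β : Set U → Bs) (H : Set U → Hs) (V : Set U → Vf) (a : ℕ)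
    (X : Set U → Move → Prop) (z : Set U → Zt) (Kp : Set U → Sn) (μ : Set U → Mu)
    (N : Set U → ℕ → Sn) (G : Set U) : Prop where
  zok : ZOk (H G) (z G)
  cmp : θ.Comp (fun G => nuL (β G).1 (HP (β G).2.1 (H G) (z G))) G
  ps2 : Ps2 (β G).2.2 a (X G) (z G)
  ps3 : Fg θ β H V G → Ps3 (H G) (V G) (z G)
  ps4 : Ps4 (β G).2.2 (H G) (z G)
  nhit : θ.One G → Fg θ β H V G → θ.NHit μ G ∧ Hm (β G).1 (β G).2.1 (H G) (z G).Y (μ G)
  sep : θ.One G → θ.Sep (fun G => nuD (β G).1 (β G).2.1 (H G)) N G ∧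
    ∀ m l c, (z G).Lu m l c → nuD (β G).1 (β G).2.1 (H G) l c ∧ ∀ e ∈ c, N G m e
  plus : ¬ θ.One G → Fg θ β H V G → θ.Plus (fun G => (z G).K) Kp G ∧ ∀ e, (z G).A e → ¬ Kp G e

/-- The run along the ordinals. -/
structure RC (b : Rl) [PO b] (p : U) (θ : Tg Bs) (β : Set U → Bs) (e : Od → Set U → ℕ → Od)
    (T : Od → Set U → ℕ → ℕ) (a : Od → ℕ) (X : Od → Set U → Move → Prop) (V : Fa)
    (Z : Od → Set U → Zt) (Kp : Od → Set U → Sn) (μ : Od → Set U → Mu)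
    (N : Od → Set U → ℕ → Sn) : Prop where
  nZ : ∀ g, NB b (Z g)
  nK : ∀ g, NB b (Kp g)
  nμ : ∀ g, NB b (μ g)
  nN : ∀ g, NB b (N g)
  z1 : ∀ g, Fc b p fun G => Z1 (Z g G)
  pre : ∀ g, w0 ≤ g → Fc b p (Pre θ β (hs e T Z g))
  post : ∀ g, w0 ≤ g → Fc b p (Post θ β (hs e T Z g) (V g) (a g) (X g) (Z g) (Kp g) (μ g) (N g))

/-- What is known at the second stage in the first case. -/
structure Up (c : Rl) [PO c] (p : U) (θ : Tg Bs) (ν0 : Set U → Nu) (β : Set U → Bs)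
    (e : Od → Set U → ℕ → Od) (T : Od → Set U → ℕ → ℕ) (Z : Od → Set U → Zt)
    (μ : Od → Set U → Mu) (N : Od → Set U → ℕ → Sn) (D : Od → Set U → Sn) : Prop where
  g : Good c
  m : c p p
  ns : NS par c p θ
  lv : Lv c e
  n0 : NB c ν0
  nβ : NB c β
  nT : ∀ z, NB c (T z)
  nZ : ∀ g, NB c (Z g)
  nμ : ∀ g, NB c (μ g)
  nN : ∀ g, NB c (N g)
  nD : ∀ g, NB c (D g)
  base : Fc c p fun G => θ.Reg ν0 G ∧ okB (ν0 G) (β G)
  z1 : ∀ g, Fc c p fun G => Z1 (Z g G)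
  u1 : Club fun g => Fc c p fun G =>
    (θ.NHit (μ g) G ∧ Hm (β G).1 (β G).2.1 (hs e T Z g G) (Z g G).Y (μ g G)) ∧
    θ.Sep (fun G => nuD (β G).1 (β G).2.1 (hs e T Z g G)) (N g) G ∧ ∀ m l x, (Z g G).Lu m l x →
      nuD (β G).1 (β G).2.1 (hs e T Z g G) l x ∧ ∀ i ∈ x, N g G m i
  g0 : ∀ ξ, Fc c p fun G => Inf (D ξ G)
  g2 : ∀ h : Set U → ℕ → ℕ, NB c h → Club fun g => Fc c p fun G =>
    G2 (fun j => D (e g G j) G) (fun j i => D (e (e g G j) G i) G) (Z g G) (h G)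

def S_base : Prop := ∀ (b : Rl) [PO b] (p : U) (θ : Tg Bs), NS par b p θ →
  ∃ ν0 β β0, NB b ν0 ∧ NB b β ∧ NB b β0 ∧
    Fc b p fun G => Ctx θ ν0 β β0 G ∧ θ.Comp (fun G => nuL (β G).1 (β G).2.1) G

/-- The first half of a step: the sets `K`, `Kp`, the family `Y`. -/
def S_half : Prop := ∀ (b : Rl) [PO b] (p : U) (θ : Tg Bs) (ν0 : Set U → Nu) (β β0 : Set U → Bs)
  (H : Set U → Hs) (V : Set U → Vf), NS par b p θ → NB b ν0 → NB b β → NB b β0 → NB b H → NB b V →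
  (∀ G, Fm (V G)) → (Fc b p fun G => Ctx θ ν0 β β0 G ∧ Pre θ β H G) →
    ∃ (K Kp : Set U → Sn) (Y : Set U → Lst) (μ : Set U → Mu), NB b K ∧ NB b Kp ∧ NB b Y ∧ NB b μ ∧
      Fc b p fun G => Fg θ β H V G →
        θ.Comp (fun G => nuL (β G).1 (PL (β G).2.1 (H G) (V G) (K G) (Y G))) G ∧
        (θ.One G → θ.NHit μ G ∧ Hm (β G).1 (β G).2.1 (H G) (Y G) (μ G)) ∧
        (¬ θ.One G → θ.Plus K Kp G ∧ θ.II Kp G)

def S_step : Prop := ∀ (b : Rl) [PO b] (p : U) (θ : Tg Bs) (ν0 : Set U → Nu) (β β0 : Set U → Bs)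
  (H : Set U → Hs) (V : Set U → Vf) (a : ℕ) (X : Set U → Move → Prop), NS par b p θ → NB b ν0 →
  NB b β → NB b β0 → NB b H → NB b V → NB b X → (∀ G, Fm (V G)) →
  (Fc b p fun G => Ctx θ ν0 β β0 G ∧ Pre θ β H G) →
    ∃ z Kp μ N, NB b z ∧ NB b Kp ∧ NB b μ ∧ NB b N ∧ Fc b p (Post θ β H V a X z Kp μ N)

def S_run : Prop := ∀ (b : Rl) [PO b] (p : U) (θ : Tg Bs) (ν0 : Set U → Nu) (β β0 : Set U → Bs)
  (e : Od → Set U → ℕ → Od) (T : Od → Set U → ℕ → ℕ) (a : Od → ℕ) (X : Od → Set U → Move → Prop)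
  (V : Fa), Good b → b p p → NS par b p θ → NB b ν0 → NB b β → NB b β0 → Lv b e →
  (∀ z, NB b (T z)) → (∀ z, NB b (X z)) → (∀ g, NB b (V g)) → (∀ g G, Fm (V g G)) →
  (Fc b p fun G => Ctx θ ν0 β β0 G ∧ θ.Comp (fun G => nuL (β G).1 (β G).2.1) G) →
    ∃ Z Kp μ N, RC b p θ β e T a X V Z Kp μ N

/-- Almost all steps are flagged. -/
def S_flag : Prop := ∀ (b : Rl) [PO b] (p : U) (θ : Tg Bs) (ν0 : Set U → Nu) (β β0 : Set U → Bs)
  e T a X V Z Kp μ N, Good b → b p p → NS par b p θ → NB b ν0 → NB b β → Lv b e →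
  (∀ z, NB b (T z)) → Keep b V → (Fc b p fun G => Ctx θ ν0 β β0 G) →
  RC b p θ β e T a X V Z Kp μ N → Club fun g => Fc b p (Fg θ β (hs e T Z g) (V g))

def S_k1 : Prop := ∀ (c : Rl) [PO c] (p : U) (θ : Tg Bs) ν0 β e T Z μ N D,
  ¬ Up c p θ ν0 β e T Z μ N D

def S_main (hk : S_keep) : Prop := ∀ b0 g0 e, Lv b0 e → ∀ (s : St (kindP hk b0 g0)) (p : U)
  (θ : Tg Bs), s.b p p → NS par s.b p θ → ∃ (s' : St (kindP hk b0 g0)) (q : U), s.le s' ∧
    s'.b q p ∧ ∀ (s'' : St (kindP hk b0 g0)) (θ' : Tg Bs), s'.le s'' → NS par s''.b q θ' →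
      Per s.b s''.b q θ θ' → False

end Pool.Agent.MP_5baa61_gt.JC
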