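import Pool.Agent.MP_5baa61_gt.JC.Norms

/-! One step of the construction: a set of moves is either met by all offers or killed. -/

namespace Pool.Agent.MP_5baa61_gt.JC

open Set Pool.Agent.MP_5baa61_gt.JA Pool.Agent.MP_5baa61_gt.JK Pool.Agent.MP_b60a07_lc.H92
open scoped Classical

theorem col_ex {ι : Type} (Q : ι → Cell → Prop) (b : ℕ) (T : Finset ι)
    (h : ∀ t ∈ T, ∀ a, b ≤ a → ∃ e, a < e ∧ Q t (a, e)) : ∃ b', b ≤ b' ∧ ∃ J : ι → Cell,
      (∀ t ∈ T, b ≤ (J t).1 ∧ (J t).1 < (J t).2 ∧ (J t).2 ≤ b' ∧ Q t (J t)) ∧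
        ∀ t ∈ T, ∀ t' ∈ T, t ≠ t' → (J t).2 ≤ (J t').1 ∨ (J t').2 ≤ (J t).1 := by
  induction T using Finset.induction_on with
  | empty => exact ⟨b, le_rfl, fun _ => (0, 0), by simp, by simp⟩
  | insert s T hs ih =>
    obtain ⟨b', h1, J, h2, h3⟩ := ih fun t ht => h t (Finset.mem_insert_of_mem ht)
    obtain ⟨e, h4, h5⟩ := h s (Finset.mem_insert_self _ _) b' h1
    have e1 : ∀ t ∈ T, Function.update J s (b', e) t = J t := fun t ht =>
      Function.update_of_ne (fun e : t = s => hs (e ▸ ht)) _ _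
    refine ⟨e, h1.trans h4.le, Function.update J s (b', e), fun t ht => ?_, fun t ht t' ht' hn => ?_⟩
    · rcases Finset.mem_insert.1 ht with rfl | ht
      · rw [Function.update_self]; exact ⟨h1, h4, le_rfl, h5⟩
      · rw [e1 t ht]
        exact ⟨(h2 t ht).1, (h2 t ht).2.1, (h2 t ht).2.2.1.trans h4.le, (h2 t ht).2.2.2⟩
    · rcases Finset.mem_insert.1 ht with rfl | a1 <;> rcases Finset.mem_insert.1 ht' with rfl | a2
      · exact absurd rfl hn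
      · rw [Function.update_self, e1 t' a2]; exact .inr (h2 t' a2).2.2.1
      · rw [Function.update_self, e1 t a1]; exact .inl (h2 t a1).2.2.1
      · rw [e1 t a1, e1 t' a2]; exact h3 t a1 t' a2 hn

/-- Cells with prescribed properties can be arranged in a grid. -/
theorem grid_ex {B : Finset ℕ → Prop} (hB : JF.Thin B) (Q : Finset ℕ → ℕ → Cell → Prop)
    (h : ∀ t k, B t → ∀ a, k ≤ a → ∃ e, a < e ∧ Q t k (a, e)) :
    ∃ g : JF.Gd, g.B = B ∧ JF.Grid g ∧ ∀ t k, g.ix t k → Q t k (g.J t k) := by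
  let T : ℕ → Finset (Finset ℕ) := fun k => (Finset.range k).powerset.filter B
  choose F h1 J h2 h3 using fun k b => col_ex (fun t => Q t k) (max k b) (T k)
    fun t ht a ha => h t k (Finset.mem_filter.1 ht).2 a ((le_max_left _ _).trans ha)
  let bd : ℕ → ℕ := fun k => Nat.rec 0 (fun k b => max (k + 1) (F k b)) k
  have hT : ∀ t k, B t → (∀ i ∈ t, i < k) → t ∈ T k := fun t k h1 h2 => Finset.mem_filter.2
    ⟨Finset.mem_powerset.2 fun i hi => Finset.mem_range.2 (h2 i hi), h1⟩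
  refine ⟨⟨B, fun t k => J k (bd k) t, bd⟩, rfl, ⟨hB, fun k => ⟨?_, ?_⟩, fun t k ht => ?_,
    fun t t' k ht ht' => h3 k _ t (hT t k ht.1 ht.2.2) t' (hT t' k ht'.1 ht'.2.2)⟩,
    fun t k ht => (h2 k _ t (hT t k ht.1 ht.2.2)).2.2.2⟩
  · cases k
    exacts [le_rfl, le_max_left _ _]
  · exact ((le_max_right _ _).trans (h1 k (bd k))).trans (le_max_right _ _)
  · obtain ⟨a1, a2, a3, -⟩ := h2 k (bd k) t (hT t k ht.1 ht.2.2)
    exact ⟨(le_max_right _ _).trans a1, a2, a3.trans (le_max_right _ _)⟩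

/-- A state can be placed in a cell that starts at a given point. -/
theorem place {lam : Lam} {UU : Lst} (hl : CS lam) (hU : IsL UU) {N : Sn}
    (h : ¬ Null (nuL lam UU) N) (a m : ℕ) : ∃ e, a < e ∧ ∃ σ : Sta, Mod lam a m σ ∧
      Ins σ.1.1 (a, e) ∧ Meets (UU (max a m)) σ ∧ ∀ i ∈ σ.2, N i := by
  obtain ⟨x, ⟨s, h1, h2⟩, h3⟩ := not_null.1 h (max a m)
  refine ⟨max (a + 1) (s.1.sup Prod.snd), lt_of_lt_of_le (Nat.lt_succ_self a) (le_max_left _ _),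
    (s, x), h1.both hl (by omega) (by omega), fun C hC => ⟨?_, ?_⟩,
    fun u hu => hU.anti _ _ (h2 u hu), h3⟩
  · have := (h1.2.2.1 C hC).1
    simp only; omega
  · exact (Finset.le_sup (f := Prod.snd) hC).trans (le_max_right _ _)

/-- The killing alternative. -/
def Kil (ν : Nu) (Pi : Cell → Prop) (a : ℕ) (X : Move → Prop) (B : Finset ℕ → Prop)
    (N : Finset ℕ → ℕ → Sn) (A H : Sn) : Prop :=
  Inf H ∧ (∀ u, X u → ¬ Legal Pi a A u) ∧ ∀ t k, B t → (∀ i ∈ t, H i ∧ i < k) → H k →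
    ∀ c, c + 1 ≤ k → ∃ x, ν c x ∧ ∀ e ∈ x, A e ∧ N t k e

theorem tlk_core {lam : Lam} {Pi : Cell → Prop} {UU : Lst} {a : ℕ} {X : Move → Prop}
    {B : Finset ℕ → Prop} {N : Finset ℕ → ℕ → Sn} {F : Sn} (hl : CS lam) (ho : On lam Pi)
    (hU : IsL UU) (h1 : JF.Thin B) (h2 : JF.Front B)
    (h3 : ∀ t i, B t → ¬ Null (rsn (nuL lam UU) F) (N t i))
    (h4 : Null (nuL lam (capL UU (TLp a X))) F) :
    ∃ A H, Kil (rsn (nuL lam UU) F) Pi a X B N A H := by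
  obtain ⟨g, rfl, g1, g2⟩ := grid_ex h1 (fun t k J => ∃ σ : Sta, Mod lam J.1 (k + 1) σ ∧
      Ins σ.1.1 J ∧ Meets (UU (k + 1)) σ ∧ ∀ i ∈ σ.2, N t k i ∧ F i) fun t k ht a _ =>
    let ⟨e, a1, σ, a2, a3, a4, a5⟩ := place hl hU (fun h => h3 t k ht (null_rsn.2 h)) a (k + 1)
    ⟨e, a1, σ, a2, a3, fun u hu => hU.le (a4 u hu) (le_max_right _ _), a5⟩
  choose! σ s1 s2 s3 s4 using g2
  rcases JF.all_tlk lam Pi a X g σ hl ho h2 ⟨g1, fun t k h => ⟨s1 t k h, s2 t k h⟩⟩ with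
    ⟨H, σ', k1, k2, k3⟩ | hA
  · refine ⟨_, H, k1, k3, fun t k ht h5 h6 c hc => ?_⟩
    have hx : g.ix t k := ⟨ht, by omega, fun i hi => (h5 i hi).2⟩
    obtain ⟨a1, a2⟩ := k2 t k hx (fun i hi => (h5 i hi).1) h6
    exact ⟨(σ' t k).2, ⟨⟨(σ' t k).1, a2.both hl (hc.trans (g1.le_left hx)) hc, fun u hu =>
      hU.le ((s3 t k hx).sub hl (hU.req _) a1 a2 hx.2.1 u hu) (by omega)⟩,
      fun e he => (s4 t k hx e (a1.2 he)).2⟩, fun e he =>
        ⟨⟨t, k, hx, fun i hi => (h5 i hi).1, h6, he⟩, (s4 t k hx e (a1.2 he)).1⟩⟩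
  · obtain ⟨c, hc⟩ := h4
    obtain ⟨ρ, a1, a2, a3, a4⟩ := hA (c + 1)
    obtain ⟨i, a5, a6⟩ := hc ρ.2 ⟨ρ.1, a1, fun u hu => ⟨by
      obtain ⟨t, k, a7, a8, c', a9, a10⟩ := a4 u hu
      exact hU.le (hU.req _ _ _ (s3 t k a7 c' a9) a10) (by omega), a2 u hu⟩⟩
    obtain ⟨t, k, a7, a8⟩ := a3 i a5
    exact absurd (s4 t k a7 i a8).2 a6

/-- The killing set is positive outside every set that is small on some member over `H`. -/
theorem Kil.pos {ν : Nu} {Pi : Cell → Prop} {a : ℕ} {X : Move → Prop} {B : Finset ℕ → Prop}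
    {N : Finset ℕ → ℕ → Sn} {A H K : Sn} (h : Kil ν Pi a X B N A H) (hn : Norm ν)
    (hN : ∀ t i e, N t (i + 1) e → N t i e) {t : Finset ℕ} (h1 : B t) (h2 : ∀ i ∈ t, H i) {i : ℕ}
    (h3 : Null ν fun e => N t i e ∧ K e) : ¬ Null (rsn ν A) fun e => ¬ K e := fun h4 => by
  have le : ∀ k, i ≤ k → ∀ e, N t k e → N t i e := fun k hk => by
    induction hk with
    | refl => exact fun _ => id
    | step _ ih => exact fun e he => ih e (hN _ _ _ he)
  obtain ⟨c, hc⟩ := hn.union h3 (null_rsn.1 h4) (C := fun e => A e ∧ N t i e)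
    fun e he => (em (K e)).imp (fun h => ⟨he.2, h⟩) fun h => ⟨h, he.1⟩
  obtain ⟨k, a1, a2⟩ := h.1 (max (max i (c + 1)) (t.sup id + 1))
  obtain ⟨x, a3, a4⟩ := h.2.2 t k h1 (fun j hj => ⟨h2 j hj, by
    have := Finset.le_sup (f := id) hj
    simp only [id] at this; omega⟩) a2 c (by omega)
  obtain ⟨e, a5, a6⟩ := hc x a3
  exact a6 ⟨(a4 e a5).1, le k (by omega) e (a4 e a5).2⟩

variable {B L : Type} [MeasurableSpace B] [MeasurableSpace L] {P : Par B L} {b : Rl} [PO b]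
  {p : U} {θ : Tg B}

/-- Names are measurable maps. -/
theorem nb_of {X : Type*} [MeasurableSpace X] {f : Set U → X} (h : Measurable (α := Lc b) f) :
    NB b f := h

theorem NB.ms {X : Type*} [MeasurableSpace X] {f : Set U → X} (h : NB b f) :
    Measurable (α := Lc b) f := h

/-- Compatibility passes to a norm whose null sets are null outside a set of the ideal. -/
theorem comp_of (h : NS P b p θ) {ν ν' : Set U → Nu} {K0 : Set U → Sn} (h1 : NB b ν) (h2 : NB b ν')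
    (h3 : NB b K0) : Fc b p fun G => θ.Comp ν G → θ.II K0 G →
      (∀ A : Sn, Null (ν' G) A → Null (ν G) fun e => A e ∧ ¬ K0 G e) → θ.Comp ν' G := by
  obtain ⟨K, k1, k2⟩ := h.comp_intro h2
  have k3 : NB b fun G e => K G e ∨ K0 G e := by
    have := NB.ms k1; have := NB.ms h3
    exact nb_of (by fun_prop)
  refine ((k2.and (h.union k1 h3 k3)).and (h.comp_elim h1 k3)).imp
    fun G ⟨⟨a1, a2⟩, a3⟩ c1 c2 c3 => not_not.1 fun hn => ?_
  exact a3 c1 (a2 (a1 hn).1 c2 fun _ => id) ((c3 _ (a1 hn).2).mono fun e he => not_or.1 he)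

theorem comp_mono (h : NS P b p θ) {ν ν' : Set U → Nu} (h1 : NB b ν) (h2 : NB b ν') :
    Fc b p fun G => θ.Comp ν G → (∀ A : Sn, Null (ν' G) A → Null (ν G) A) → θ.Comp ν' G := by
  obtain ⟨K, k1, k2⟩ := h.comp_intro h2
  exact (k2.and (h.comp_elim h1 k1)).imp fun G ⟨a1, a2⟩ c1 c2 =>
    not_not.1 fun hn => a2 c1 (a1 hn).1 (c2 _ (a1 hn).2)

/-- Compatibility passes to the restriction to the complement of a set of the ideal. -/
theorem comp_diff (h : NS P b p θ) {ν : Set U → Nu} {K0 : Set U → Sn} (h1 : NB b ν) (h3 : NB b K0) :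
    Fc b p fun G => θ.Comp ν G → θ.II K0 G → θ.Comp (fun G => rsn (ν G) fun e => ¬ K0 G e) G := by
  have := NB.ms h1; have := NB.ms h3
  exact (comp_of h h1 (nb_of (by fun_prop)) h3).imp fun G a c1 c2 =>
    a c1 c2 fun A hA => null_rsn.1 hA

theorem step_tlk (h : NS P b p θ) {ν0 : Set U → Nu} {lam : Set U → Lam} {Pi : Set U → Cell → Prop}
    {UU : Set U → Lst} {a : Set U → ℕ} {X : Set U → Move → Prop} (n0 : NB b ν0) (n1 : NB b lam)
    (n2 : NB b Pi) (n3 : NB b UU) (n4 : NB b a) (n5 : NB b X)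
    (H : Fc b p fun G => θ.Reg ν0 G ∧ CS (lam G) ∧ On (lam G) (Pi G) ∧ IsL (UU G) ∧
      Adm (ν0 G) (nuL (lam G) (UU G)) ∧ θ.Comp (fun G => nuL (lam G) (UU G)) G) :
    ∃ (A : Set U → Sn) (tl : Set U → Prop), NB b A ∧ NB b tl ∧ Fc b p fun G =>
      θ.Comp (fun G => rsn (nuL (lam G) (capL (UU G) fun q => tl G → TLp (a G) (X G) q)) (A G)) G ∧
        (¬ tl G → ∀ u, X G u → ¬ Legal (Pi G) (a G) (A G) u) := by
  have m1 := NB.ms n1; have m2 := NB.ms n2; have m3 := NB.ms n3; have m4 := NB.ms n4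
  have m5 := NB.ms n5
  have mT : Measurable (α := Lc b) fun G => TLp (a G) (X G) := by fun_prop
  have nν : NB b fun G => nuL (lam G) (UU G) := nb_of (by fun_prop)
  have nν1 : NB b fun G => nuL (lam G) (capL (UU G) (TLp (a G) (X G))) := nb_of (by fun_prop)
  obtain ⟨K0, k1, k2⟩ := h.comp_intro nν1
  have m6 := NB.ms k1
  have nν2 : NB b fun G => rsn (nuL (lam G) (UU G)) fun e => ¬ K0 G e := nb_of (by fun_prop)
  obtain ⟨Lf, N, l1, l2, l3⟩ := h.sepb n0 nν2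
  have m7 := NB.ms (h.nb_Comp nν1)
  obtain ⟨tl, e⟩ : ∃ tl : Set U → Prop,
    θ.Comp (fun G => nuL (lam G) (capL (UU G) (TLp (a G) (X G)))) = tl := ⟨_, rfl⟩
  rw [e] at m7 k2
  have H2 := ((H.and k2).and (l3.and (comp_diff h nν k1))).imp (T := fun G => ¬ tl G →
      θ.SepT (fun G => rsn (nuL (lam G) (UU G)) fun e => ¬ K0 G e) Lf N G ∧
      (∀ t i e, N G t (i + 1) e → N G t i e) ∧
      ∃ y : Sn × Sn, Kil (rsn (nuL (lam G) (UU G)) fun e => ¬ K0 G e) (Pi G) (a G) (X G) (Lf G)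
        (N G) y.1 y.2) fun G ⟨⟨⟨a1, a2, a3, a4, a5, a6⟩, a7⟩, a8, a9⟩ hn => by
    obtain ⟨c1, c2, c3, c4, c5⟩ := a8 a1 ((norm_nuL a2 a4).rsn _) (a5.rsn _) (a9 a6 (a7 hn).1)
    obtain ⟨A, H, c6⟩ := tlk_core a2 a3 a4 c2 c3 c4 (a7 hn).2
    exact ⟨c1, c5, (A, H), c6⟩
  obtain ⟨y, y1, y2⟩ := nb_unif (X := Prop × Nu × (Cell → Prop) × ℕ × (Move → Prop) ×
      (Finset ℕ → Prop) × (Finset ℕ → ℕ → Sn)) (Y := Sn × Sn) (C := fun x y => ¬ x.1 →
      Kil x.2.1 x.2.2.1 x.2.2.2.1 x.2.2.2.2.1 x.2.2.2.2.2.1 x.2.2.2.2.2.2 y.1 y.2)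
    (by unfold Kil; fun_prop)
    ((nb_of m7).mk (nν2.mk (n2.mk (n4.mk (n5.mk (l1.mk l2)))))) (H2.imp fun G hG => by
      by_cases ht : tl G
      · exact ⟨default, fun h => absurd ht h⟩
      · exact (hG ht).2.2.imp fun _ h _ => h)
  have m8 := NB.ms y1
  have nA : NB b fun G e => tl G ∨ (y G).1 e := nb_of (by fun_prop)
  have m9 := NB.ms nA
  have nν3 : NB b fun G => rsn (nuL (lam G) (capL (UU G) fun q => tl G → TLp (a G) (X G) q))
      fun e => tl G ∨ (y G).1 e := nb_of (by fun_prop)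
  obtain ⟨K, j1, j2⟩ := h.comp_intro nν3
  refine ⟨_, tl, nA, nb_of m7, (((H.and H2).and (y2.and j2)).and ((h.comp_elim nν1 j1).and
    (h.sept_elim nν2 l1 l2 j1 (H := fun G => (y G).2) (nb_of (by fun_prop))))).imp
      fun G ⟨⟨⟨⟨_, a2, _, a4, _⟩, a5⟩, a6, a7⟩, a8, a9⟩ => ⟨not_not.1 fun hn => ?_, fun ht => ?_⟩⟩
  · obtain ⟨c1, c2⟩ := a7 hn
    by_cases ht : tl G
    · exact a8 (e ▸ ht) c1 (null_of_le (fun c x hx => ⟨hx.mono fun l q hq => ⟨hq.1, fun _ => hq.2⟩,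
        fun _ _ => .inl ht⟩) c2)
    · obtain ⟨t, c3, c4, i, c5⟩ := a9 (a5 ht).1 c1 (a6 ht).1
      exact (a6 ht).pos ((norm_nuL a2 a4).rsn _) (a5 ht).2.1 c3 c4 c5 (null_of_le (fun c x hx =>
        ⟨hx.1.1.mono fun l q hq => ⟨hq, fun h => absurd h ht⟩, fun e he => .inr (hx.2 e he)⟩) c2)
  · simpa only [ht, false_or] using (a6 ht).2.1

end Pool.Agent.MP_5baa61_gt.JC
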